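import Mathlib

/-!
# Sets of small doubling and the Paley graph conjecture: definitions

A system is a subgroup `G` of `E × ZMod p`, `E` a finite dimensional real normed space, with finite
balls.  See `/team-store/PG_paper_helper85.md`.
-/

set_option autoImplicit false

namespace Pool.Agent.helper85.PG

open Module

section
variable {E : Type*} [NormedAddCommGroup E] [NormedSpace ℝ E] {H : Type*} [AddCommGroup H]

/-- the ball of radius `R` of `G` -/
def ball (G : AddSubgroup (E × H)) (R : ℝ) : Set (E × H) := {z | z ∈ G ∧ ‖z.1‖ ≤ R}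

/-- finite balls -/
def FB (G : AddSubgroup (E × H)) : Prop := ∀ R : ℝ, (ball G R).Finite

omit [NormedSpace ℝ E] in
theorem mem_ball (G : AddSubgroup (E × H)) (R : ℝ) (z : E × H) :
    z ∈ ball G R ↔ z ∈ G ∧ ‖z.1‖ ≤ R := Iff.rfl

omit [NormedSpace ℝ E] in
theorem ball_mono (G : AddSubgroup (E × H)) {R R' : ℝ} (h : R ≤ R') : ball G R ⊆ ball G R' :=
  fun _ hz => ⟨hz.1, hz.2.trans h⟩

omit [NormedSpace ℝ E] in
theorem add_mem_ball (G : AddSubgroup (E × H)) {R R' : ℝ} {z z' : E × H} (hz : z ∈ ball G R)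
    (hz' : z' ∈ ball G R') : z + z' ∈ ball G (R + R') :=
  ⟨G.add_mem hz.1 hz'.1, (norm_add_le _ _).trans (add_le_add hz.2 hz'.2)⟩

omit [NormedSpace ℝ E] in
theorem neg_mem_ball (G : AddSubgroup (E × H)) {R : ℝ} {z : E × H} (hz : z ∈ ball G R) :
    -z ∈ ball G R :=
  ⟨G.neg_mem hz.1, by rw [Prod.fst_neg, norm_neg]; exact hz.2⟩

end

section
variable {p : ℕ} [Fact p.Prime]

section
variable {E : Type*} [NormedAddCommGroup E]

/-- the image in `ZMod p` of the ball of radius `R` -/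
noncomputable def PP (G : AddSubgroup (E × ZMod p)) (R : ℝ) : Finset (ZMod p) :=
  (Set.toFinite {y : ZMod p | ∃ x : E, (x, y) ∈ G ∧ ‖x‖ ≤ R}).toFinset

theorem mem_PP (G : AddSubgroup (E × ZMod p)) (R : ℝ) (y : ZMod p) :
    y ∈ PP G R ↔ ∃ x : E, (x, y) ∈ G ∧ ‖x‖ ≤ R := by
  unfold PP
  rw [Set.Finite.mem_toFinset]
  rfl

end

/-- `rr S ρ = #{y ∈ S : ρ y ∈ S}` -/
def rr (S : Finset (ZMod p)) (ρ : ZMod p) : ℕ := (S.filter fun y => ρ * y ∈ S).card

/-- The family of sets `P : ℝ → Finset (ZMod p)` comes from a system of dimension at most `d`. -/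
def IsSys (p : ℕ) [Fact p.Prime] (d : ℕ) (P : ℝ → Finset (ZMod p)) : Prop :=
  ∃ (E : Type) (_ : NormedAddCommGroup E) (_ : NormedSpace ℝ E) (G : AddSubgroup (E × ZMod p)),
    FiniteDimensional ℝ E ∧ finrank ℝ E ≤ d ∧ FB G ∧ ∀ R, P R = PP G R

/-- the large ratios -/
noncomputable def Lam (C : ℝ) (S : Finset (ZMod p)) : Finset (ZMod p) := by
  classical
  exact Finset.univ.filter fun ρ => ρ ≠ 0 ∧ 2 ≤ rr S ρ ∧ C * (S.card : ℝ) ^ 2 ≤ p * (rr S ρ : ℝ)

theorem mem_Lam (C : ℝ) (S : Finset (ZMod p)) (ρ : ZMod p) :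
    ρ ∈ Lam C S ↔ ρ ≠ 0 ∧ 2 ≤ rr S ρ ∧ C * (S.card : ℝ) ^ 2 ≤ p * (rr S ρ : ℝ) := by
  unfold Lam
  rw [Finset.mem_filter]
  exact ⟨fun h => h.2, fun h => ⟨Finset.mem_univ _, h⟩⟩

end

end Pool.Agent.helper85.PG
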