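import Mathlib
import Pool.Agent.helper85.PG.Defs

/-!
# Small doubling and the Paley graph conjecture: basic properties of systems
-/

set_option autoImplicit false

namespace Pool.Agent.helper85.PG

open Module

variable {p : ℕ} [Fact p.Prime]

section
variable {E : Type*} [NormedAddCommGroup E]

theorem zero_mem_PP (G : AddSubgroup (E × ZMod p)) {R : ℝ} (hR : 0 ≤ R) : (0 : ZMod p) ∈ PP G R :=
  (mem_PP G R 0).2 ⟨0, G.zero_mem, by rw [norm_zero]; exact hR⟩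

theorem PP_mono (G : AddSubgroup (E × ZMod p)) {R R' : ℝ} (h : R ≤ R') : PP G R ⊆ PP G R' := by
  intro y hy
  obtain ⟨x, hx, hxR⟩ := (mem_PP G R y).1 hy
  exact (mem_PP G R' y).2 ⟨x, hx, hxR.trans h⟩

theorem neg_mem_PP (G : AddSubgroup (E × ZMod p)) {R : ℝ} {y : ZMod p} (hy : y ∈ PP G R) :
    -y ∈ PP G R := by
  obtain ⟨x, hx, hxR⟩ := (mem_PP G R y).1 hy
  exact (mem_PP G R (-y)).2 ⟨-x, G.neg_mem hx, by rw [norm_neg]; exact hxR⟩

theorem add_mem_PP (G : AddSubgroup (E × ZMod p)) {R R' : ℝ} {y y' : ZMod p} (hy : y ∈ PP G R)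
    (hy' : y' ∈ PP G R') : y + y' ∈ PP G (R + R') := by
  obtain ⟨x, hx, hxR⟩ := (mem_PP G R y).1 hy
  obtain ⟨x', hx', hxR'⟩ := (mem_PP G R' y').1 hy'
  exact (mem_PP G _ _).2 ⟨x + x', G.add_mem hx hx', (norm_add_le _ _).trans (add_le_add hxR hxR')⟩

theorem nat_mul_mem_PP (G : AddSubgroup (E × ZMod p)) {R : ℝ} {y : ZMod p} (hy : y ∈ PP G R)
    (n : ℕ) : (n : ZMod p) * y ∈ PP G (n * R) := by
  induction n with
  | zero =>
    rw [Nat.cast_zero, zero_mul, Nat.cast_zero, zero_mul]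
    exact zero_mem_PP G le_rfl
  | succ n ih =>
    have h := add_mem_PP G ih hy
    rw [Nat.cast_succ, Nat.cast_succ, add_mul, add_mul, one_mul, one_mul]
    exact h

end

namespace IsSys

variable {d : ℕ} {P : ℝ → Finset (ZMod p)}

theorem zero_mem (h : IsSys p d P) {R : ℝ} (hR : 0 ≤ R) : (0 : ZMod p) ∈ P R := by
  obtain ⟨E, _, _, G, _, _, _, hP⟩ := h
  rw [hP]
  exact zero_mem_PP G hR

theorem mono (h : IsSys p d P) {R R' : ℝ} (hR : R ≤ R') : P R ⊆ P R' := by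
  obtain ⟨E, _, _, G, _, _, _, hP⟩ := h
  rw [hP, hP]
  exact PP_mono G hR

theorem neg_mem (h : IsSys p d P) {R : ℝ} {y : ZMod p} (hy : y ∈ P R) : -y ∈ P R := by
  obtain ⟨E, _, _, G, _, _, _, hP⟩ := h
  rw [hP] at hy ⊢
  exact neg_mem_PP G hy

theorem add_mem (h : IsSys p d P) {R R' : ℝ} {y y' : ZMod p} (hy : y ∈ P R) (hy' : y' ∈ P R') :
    y + y' ∈ P (R + R') := by
  obtain ⟨E, _, _, G, _, _, _, hP⟩ := h
  rw [hP] at hy hy' ⊢
  exact add_mem_PP G hy hy'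

theorem sub_mem (h : IsSys p d P) {R R' : ℝ} {y y' : ZMod p} (hy : y ∈ P R) (hy' : y' ∈ P R') :
    y - y' ∈ P (R + R') := by
  rw [sub_eq_add_neg]
  exact h.add_mem hy (h.neg_mem hy')

theorem nat_mul_mem (h : IsSys p d P) {R : ℝ} {y : ZMod p} (hy : y ∈ P R) (n : ℕ) :
    (n : ZMod p) * y ∈ P (n * R) := by
  obtain ⟨E, _, _, G, _, _, _, hP⟩ := h
  rw [hP] at hy ⊢
  exact nat_mul_mem_PP G hy n

theorem mono_dim (h : IsSys p d P) {d' : ℕ} (hd : d ≤ d') : IsSys p d' P := by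
  obtain ⟨E, i1, i2, G, h1, h2, h3, hP⟩ := h
  exact ⟨E, i1, i2, G, h1, h2.trans hd, h3, hP⟩

theorem card_pos (h : IsSys p d P) {R : ℝ} (hR : 0 ≤ R) : 0 < (P R).card :=
  Finset.card_pos.2 ⟨0, h.zero_mem hR⟩

/-- rescaling -/
theorem scale (h : IsSys p d P) {c : ℝ} (hc : 0 < c) : IsSys p d fun R => P (c * R) := by
  obtain ⟨E, i1, i2, G, h1, h2, h3, hP⟩ := h
  let f : E × ZMod p →+ E × ZMod p :=
    { toFun := fun z => (c • z.1, z.2)
      map_zero' := by rw [Prod.fst_zero, smul_zero, Prod.snd_zero]; rfl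
      map_add' := fun z z' => by rw [Prod.fst_add, smul_add, Prod.snd_add]; rfl }
  have hf : ∀ z, z ∈ G.comap f ↔ (c • z.1, z.2) ∈ G := fun z => Iff.rfl
  have hn : ∀ (x : E) (R : ℝ), ‖c • x‖ ≤ c * R ↔ ‖x‖ ≤ R := fun x R => by
    rw [norm_smul, Real.norm_of_nonneg hc.le]
    exact mul_le_mul_iff_right₀ hc
  refine ⟨E, i1, i2, G.comap f, h1, h2, fun R => ?_, fun R => ?_⟩
  · refine Set.Finite.of_finite_image (f := f) ((h3 (c * R)).subset ?_) ?_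
    · rintro _ ⟨z, hz, rfl⟩
      exact ⟨(hf z).1 hz.1, (hn z.1 R).2 hz.2⟩
    · rintro ⟨x, y⟩ _ ⟨x', y'⟩ _ hxy
      have h := Prod.mk.inj hxy
      exact Prod.ext (smul_right_injective E hc.ne' h.1) h.2
  · change P (c * R) = _
    rw [hP]
    ext y
    rw [mem_PP, mem_PP]
    constructor
    · rintro ⟨x, hx, hxR⟩
      refine ⟨c⁻¹ • x, (hf _).2 ?_, (hn _ _).1 ?_⟩
      · rw [smul_inv_smul₀ hc.ne']; exact hx
      · rw [smul_inv_smul₀ hc.ne']; exact hxR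
    · rintro ⟨x, hx, hxR⟩
      exact ⟨c • x, (hf _).1 hx, (hn _ _).2 hxR⟩

end IsSys

end Pool.Agent.helper85.PG
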