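import Mathlib
import Pool.Agent.helper85.PG.Defs

/-!
# Small doubling and the Paley graph conjecture: statements of part 1 (geometry of systems)

Paper: `/team-store/PG_paper_helper85.md`.  For every `X_stmt` below a module proves
`theorem X : X_stmt` (with the statements named in the docstring as hypotheses, if it needs them) in
`Pool/Agent/<seat>/PG/X.lean`, namespace `Pool.Agent.helper85.PG`.
-/

set_option autoImplicit false

namespace Pool.Agent.helper85.PG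

open Module

/-- V1 (upper bound for separated sets).  Proof: the balls of radius `δ/2` around the points of `T`
are disjoint and lie in the ball of radius `R + δ/2`; compare Haar measures (`addHaar_ball`, see
`Besicovitch.card_le_of_separated` for a similar proof). -/
def V1_stmt : Prop := ∀ (E : Type) [NormedAddCommGroup E] [NormedSpace ℝ E]
  [FiniteDimensional ℝ E] (T : Finset E) (δ R : ℝ), 0 < δ → 0 ≤ R → (∀ x ∈ T, ‖x‖ ≤ R) →
    (∀ x ∈ T, ∀ y ∈ T, x ≠ y → δ ≤ ‖x - y‖) → (T.card : ℝ) ≤ (1 + 2 * R / δ) ^ finrank ℝ E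

/-- V2 (large separated sets).  Uses V1.  Proof: by V1 there is a separated `T` in the ball of
radius `R` of maximal cardinality; the balls of radius `δ` around `T` cover the closed ball of radius
`R`; compare Haar measures. -/
def V2_stmt : Prop := ∀ (E : Type) [NormedAddCommGroup E] [NormedSpace ℝ E]
  [FiniteDimensional ℝ E] (δ R : ℝ), 0 < δ → 0 < R → ∃ T : Finset E, (∀ x ∈ T, ‖x‖ ≤ R) ∧
    (∀ x ∈ T, ∀ y ∈ T, x ≠ y → δ ≤ ‖x - y‖) ∧ (R / δ) ^ finrank ℝ E ≤ (T.card : ℝ)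

/-- PK (packing).  Uses V1 (for the space `W`).  Proof: take `T ⊆ ball G l` with first coordinates
pairwise at distance `≥ m`, of maximal cardinality (bounded by V1 in `W`); `T` works because
`z - t ∈ G` and `‖z.1 - t.1‖ < m` for some `t ∈ T`. -/
def PK_stmt : Prop := ∀ (E : Type) [NormedAddCommGroup E] [NormedSpace ℝ E]
  [FiniteDimensional ℝ E] (H : Type) [AddCommGroup H] (G : AddSubgroup (E × H))
  (W : Submodule ℝ E) (l m : ℝ), 0 ≤ l → 0 < m → (∀ z ∈ ball G l, z.1 ∈ W) →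
    ∃ T : Finset (E × H), (∀ t ∈ T, t ∈ ball G l) ∧
      (T.card : ℝ) ≤ (1 + 2 * l / m) ^ finrank ℝ W ∧ ∀ z ∈ ball G l, ∃ t ∈ T, z - t ∈ ball G m

/-- PKC (consequences of packing).  Uses PK.  (1) count of lattice points, (2) count of the images in
`ZMod p`, (3) covering of the images, with `W = ⊤`. -/
def PKC_stmt : Prop :=
  (∀ (E : Type) [NormedAddCommGroup E] [NormedSpace ℝ E] [FiniteDimensional ℝ E] (H : Type)
    [AddCommGroup H] (G : AddSubgroup (E × H)) (W : Submodule ℝ E) (l m : ℝ), FB G → 0 ≤ l →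
    0 < m → (∀ z ∈ ball G l, z.1 ∈ W) →
      ((ball G l).ncard : ℝ) ≤ (1 + 2 * l / m) ^ finrank ℝ W * ((ball G m).ncard : ℝ)) ∧
  (∀ (p : ℕ) [Fact p.Prime] (E : Type) [NormedAddCommGroup E] [NormedSpace ℝ E]
    [FiniteDimensional ℝ E] (G : AddSubgroup (E × ZMod p)) (W : Submodule ℝ E) (l m : ℝ), 0 ≤ l →
    0 < m → (∀ z ∈ ball G l, z.1 ∈ W) →
      ((PP G l).card : ℝ) ≤ (1 + 2 * l / m) ^ finrank ℝ W * ((PP G m).card : ℝ)) ∧
  (∀ (p : ℕ) [Fact p.Prime] (d : ℕ) (P : ℝ → Finset (ZMod p)), IsSys p d P → ∀ l m : ℝ, 0 ≤ l →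
    0 < m → ((P l).card : ℝ) ≤ (1 + 2 * l / m) ^ d * ((P m).card : ℝ) ∧
      ∃ T : Finset (ZMod p), T ⊆ P l ∧ (T.card : ℝ) ≤ (1 + 2 * l / m) ^ d ∧
        ∀ y ∈ P l, ∃ t ∈ T, y - t ∈ P m)

/-- GR (growth).  Uses V2 (for `W` = the span of the first coordinates of `ball G l`).  Proof: take
`T ⊆ W` from V2 with radius `R` and separation `(s+3) l`.  `W` has a basis `g_1, …, g_s` among the
first coordinates of `ball G l`; for `e ∈ T` write `e = ∑ c_i g_i` and take the element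
`∑ round (c_i) g_i` of `G` (with its second coordinates): `g_e ∈ G` with `‖g_e.1 - e‖ ≤ s l / 2`.
The map `(e, z) ↦ g_e + z`, `T × ball G l → ball G (R + (1 + s/2) l)`, is injective. -/
def GR_stmt : Prop := ∀ (E : Type) [NormedAddCommGroup E] [NormedSpace ℝ E]
  [FiniteDimensional ℝ E] (H : Type) [AddCommGroup H] (G : AddSubgroup (E × H)), FB G →
    ∀ l R : ℝ, 0 < l → 0 < R → ∀ s : ℕ,
      finrank ℝ (Submodule.span ℝ (Prod.fst '' ball G l)) = s →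
      (R / (((s : ℝ) + 3) * l)) ^ s * ((ball G l).ncard : ℝ) ≤
        ((ball G (R + (1 + (s : ℝ) / 2) * l)).ncard : ℝ)

/-- T1 (few ratios), PR (proper at `l`: the sets `P` have as many elements as the balls) and LL (the
system of pairs `L = {((x, x'), y) : (x, y) ∈ G, (x', ρ y) ∈ G}`).  Elementary. -/
def T1_stmt : Prop :=
  (∀ (p : ℕ) [Fact p.Prime] (S : Finset (ZMod p)), (0 : ZMod p) ∈ S →
    (((Finset.univ : Finset (ZMod p)).filter fun ρ => ρ ≠ 0 ∧ 2 ≤ rr S ρ).card : ℝ) ≤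
      (S.card : ℝ) ^ 2) ∧
  (∀ (p : ℕ) [Fact p.Prime] (E : Type) [NormedAddCommGroup E] (G : AddSubgroup (E × ZMod p))
    (l : ℝ), FB G → (∀ x : E, (x, (0 : ZMod p)) ∈ G → ‖x‖ ≤ 2 * l → x = 0) →
      (PP G l).card = (ball G l).ncard) ∧
  (∀ (p : ℕ) [Fact p.Prime] (E : Type) [NormedAddCommGroup E] (G : AddSubgroup (E × ZMod p))
    (ρ : ZMod p), FB G → ρ ≠ 0 → ∃ L : AddSubgroup ((E × E) × ZMod p), FB L ∧
      (∀ l, (PP L l).card = rr (PP G l) ρ) ∧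
      ∀ l : ℝ, (∀ x : E, (x, (0 : ZMod p)) ∈ G → ‖x‖ ≤ 2 * l → x = 0) →
        ∀ x : E × E, (x, (0 : ZMod p)) ∈ L → ‖x‖ ≤ 2 * l → x = 0)

/-- T2 (large intersections come from common large Fourier coefficients).  Proof: `μ` = distribution
of `x_1 + ⋯ + x_K`, `x_i` uniform in `U`, is `≥ |V|^(K-1) / |U|^K` on `S`.
`∑_y μ(y) μ(ρ y) = (1/p) ∑_t μ^(t) μ^(-t/ρ)`, `|μ^| = (|U^| / |U|)^K`.  The term `t = 0` is `1/p`.
If for no `t ≠ 0` both `p |U^(t)|^K ≥ |U|^K` and the same for `t/ρ`, the other terms give at most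
`1/p`, so `p rr(S,ρ) |V|^(2K-2) ≤ 2 |U|^(2K)`.  So `ρ` is a ratio of two elements of
`Spec = {t ≠ 0 : p |U^(t)|^K ≥ |U|^K}`, and `#Spec ≤ p^(1+2/K) / |U|` by Parseval. -/
def T2_stmt : Prop := ∀ (p : ℕ) [Fact p.Prime] (K : ℕ), 0 < K → ∀ S U V : Finset (ZMod p),
  U.Nonempty → V ⊆ U →
  (∀ y ∈ S, ∀ x : Fin (K - 1) → ZMod p, (∀ i, x i ∈ V) → y - ∑ i, x i ∈ U) →
    (((Finset.univ : Finset (ZMod p)).filter fun ρ => ρ ≠ 0 ∧
      2 * (U.card : ℝ) ^ (2 * K) < (p : ℝ) * (rr S ρ : ℝ) * (V.card : ℝ) ^ (2 * K - 2)).card : ℝ) ≤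
      ((p : ℝ) ^ (1 + 2 / (K : ℝ)) / (U.card : ℝ)) ^ 2

/-- SUB (restriction to a subspace).  `G' = {(w, y) ∈ W × ZMod p : (w, y) ∈ G}`. -/
def SUB_stmt : Prop := ∀ (p : ℕ) [Fact p.Prime] (E : Type) [NormedAddCommGroup E]
  [NormedSpace ℝ E] [FiniteDimensional ℝ E] (G : AddSubgroup (E × ZMod p)) (d : ℕ) (l : ℝ)
  (W : Submodule ℝ E), FB G → finrank ℝ E ≤ d + 1 → W ≠ ⊤ → (∀ z ∈ ball G l, z.1 ∈ W) →
    ∃ P' : ℝ → Finset (ZMod p), IsSys p d P' ∧ P' l = PP G l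

/-- QUO (quotient by the span `W` of the short vectors `x` with `(x, 0) ∈ G`, `‖x‖ ≤ 2 l`).
`G'` = image of `G` in `(E ⧸ W) × ZMod p` (quotient norm; `W` is closed, finite dimensional).
If `(x', y) ∈ G'`, `‖x'‖ ≤ R`, take `(x, y) ∈ G` over it and `x₀` over `x'` with `‖x₀‖ < R + l`;
`x - x₀ ∈ W` is a real combination of at most `d + 1` short vectors; subtracting the rounded
combination gives `(x₂, y) ∈ G` over it with `‖x₂‖ ≤ R + l + (d + 1) l`.  So the balls of `G'` are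
finite and `P' l ⊆ PP G ((d + 3) l)`. -/
def QUO_stmt : Prop := ∀ (p : ℕ) [Fact p.Prime] (E : Type) [NormedAddCommGroup E]
  [NormedSpace ℝ E] [FiniteDimensional ℝ E] (G : AddSubgroup (E × ZMod p)) (d : ℕ) (l : ℝ) (x : E),
  FB G → finrank ℝ E ≤ d + 1 → 0 < l → x ≠ 0 → (x, (0 : ZMod p)) ∈ G → ‖x‖ ≤ 2 * l →
    ∃ P' : ℝ → Finset (ZMod p), IsSys p d P' ∧ PP G l ⊆ P' l ∧ P' l ⊆ PP G (((d : ℝ) + 3) * l)

/-- CMP (comparison).  Uses PKC, GR, T1 (PR and LL).  `s` = dimension of the span of the first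
coordinates of `ball L l`, `L` the system of pairs.
If `s ≤ d`: the first alternative.  `rr(l) = #PP L l ≤ (1+2l/a)^s rr(a) ≤ (3l/a)^d rr(a)` (PKC(2) for
`L`), and `#PP G l = #ball G l ≥ (l/(2(d+3)a))^d #ball G a` (GR for `G` at `a` with
`R + (1+d/2) a = l` if `(1+d/2) a ≤ l/2`; otherwise `l/a < d + 2` and it is trivial).
If `s ≥ d + 1`: the second.  `#PP G b ≤ (3b/l)^d #PP G l` (PKC(2)), and `rr(b) = #ball L b ≥
(b/(2(s+3)l))^s #ball L l` (GR for `L` at `l`; trivial if `b/l < s + 2`), `s ≤ 2d`. -/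
def CMP_stmt : Prop := ∀ (p : ℕ) [Fact p.Prime] (E : Type) [NormedAddCommGroup E]
  [NormedSpace ℝ E] [FiniteDimensional ℝ E] (d : ℕ) (G : AddSubgroup (E × ZMod p)) (l : ℝ)
  (ρ : ZMod p), FB G → finrank ℝ E = d → 0 < l →
  (∀ x : E, (x, (0 : ZMod p)) ∈ G → ‖x‖ ≤ 2 * l → x = 0) → ρ ≠ 0 →
  (∀ a : ℝ, 0 < a → a ≤ l → Submodule.span ℝ (Prod.fst '' ball G a) = ⊤ →
      ((PP G a).card : ℝ) * (rr (PP G l) ρ : ℝ) ≤
        (6 * ((d : ℝ) + 3)) ^ d * ((rr (PP G a) ρ : ℝ) * ((PP G l).card : ℝ))) ∨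
  (∀ b : ℝ, l ≤ b → (∀ x : E, (x, (0 : ZMod p)) ∈ G → ‖x‖ ≤ 2 * b → x = 0) →
      ((PP G b).card : ℝ) * (rr (PP G l) ρ : ℝ) ≤
        (3 ^ d * (4 * (d : ℝ) + 6) ^ (2 * d)) * ((rr (PP G b) ρ : ℝ) * ((PP G l).card : ℝ)))

/-- the bound of the level set theorem, in dimension `d`, with constant `C` -/
def LV (d K : ℕ) (C : ℝ) : Prop := ∀ (p : ℕ) [Fact p.Prime]
    (P : ℝ → Finset (ZMod p)), IsSys p d P → ∀ l : ℝ, 0 < l → ∀ M : ℝ, 0 < M →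
      (((Lam C (P l)).filter fun ρ => M ≤ (rr (P l) ρ : ℝ)).card : ℝ) ≤
        C * (p : ℝ) ^ (4 / (K : ℝ)) * (((P l).card : ℝ) / M) ^ 2

/-- the first alternative of CMP -/
def Alt1 (p : ℕ) [Fact p.Prime] {E : Type} [NormedAddCommGroup E] [NormedSpace ℝ E]
    (G : AddSubgroup (E × ZMod p)) (l : ℝ) (d : ℕ) (ρ : ZMod p) : Prop :=
  ∀ a : ℝ, 0 < a → a ≤ l → Submodule.span ℝ (Prod.fst '' ball G a) = ⊤ →
      ((PP G a).card : ℝ) * (rr (PP G l) ρ : ℝ) ≤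
        (6 * ((d : ℝ) + 3)) ^ d * ((rr (PP G a) ρ : ℝ) * ((PP G l).card : ℝ))

/-- the second alternative of CMP -/
def Alt2 (p : ℕ) [Fact p.Prime] {E : Type} [NormedAddCommGroup E] [NormedSpace ℝ E]
    (G : AddSubgroup (E × ZMod p)) (l : ℝ) (d : ℕ) (ρ : ZMod p) : Prop :=
  ∀ b : ℝ, l ≤ b → (∀ x : E, (x, (0 : ZMod p)) ∈ G → ‖x‖ ≤ 2 * b → x = 0) →
      ((PP G b).card : ℝ) * (rr (PP G l) ρ : ℝ) ≤
        (3 ^ d * (4 * (d : ℝ) + 6) ^ (2 * d)) * ((rr (PP G b) ρ : ℝ) * ((PP G l).card : ℝ))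

/-- LV1 (level sets, small scales).  Uses SUB, T1 (parts 1 and 3), PKC.
`D = d + 1`.  Put `a i = 2^(-i) l`, `f i = #PP G (a i)`, `rr i = rr (PP G (a i)) ρ`, `f = f 0`,
`c2 = (6 (D+3))^D`, `c3 = 25^D c2`.  `J` = last `j` such that `ball G (a i)` spans for all `i ≤ j`
(it exists: `ball G l` is finite, so for large `j` the first coordinates of `ball G (a j)` are `0`,
and `D ≥ 1`).  `rr i ≤ 25^D rr (i+1)` (PKC (3) for the system of pairs of T1, of dimension `2 D`; its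
images have cardinality `rr`).  Let `ρ` be in the set.
Case 1: `rr (J+1) ≥ 2`.  SUB at the scale `a (J+1)` (not spanning, `W` = the span) gives a system `P'`
of dimension `≤ d` with `P' (a (J+1)) = PP G (a (J+1))`.  `rr (J+1) ≥ rr J / 25^D ≥
f (J+1) rr(l) / (c3 f)`, so `rr (J+1) ≥ M f (J+1) / (c3 f)` and `p rr (J+1) ≥ (C/c3) f (J+1)^2`.  So
by `LV d K C'` the number of these `ρ` is `≤ C' p^(4/K) (c3 f / M)^2`, if `C ≥ C' c3`.
Case 2: `rr (J+1) ≤ 1`.  Let `i ≤ J` be maximal with `rr i ≥ 2` (`rr 0 ≥ 2`).  `rr i ≤ 25^D rr (i+1)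
≤ 25^D`, so `f i ≤ c3 f / M`.  Let `i0` be the smallest index with `f i0 ≤ c3 f / M`; so `i0 ≤ i` and
`rr i0 ≥ rr i ≥ 2`: by T1 (1) the number of these `ρ` is `≤ (f i0)^2 ≤ (c3 f / M)^2`. -/
def LV1_stmt : Prop := ∀ (d K : ℕ) (C' : ℝ), 0 < K → 1 ≤ C' → LV d K C' →
    ∃ C₀ : ℝ, 1 ≤ C₀ ∧ ∀ C : ℝ, C₀ ≤ C → ∀ (p : ℕ) [Fact p.Prime] (E : Type)
      [NormedAddCommGroup E] [NormedSpace ℝ E] [FiniteDimensional ℝ E]
      (G : AddSubgroup (E × ZMod p)) (l : ℝ), FB G → finrank ℝ E = d + 1 → 0 < l →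
      Submodule.span ℝ (Prod.fst '' ball G l) = ⊤ →
      (∀ x : E, (x, (0 : ZMod p)) ∈ G → ‖x‖ ≤ 2 * l → x = 0) → ∀ M : ℝ, 0 < M →
      ∀ S : Finset (ZMod p), (∀ ρ ∈ S, ρ ∈ Lam C (PP G l) ∧ M ≤ (rr (PP G l) ρ : ℝ) ∧
        Alt1 p G l (d + 1) ρ) →
        (S.card : ℝ) ≤ C₀ * (p : ℝ) ^ (4 / (K : ℝ)) * (((PP G l).card : ℝ) / M) ^ 2

/-- LV2 (level sets, large scales).  Uses QUO, T2, PKC.
`D = d + 1`.  Put `b i = 2^i l`, `f i = #PP G (b i)`, `rr i = rr (PP G (b i)) ρ`, `f = f 0`,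
`c4 = 3^D (4D+6)^(2D)`, `c5 = (1 + 4 (d+3))^D` , `C2 = max (3 * 25^D (4K+1)^(2 D K)) (C' c5^2)`.
T2 at a scale `b`: `S = PP G b`, `V = PP G (b/K)`, `U = PP G (2b)`, `|U| ≤ (4K+1)^D |V|`,
`|U| ≤ 5^D |S|` (PKC): `#{ρ ≠ 0 : p rr (PP G b) ρ ≥ C2 |S|^2} ≤ p^(4/K) (p / |S|)^2`.
`J` = last `j` such that `G` is proper at `b i` for all `i ≤ j` (it exists: some `(x, y) ∈ G` has
`x ≠ 0`, as `D ≥ 1` and `ball G l` spans; then `(p x, 0) ∈ G`).
Case 1: `p rr j ≥ C2 (f j)^2` for all `j ≤ J`.  QUO at `b (J+1)` (not proper): `P'` of dimension `≤ d`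
with `PP G (b (J+1)) ⊆ P' (b (J+1)) ⊆ PP G ((d+3) b (J+1))`, so `f' = #P' (b (J+1)) ≤ c5 f J`, and
`rr' ≥ rr J ≥ f J rr(l) / (c4 f) ≥ f' M / (c4 c5 f)`, `p rr' ≥ p rr J ≥ C2 (f J)^2 ≥ C' f'^2`.
So by `LV d K C'` the number of these `ρ` is `≤ C' p^(4/K) (c4 c5 f / M)^2`.
Case 2: otherwise let `j ≤ J` be the first index with `p rr j < C2 (f j)^2`; `j ≥ 1` (if `C ≥ C2`);
`i = j - 1`.  `p f j rr(l) / (c4 f) ≤ p rr j < C2 (f j)^2`, so `p M < C2 c4 f (f j) ≤ c6 f (f i)`,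
`c6 = C2 c4 5^D`.  Let `i0` be the smallest index with `p M ≤ c6 f (f i0)`; `i0 ≤ i < j`, so
`p rr i0 ≥ C2 (f i0)^2`.  By T2 at the scale `b i0` the number of these `ρ` is
`≤ p^(4/K) (p / f i0)^2 ≤ p^(4/K) (c6 f / M)^2`. -/
def LV2_stmt : Prop := ∀ (d K : ℕ) (C' : ℝ), 0 < K → 1 ≤ C' → LV d K C' →
    ∃ C₀ : ℝ, 1 ≤ C₀ ∧ ∀ C : ℝ, C₀ ≤ C → ∀ (p : ℕ) [Fact p.Prime] (E : Type)
      [NormedAddCommGroup E] [NormedSpace ℝ E] [FiniteDimensional ℝ E]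
      (G : AddSubgroup (E × ZMod p)) (l : ℝ), FB G → finrank ℝ E = d + 1 → 0 < l →
      Submodule.span ℝ (Prod.fst '' ball G l) = ⊤ →
      (∀ x : E, (x, (0 : ZMod p)) ∈ G → ‖x‖ ≤ 2 * l → x = 0) → ∀ M : ℝ, 0 < M →
      ∀ S : Finset (ZMod p), (∀ ρ ∈ S, ρ ∈ Lam C (PP G l) ∧ M ≤ (rr (PP G l) ρ : ℝ) ∧
        Alt2 p G l (d + 1) ρ) →
        (S.card : ℝ) ≤ C₀ * (p : ℝ) ^ (4 / (K : ℝ)) * (((PP G l).card : ℝ) / M) ^ 2

/-- LEV (the level set theorem).  Uses PKC, SUB, QUO, CMP, LV1, LV2.  Induction on `d`.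
`d = 0`: `E` is trivial, `PP G l` is the image of the subgroup `G` in `ZMod p`, so it is `{0}` or
everything, and `Lam 2` of it is empty.
`d + 1` (constant `C'` for `d`): if `finrank E ≤ d` use `C'`.  Otherwise `finrank E = d + 1`.
If `ball G l` does not span: SUB.  If `G` is not proper at `l`: QUO gives `P'` with
`PP G l ⊆ P' l ⊆ PP G ((d+3) l)`, `#P' l ≤ c1 #PP G l`, `c1 = (1 + 2 (d+3))^(d+1)`, and
`Lam C (PP G l) ⊆ Lam C' (P' l)` if `C ≥ C' c1^2` (note `rr` is monotone in the set).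
Otherwise CMP: every `ρ` of the set satisfies Alt1 or Alt2; add LV1 and LV2.
(Monotonicity: `LV d K C'` and `C' ≤ C` give `LV d K C`.) -/
def LEV_stmt : Prop := ∀ d K : ℕ, 0 < K → ∃ C : ℝ, 1 ≤ C ∧ LV d K C

end Pool.Agent.helper85.PG
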