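import Mathlib
import Pool.Agent.helper85.PG.Spec
import Pool.Agent.helper82.Weil.R
import Pool.Agent.helper46.PY.D

/-!
# Small doubling and the Paley graph conjecture: statements of part 2 (energies, character sums)

Paper: `/team-store/PG_paper_helper85.md`.  For every `X_stmt` below a module proves
`theorem X : X_stmt` (with the statements named in the docstring as hypotheses, if it needs them) in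
`Pool/Agent/<seat>/PG/X.lean`, namespace `Pool.Agent.helper85.PG`.
-/

set_option autoImplicit false

namespace Pool.Agent.helper85.PG

open Module Pointwise

/-! ## Energies -/

/-- INT (intersections and sums of systems).  On `E × E'` with the maximum norm:
`{((x, x'), y) : (x, y) ∈ G, (x', y) ∈ G'}` and `{((x, x'), y + y') : (x, y) ∈ G, (x', y') ∈ G'}`. -/
def INT_stmt : Prop := ∀ (p : ℕ) [Fact p.Prime] (d d' : ℕ) (P P' : ℝ → Finset (ZMod p)),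
  IsSys p d P → IsSys p d' P' →
    (IsSys p (d + d') fun R => P R ∩ P' R) ∧ IsSys p (d + d') fun R => P R + P' R

/-- LSM (sums over the large ratios).  Uses LEV with `4 / K < κ`: split `Lam C (P l)` into the
dyadic classes `2^i ≤ rr < 2^(i+1)`, `2^i ≤ p`; each contributes at most
`4 * 2^(2i) * C p^(4/K) (f / 2^i)^2`. -/
def LSM_stmt : Prop := ∀ (d : ℕ) (κ : ℝ), 0 < κ → ∃ (C : ℝ) (p₀ : ℕ), 1 ≤ C ∧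
  ∀ (p : ℕ) [Fact p.Prime], p₀ ≤ p → ∀ P : ℝ → Finset (ZMod p), IsSys p d P → ∀ l : ℝ, 0 < l →
    ∑ ρ ∈ Lam C (P l), (rr (P l) ρ : ℝ) ^ 2 ≤ (p : ℝ) ^ κ * ((P l).card : ℝ) ^ 2

/-- CNT (sums over quotients).  Elementary: for `ρ ≠ 0` and `0 ∈ S`,
`#{(x, x') : x, x' ∈ S \ 0, x / x' = ρ} = rr S ρ - 1`. -/
def CNT_stmt : Prop := ∀ (p : ℕ) [Fact p.Prime] (S : Finset (ZMod p)), (0 : ZMod p) ∈ S →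
  (∀ ρ : ZMod p, 1 ≤ rr S ρ) ∧
  (∀ F : ZMod p → ℝ, ∑ x ∈ S.erase 0, ∑ x' ∈ S.erase 0, F (x / x') =
    ∑ ρ ∈ Finset.univ.erase (0 : ZMod p), ((rr S ρ : ℝ) - 1) * F ρ) ∧
  ∑ ρ ∈ Finset.univ.erase (0 : ZMod p), ((rr S ρ : ℝ) - 1) = ((S.card : ℝ) - 1) ^ 2

/-- E1 (multiplicative energy of a system).  Uses LSM, CNT.  Write `x ρ = rr ρ - 1 ≥ 0`.  If
`ρ ∉ Lam C (P l)`, `ρ ≠ 0`, then `x ρ = 0` or `x ρ ≤ rr ρ < C f^2 / p`. -/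
def E1_stmt : Prop := ∀ (d : ℕ) (κ : ℝ), 0 < κ → ∃ p₀ : ℕ, ∀ (p : ℕ) [Fact p.Prime], p₀ ≤ p →
  ∀ P : ℝ → Finset (ZMod p), IsSys p d P → ∀ l : ℝ, 0 < l →
    ∑ ρ ∈ Finset.univ.erase (0 : ZMod p), ((rr (P l) ρ : ℝ) - 1) ^ 2 ≤
      (p : ℝ) ^ κ * (((P l).card : ℝ) ^ 2 + ((P l).card : ℝ) ^ 4 / p)

/-- E2 (mixed energy).  Uses LSM, CNT.  The sum is `∑_(ρ ≠ 0) x ρ * r ρ`, `x ρ = rr (P l) ρ - 1`,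
`r ρ = rr (P' l') ρ ≥ 1`; `f, f'` the cardinalities.
`ρ ∉ Lam C (P' l')`: `r ρ ≤ 1 + C f'^2 / p`, and `∑ x ρ ≤ f^2 ≤ f f'`.
`ρ ∈ Lam C (P l) ∩ Lam C (P' l')`: Cauchy-Schwarz and LSM.
`ρ ∈ Lam C (P' l')`, `ρ ∉ Lam C (P l)`: `x ρ ≤ C f^2 / p` and `∑ r ρ ≤ 2 ∑ (r ρ - 1) ≤ 2 f'^2`. -/
def E2_stmt : Prop := ∀ (d : ℕ) (κ : ℝ), 0 < κ → ∃ p₀ : ℕ, ∀ (p : ℕ) [Fact p.Prime], p₀ ≤ p →
  ∀ P P' : ℝ → Finset (ZMod p), IsSys p d P → IsSys p d P' → ∀ l l' : ℝ, 0 < l → 0 < l' →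
    (P l).card ≤ (P' l').card →
    ∑ x ∈ (P l).erase 0, ∑ x' ∈ (P l).erase 0, (rr (P' l') (x / x') : ℝ) ≤
      (p : ℝ) ^ κ * (((P l).card : ℝ) * ((P' l').card : ℝ) +
        ((P l).card : ℝ) ^ 2 * ((P' l').card : ℝ) ^ 2 / p)

/-- E3 (triple energy).  Uses LSM, CNT, E1.  The sum is `∑_(ρ ≠ 0) x ρ * q ρ * r ρ`,
`x ρ = rr (P l₁) ρ - 1`, `q ρ = rr (Q l₂) ρ`, `r ρ = rr (R l₃) ρ`; cardinalities `N1, N2, N3`.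
By E1 `∑ (x ρ)^2 ≤ p^κ (1+H) N1^2` and `∑ (q ρ - 1)^2 ≤ p^κ (1+H) N2^2`, so
`∑ x ρ q ρ ≤ p^κ (1+H) N1 N2 + N1^2`.  `ρ ∉ Lam C (R l₃)`: `r ρ ≤ 1 + C N3^2 / p`.
`ρ ∈ Lam C (R l₃)`: Cauchy-Schwarz, LSM for `R`, and `∑ (x ρ)^2 (q ρ)^2 ≤
∑ (x ρ)^2 (2 (q ρ - 1)^2 + 2) ≤ 4 (1+H) p^κ N1^2 N2^2` (with `x ρ ≤ N1`). -/
def E3_stmt : Prop := ∀ (d : ℕ) (κ H : ℝ), 0 < κ → 1 ≤ H → ∃ p₀ : ℕ, ∀ (p : ℕ) [Fact p.Prime],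
  p₀ ≤ p → ∀ P Q R : ℝ → Finset (ZMod p), IsSys p d P → IsSys p d Q → IsSys p d R →
  ∀ l₁ l₂ l₃ : ℝ, 0 < l₁ → 0 < l₂ → 0 < l₃ → ((P l₁).card : ℝ) ^ 2 ≤ H * p →
    ((Q l₂).card : ℝ) ^ 2 ≤ H * p →
    ∑ x ∈ (P l₁).erase 0, ∑ x' ∈ (P l₁).erase 0,
      (rr (Q l₂) (x / x') : ℝ) * (rr (R l₃) (x / x') : ℝ) ≤
      (p : ℝ) ^ κ * (((R l₃).card : ℝ) * ((P l₁).card : ℝ) * ((Q l₂).card : ℝ) +
        (1 + ((R l₃).card : ℝ) ^ 2 / p) *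
          (((P l₁).card : ℝ) ^ 2 + ((P l₁).card : ℝ) * ((Q l₂).card : ℝ)))

/-! ## Theorem A -/

/-- THA (Theorem A for systems).  Uses PKC, E2, and `energy_bound`
(`Pool/Agent/helper82/Weil/Q.lean`), `asymp_three` (`.../Weil/R.lean`), `Basic.lean`.
Let `f = #P 1`, `η = p^(-τ)`, `τ` small in terms of `d, ε`.  `energy_bound` with its `P` =
`a₀ + P 2`, `M = (P (η^2)).erase 0`, `T` = the classes of `1, …, ⌊2 p^τ⌋`.  Its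
`P - P` is contained in `P 4`, and `mulEnergy M (P 4) = ∑_(m, m' ∈ M) #{(x, x') ∈ (P 4)^2 : m x = m' x'}
≤ ∑_(m, m' ∈ M) rr (P 4) (m / m')` (E2).  By PKC `f ≤ (3 p^(2τ))^d #P (η^2)`, `#P 4 ≤ 9^d f`.
`addEnergy B B ≤ |B|^3 ≤ p^(-ε) |B|^4`, and `addEnergy B B ≥ |B|^4 / p`, so `|A|^2 ≥ p^ε` and
`#P (η^2) ≥ 2`.  So `mulEnergy M (P - P) * addEnergy B B * p^(1+ε') ≤ (|M| f |B|^2)^2` with
`ε' < τ`, for `p` large; `asymp_three` for `ε'` (its `δ` twice ours, `#P 2 ≤ 5^d #P 1`), then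
Cauchy-Schwarz over `A`. -/
def THA_stmt : Prop := ∀ (d : ℕ) (ε : ℝ), 0 < ε → ∃ (δ : ℝ) (p₀ : ℕ), 0 < δ ∧
  ∀ (p : ℕ) [Fact p.Prime], p₀ ≤ p → ∀ P : ℝ → Finset (ZMod p), IsSys p d P →
  ∀ (a₀ : ZMod p) (A B : Finset (ZMod p)), (∀ a ∈ A, a - a₀ ∈ P 1) →
    ((P 1).card : ℝ) ≤ (p : ℝ) ^ δ * (A.card : ℝ) → (p : ℝ) ^ ε ≤ (B.card : ℝ) →
    (p : ℝ) ^ (1 + ε) * (B.addEnergy B : ℝ) ≤ (A.card : ℝ) ^ 2 * (B.card : ℝ) ^ 4 →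
    ∀ χ : MulChar (ZMod p) ℂ, χ ≠ 1 → ∀ β : ZMod p → ℂ, (∀ b, ‖β b‖ ≤ 1) →
      ∑ a ∈ A, ‖∑ b ∈ B, β b * χ (a + b)‖ ≤ (p : ℝ) ^ (-δ) * ((A.card : ℝ) * (B.card : ℝ))

/-! ## Theorem B: tools -/

/-- CVR (Ruzsa covering with disjointness): a maximal subset `X` of `A` such that the sets `x + V`,
`x ∈ X`, are disjoint. -/
def CVR_stmt : Prop := ∀ (p : ℕ) [Fact p.Prime] (A V : Finset (ZMod p)), V.Nonempty →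
  ∃ X : Finset (ZMod p), X ⊆ A ∧
    (∀ x ∈ X, ∀ x' ∈ X, ∀ v ∈ V, ∀ v' ∈ V, x + v = x' + v' → x = x') ∧
    (∀ a ∈ A, ∃ x ∈ X, ∃ v ∈ V, ∃ v' ∈ V, a + v = x + v') ∧ X.card * V.card ≤ (A + V).card

/-- WBI (bilinear forms with kernel `g (a + b)`): `g (a + b) = (1/p) ∑_ψ (∑_c g c ψ c) ψ (-(a + b))`,
Cauchy-Schwarz and Parseval over the additive characters. -/
def WBI_stmt : Prop := ∀ (p : ℕ) [Fact p.Prime] (A B : Finset (ZMod p)) (α β g : ZMod p → ℂ)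
  (W : ℝ), (∀ a, ‖α a‖ ≤ 1) → (∀ b, ‖β b‖ ≤ 1) →
    (∀ ψ : AddChar (ZMod p) ℂ, ‖∑ c : ZMod p, g c * ψ c‖ ≤ W) →
    ‖∑ a ∈ A, ∑ b ∈ B, α a * β b * g (a + b)‖ ≤
      W * (Real.sqrt (A.card : ℝ) * Real.sqrt (B.card : ℝ))

/-- REG (regular weights).  `w` = average of the indicator functions of `Z (1/4 + j η)`,
`1 ≤ j ≤ J`, `J = ⌊1/(2 η)⌋`.  For `h ∈ Z η` both `Z r` and `Z r - h` contain `Z (r - η)` and are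
contained in `Z (r + η)`; the sum over `j` telescopes (`≤ 2 #Z 1`, `J ≥ 1 / (4 η)`). -/
def REG_stmt : Prop := ∀ (p : ℕ) [Fact p.Prime] (d : ℕ) (Z : ℝ → Finset (ZMod p)), IsSys p d Z →
  ∀ η : ℝ, 0 < η → η ≤ 1 / 8 → ∃ w : ZMod p → ℝ, (∀ c, 0 ≤ w c ∧ w c ≤ 1) ∧
    (∀ c ∈ Z (1 / 4), w c = 1) ∧ (∀ c, w c ≠ 0 → c ∈ Z 1) ∧
    ∀ h ∈ Z η, ∑ c : ZMod p, |w (c + h) - w c| ≤ 16 * η * ((Z 1).card : ℝ)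

/-- TMO (twisted moments).  Repeat the proof of `moment_one` (`Pool/Agent/helper82/Weil/M.lean`)
with coefficients `c` (`ZZ`, `sum_ZZ_pow` are there); or put the coefficients outside. -/
def TMO_stmt : Prop := ∀ (p : ℕ) [Fact p.Prime] (χ : MulChar (ZMod p) ℂ), χ ≠ 1 →
  ∀ (k : ℕ) (A : Finset (ZMod p)) (c : ZMod p → ℂ), (∀ a, ‖c a‖ ≤ 1) →
    ∑ u : ZMod p, ‖∑ a ∈ A, c a * χ (a + u)‖ ^ (2 * k) ≤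
      (k : ℝ) ^ (2 * k) * (A.card : ℝ) ^ k * (p : ℝ) +
        (A.card : ℝ) ^ (2 * k) * (2 * k * Real.sqrt (p : ℝ))

/-- SUP (the supremum over the twists).  Uses TMO.  `N = 4 T^2`; for `‖z‖ = 1` some `N`-th root of
unity `ζ` has `‖z - ζ‖ ≤ 2 π / N`, and `‖∑ χ (u + y) (z^y - ζ^y)‖ ≤ T^2 ‖z - ζ‖ ≤ 2`.
`Ψ u = 2 + max_ζ ‖∑_(y ≤ T) χ (u + y) ζ^y‖`,
`(Ψ u)^(2k) ≤ 4^k (2^(2k) + ∑_ζ ‖…‖^(2k))` (use `(a+b)^(2k) ≤ 2^(2k) (a^(2k) + b^(2k))`). -/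
def SUP_stmt : Prop := ∀ k : ℕ, 0 < k → ∃ C : ℝ, 1 ≤ C ∧ ∀ (p : ℕ) [Fact p.Prime]
  (χ : MulChar (ZMod p) ℂ), χ ≠ 1 → ∀ T : ℕ, 0 < T → T < p → ∃ Ψ : ZMod p → ℝ,
    (∀ u, 0 ≤ Ψ u) ∧
    (∀ (u : ZMod p) (z : ℂ), ‖z‖ = 1 →
      ‖∑ y ∈ Finset.Icc 1 T, χ (u + (y : ZMod p)) * z ^ y‖ ≤ Ψ u) ∧
    ∑ u : ZMod p, Ψ u ^ (2 * k) ≤
      C * (T : ℝ) ^ 2 * ((T : ℝ) ^ k * (p : ℝ) + (T : ℝ) ^ (2 * k) * Real.sqrt (p : ℝ))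

/-- BSH (Burgess shift).  For `x ∈ X`, `y ≤ T`: `x y ∈ Z η`; replace `c` by `c + x y`:
`∑_c w c χ(c+s) ψ c = ∑_c w (c + x y) χ (c + x y + s) ψ c ψ(x)^y`, the error of replacing
`w (c + x y)` by `w c` is `≤ 16 η #Z 1`.  Average over `y ≤ T` and `x ∈ X`;
`χ (c + x y + s) = χ x χ ((c + s)/x + y)`, `‖ψ x‖ = 1`. -/
def BSH_stmt : Prop := ∀ (p : ℕ) [Fact p.Prime] (Z : ℝ → Finset (ZMod p)) (w : ZMod p → ℝ)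
  (η : ℝ) (X : Finset (ZMod p)) (T : ℕ) (χ : MulChar (ZMod p) ℂ) (Ψ : ZMod p → ℝ) (s : ZMod p)
  (ψ : AddChar (ZMod p) ℂ), (∀ c, 0 ≤ w c ∧ w c ≤ 1) → (∀ c, w c ≠ 0 → c ∈ Z 1) →
    (∀ h ∈ Z η, ∑ c : ZMod p, |w (c + h) - w c| ≤ 16 * η * ((Z 1).card : ℝ)) →
    X.Nonempty → (0 : ZMod p) ∉ X → 0 < T →
    (∀ x ∈ X, ∀ y ∈ Finset.Icc 1 T, (y : ZMod p) * x ∈ Z η) →
    (∀ (u : ZMod p) (z : ℂ), ‖z‖ = 1 →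
      ‖∑ y ∈ Finset.Icc 1 T, χ (u + (y : ZMod p)) * z ^ y‖ ≤ Ψ u) →
    ‖∑ c : ZMod p, ((w c : ℂ) * χ (c + s)) * ψ c‖ ≤
      (∑ x ∈ X, ∑ c ∈ Z 1, Ψ ((c + s) / x)) / ((X.card : ℝ) * (T : ℝ)) +
        16 * η * ((Z 1).card : ℝ)

/-! ## Theorem B: large intersection -/

/-- CAI (case a, the inequality before Hölder).  Uses PKC, INT, CVR, WBI, REG, BSH.
`Z l = P l ∩ Q l`, a system of dimension `2 d`.  CVR with `A = P 1`, `V = Z (1/16)` gives `x_i ∈ P 1`,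
`#I #Z(1/16) ≤ #P(17/16)`, every `a ∈ P 1` is in some `x_i + Z (1/8)`; the same for `Q` (`y_j`).
Split the double sum (choose one `i` for every `a`, one `j` for every `b`); with `a = x_i + a'`,
`b = y_j + b'`, `a', b' ∈ Z (1/8)`, `g c = w c χ (c + s + x_i + y_j)`, `w = 1` on `Z (1/4)` (REG for
`η`), WBI and BSH: the `(i, j)` part is at most `#Z(1/8) * (…)`.
Sum over `i, j`: for fixed `x` the number of `(i, j, c)` with `x_i + y_j + c = v` is at most a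
constant `C(d)`: `x_i - x_i' ∈ P 2 ∩ (Q 2 + Z 2) ⊆ Z 4`, and the sets `x_i + Z (1/16)` are disjoint,
contained in `x_i0 + Z 5`; so there are at most `#Z 5 / #Z (1/16) ≤ 161^(2 d)` values of `i`, the same
for `j`.  And `v ∈ P 1 + Q 1 + Z 1 ⊆ P 3 + Q 3`.  `#I #J η #Z(1)^2 ≤ C(d) η #P 1 #Q 1`. -/
def CAI_stmt : Prop := ∀ d : ℕ, ∃ C : ℝ, 1 ≤ C ∧ ∀ (p : ℕ) [Fact p.Prime]
  (P Q : ℝ → Finset (ZMod p)), IsSys p d P → IsSys p d Q → ∀ η : ℝ, 0 < η → η ≤ 1 / 8 →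
  ∀ (X : Finset (ZMod p)) (T : ℕ), X.Nonempty → (0 : ZMod p) ∉ X → 0 < T →
    (∀ x ∈ X, ∀ y ∈ Finset.Icc 1 T, (y : ZMod p) * x ∈ P η ∩ Q η) →
  ∀ (χ : MulChar (ZMod p) ℂ) (Ψ : ZMod p → ℝ), (∀ u, 0 ≤ Ψ u) →
    (∀ (u : ZMod p) (z : ℂ), ‖z‖ = 1 →
      ‖∑ y ∈ Finset.Icc 1 T, χ (u + (y : ZMod p)) * z ^ y‖ ≤ Ψ u) →
  ∀ (s : ZMod p) (α β : ZMod p → ℂ), (∀ a, ‖α a‖ ≤ 1) → (∀ b, ‖β b‖ ≤ 1) →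
    ‖∑ a ∈ P 1, ∑ b ∈ Q 1, α a * β b * χ (a + b + s)‖ ≤
      C * (((P 1 ∩ Q 1).card : ℝ) / ((X.card : ℝ) * (T : ℝ)) *
        (∑ x ∈ X, ∑ v ∈ P 3 + Q 3, Ψ ((v + s) / x)) + η * ((P 1).card : ℝ) * ((Q 1).card : ℝ))

/-- RSZ (sizes of `R l = P l + Q l`, `Z l = P l ∩ Q l`).  Uses PKC, INT.
Every `r ∈ P 6 + Q 6` is `(x + z) + (y - z)`, `z ∈ Z 1`: `#R 6 * #Z 1 ≤ #P 7 * #Q 7`.
For every `v` the pairs `(a, b) ∈ P 1 × Q 1` with `a + b = v` have `a - a' ∈ Z 2`: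
`#P 1 * #Q 1 ≤ #R 1 * #Z 2`. -/
def RSZ_stmt : Prop := ∀ d : ℕ, ∃ C : ℝ, 1 ≤ C ∧ ∀ (p : ℕ) [Fact p.Prime]
  (P Q : ℝ → Finset (ZMod p)), IsSys p d P → IsSys p d Q →
    ((P 6 + Q 6).card : ℝ) * ((P 1 ∩ Q 1).card : ℝ) ≤ C * (((P 1).card : ℝ) * ((Q 1).card : ℝ)) ∧
    ((P 1).card : ℝ) * ((Q 1).card : ℝ) ≤
      C * (((P 1 + Q 1).card : ℝ) * ((P 1 ∩ Q 1).card : ℝ))

/-- CAH (case a, Hölder).  Uses E2, INT, `holder_collision` (`Pool/Agent/helper82/Weil/N.lean`).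
`X = (P μ ∩ Q μ).erase 0`, `R l = P l + Q l`.  Collisions of `(x, v) ↦ (v + s) / x`, `v ∈ R 3`:
for `x, x' ∈ X` the pairs `(v, v')` with `(v + s) = (x / x') (v' + s)` have
`v - v_0 = (x/x') (v' - v'_0)`, differences in `R 6`: at most `rr (R 6) (x / x')`.  E2 with
`P l = P μ ∩ Q μ` (dimension `2 d`), `P' l' = R 6`. -/
def CAH_stmt : Prop := ∀ (d : ℕ) (κ : ℝ), 0 < κ → ∃ p₀ : ℕ, ∀ (p : ℕ) [Fact p.Prime], p₀ ≤ p →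
  ∀ P Q : ℝ → Finset (ZMod p), IsSys p d P → IsSys p d Q → ∀ μ : ℝ, 0 < μ → μ ≤ 1 →
  ∀ (Ψ : ZMod p → ℝ), (∀ u, 0 ≤ Ψ u) → ∀ (s : ZMod p) (k : ℕ), 0 < k →
    (∑ x ∈ (P μ ∩ Q μ).erase 0, ∑ v ∈ P 3 + Q 3, Ψ ((v + s) / x)) ^ (2 * k) ≤
      ((P μ ∩ Q μ).card * ((P 6 + Q 6).card : ℝ)) ^ (2 * k - 2) *
        ((p : ℝ) ^ κ * (((P μ ∩ Q μ).card : ℝ) * ((P 6 + Q 6).card : ℝ) +
          ((P μ ∩ Q μ).card : ℝ) ^ 2 * ((P 6 + Q 6).card : ℝ) ^ 2 / p)) *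
        ∑ u : ZMod p, Ψ u ^ (2 * k)

/-- CA (case a).  Uses PKC, INT, SUP, CAI, RSZ, CAH.  `D = #(P 1 ∩ Q 1) ≥ p^ε₁`.  Take `τ` small,
`μ = p^(-2τ)`, `T = ⌊p^τ⌋` (so `y x ∈ P (p^(-τ)) ∩ Q (p^(-τ))` by `nat_mul_mem`), `η = p^(-τ)`,
`X = (P μ ∩ Q μ).erase 0`: `#(P μ ∩ Q μ) ≥ (3 p^(2τ))^(-2d) D ≥ 2`, so `|X| ≥ #(P μ ∩ Q μ) / 2`.
With `R = #(P 6 + Q 6)`, `N1, N2`, `D` : `R D ≤ C N1 N2`, `R D ≥ N1 N2 / C`, so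
`|X| R ≥ p^(-O(τ)) N1 N2 ≥ p^(1/2 + ε - O(τ))`.  CAH and SUP with `k ≥ 2/τ` (`T^k ≥ p` up to a
constant power of 2): `(∑∑Ψ)^(2k) ≤ (|X| R)^(2k) p^(κ + O(τ)) T^(2k) (p^(1/2) / (|X| R) + p^(-1/2))`. -/
def CA_stmt : Prop := ∀ (d : ℕ) (ε ε₁ : ℝ), 0 < ε → 0 < ε₁ → ∃ (δ : ℝ) (p₀ : ℕ), 0 < δ ∧
  ∀ (p : ℕ) [Fact p.Prime], p₀ ≤ p → ∀ P Q : ℝ → Finset (ZMod p), IsSys p d P → IsSys p d Q →
    (p : ℝ) ^ (1 / 2 + ε) ≤ ((P 1).card : ℝ) * ((Q 1).card : ℝ) →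
    (p : ℝ) ^ ε₁ ≤ ((P 1 ∩ Q 1).card : ℝ) →
    ∀ χ : MulChar (ZMod p) ℂ, χ ≠ 1 → ∀ (s : ZMod p) (α β : ZMod p → ℂ), (∀ a, ‖α a‖ ≤ 1) →
    (∀ b, ‖β b‖ ≤ 1) → ‖∑ a ∈ P 1, ∑ b ∈ Q 1, α a * β b * χ (a + b + s)‖ ≤
      (p : ℝ) ^ (-δ) * (((P 1).card : ℝ) * ((Q 1).card : ℝ))

/-! ## Theorem B: small intersection -/

/-- COL (collisions in case b).  `cnt` and `collisions_eq` are in `Pool/Agent/helper46/PY/{C,D}.lean`.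
For `m, m' ∈ M`, `ρ = m / m'`, count `(x, b₁, b₂, x', b₁', b₂')` with `x + b_i = ρ (x' + b_i')`:
the pairs `(u, u') = (x + b₁, x' + b₁')` have `u = ρ u'`, differences in `R`: at most `rr R ρ` pairs;
given `u` there are at most `#Z` pairs `(x, b₁)`, given `u'` at most `#Z` pairs `(x', b₁')`; then
`b₂ = ρ b₂' + const`: at most `rr Q ρ` pairs `(b₂, b₂')`. -/
def COL_stmt : Prop := ∀ (p : ℕ) [Fact p.Prime] (M : Finset (ZMod p)ˣ)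
  (P B Z Q R : Finset (ZMod p)), (∀ x ∈ P, ∀ x' ∈ P, ∀ b ∈ B, ∀ b' ∈ B, x + b = x' + b' → x - x' ∈ Z) →
    (∀ b ∈ B, ∀ b' ∈ B, b - b' ∈ Q) →
    (∀ x ∈ P, ∀ x' ∈ P, ∀ b ∈ B, ∀ b' ∈ B, (x + b) - (x' + b') ∈ R) →
    ∑ z : ZMod p × ZMod p, (∑ t ∈ M, (Pool.Agent.helper46.PY.cnt P B (t • z) : ℝ)) ^ 2 ≤
      (Z.card : ℝ) ^ 2 * ∑ m ∈ M, ∑ m' ∈ M,
        (rr Q ((m : ZMod p) / (m' : ZMod p)) : ℝ) * (rr R ((m : ZMod p) / (m' : ZMod p)) : ℝ)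

/-- CB (case b).  Uses PKC, INT, E3, RSZ, COL, `pair_bound` (`Pool/Agent/helper46/PY/D.lean`),
`asymp_three` (`Pool/Agent/helper82/Weil/R.lean`).  `N1 = #P 1`, `N2 = #Q 1`, `D = #(P 1 ∩ Q 1) ≤ p^ε₁`.
`pair_bound` with `A = P 1`, its `P` = `P 2`, `T` = classes of `1, …, ⌊2 p^τ⌋`, `B` = `s + Q 1` (and the
weights moved accordingly), `M` = the units with value in `(P (p^(-2τ))).erase 0`.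
COL with `Z = P 4 ∩ Q 4` (`≤ 9^(2d) D` elements), `Q = Q 2`, `R = P 4 + Q 4 ⊆ P 6 + Q 6`
(`≤ C N1 N2 / D` elements, RSZ).  E3 with `P l₁ = P (p^(-2τ))` (`≤ N1` elements), `Q l₂ = Q 2`,
`R l₃ = P 6 + Q 6` (the system `P + Q` at `6`), with `H` replaced by `25^d H`:
collisions `≤ C p^κ D^2 [ |R| N1 N2 + (1 + |R|^2/p) (N1^2 + N1 N2) ]
≤ C p^κ [ D N1^2 N2^2 + D^2 (N1^2 + N1 N2) + N1^2 N2^2 (N1^2 + N1 N2) / p ]`, and this times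
`p^(1+ε')` is `≤ (|M| N1 N2^2)^2`, `|M| ≥ N1 p^(-O(τ))`, since `N1 N2 ≥ p^(1/2+ε)`,
`N1, N2 ≥ p^ε`, `D ≤ p^ε₁`, if `ε₁, τ, κ, ε'` are small (`ε' < τ`). -/
def CB_stmt : Prop := ∀ (d : ℕ) (ε H : ℝ), 0 < ε → 1 ≤ H → ∃ (ε₁ δ : ℝ) (p₀ : ℕ), 0 < ε₁ ∧ 0 < δ ∧
  ∀ (p : ℕ) [Fact p.Prime], p₀ ≤ p → ∀ P Q : ℝ → Finset (ZMod p), IsSys p d P → IsSys p d Q →
    ((P 1).card : ℝ) ^ 2 ≤ H * p → ((Q 1).card : ℝ) ^ 2 ≤ H * p →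
    (p : ℝ) ^ ε ≤ ((P 1).card : ℝ) → (p : ℝ) ^ ε ≤ ((Q 1).card : ℝ) →
    (p : ℝ) ^ (1 / 2 + ε) ≤ ((P 1).card : ℝ) * ((Q 1).card : ℝ) →
    ((P 1 ∩ Q 1).card : ℝ) ≤ (p : ℝ) ^ ε₁ →
    ∀ χ : MulChar (ZMod p) ℂ, χ ≠ 1 → ∀ (s : ZMod p) (α β : ZMod p → ℂ), (∀ a, ‖α a‖ ≤ 1) →
    (∀ b, ‖β b‖ ≤ 1) → ‖∑ a ∈ P 1, ∑ b ∈ Q 1, α a * β b * χ (a + b + s)‖ ≤
      (p : ℝ) ^ (-δ) * (((P 1).card : ℝ) * ((Q 1).card : ℝ))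

/-- SHR (shrinking a large system).  Uses PKC, CVR, `IsSys.scale`.  If `(#P 1)^2 ≤ p` take `P' = P`,
`X = {0}`.  Otherwise let `l = 2^(-j)` be the largest with `(#P l)^2 ≤ p` (if there is none,
i.e. `(#P 0)^2 > p`, see below), `P' R = P (2 l R)`: `p < (#P' 1)^2 ≤ 25^d (#P l)^2 ≤ 25^d p`, and CVR
with `V = P l`: `X ⊆ P 1`, every `a ∈ P 1` is in `x + P (2 l)`, `#X #P l ≤ #P 2`.
`P 0` is the image of a subgroup, so it is `{0}` or everything.  If it is everything the hypothesis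
`hP` fails: so `#P 0 = 1`; for small `l` we have `P l = P 0` (finitely many elements in `ball G 1`). -/
def SHR_stmt : Prop := ∀ (p : ℕ) [Fact p.Prime] (d : ℕ) (P : ℝ → Finset (ZMod p)), IsSys p d P →
  P 0 ≠ Finset.univ →
  ∃ (P' : ℝ → Finset (ZMod p)) (X : Finset (ZMod p)), IsSys p d P' ∧
    ((P' 1).card : ℝ) ^ 2 ≤ 25 ^ d * p ∧
    (((P 1).card : ℝ) ≤ ((P' 1).card : ℝ) ∨ (p : ℝ) ≤ ((P' 1).card : ℝ) ^ 2) ∧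
    (X.card : ℝ) * ((P' 1).card : ℝ) ≤ 25 ^ d * ((P 1).card : ℝ) ∧
    ∀ a ∈ P 1, ∃ x ∈ X, a - x ∈ P' 1

/-- THB (Theorem B for systems, weights on the full sets).  Uses SHR, CA, CB, TMO.  If
`P 0 = univ` then `P 1 = univ`, and by TMO with `k = 1` `∑_a |∑_b β_b χ(a+b+s)|^2 ≤
N2 p + 2 N2^2 p^(1/2)`, so the bound holds by Cauchy-Schwarz as `N2 ≥ p^ε`; the same if
`Q 0 = univ`.  Otherwise SHR for `P` and `Q`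
(`P', X`, `Q', Y`): split `a = x + a'`, `b = y + b'` (choose one `x` for every `a`), apply CB (`H = 25^d`)
or CA (with the `ε₁` of CB) to every pair `(x, y)` with the shift `s + x + y`;
`#P' #Q' ≥ p^(1/2 + ε')`, `#P', #Q' ≥ p^ε'` for `ε' = min ε (1/2)`. -/
def THB_stmt : Prop := ∀ (d : ℕ) (ε : ℝ), 0 < ε → ∃ (δ : ℝ) (p₀ : ℕ), 0 < δ ∧
  ∀ (p : ℕ) [Fact p.Prime], p₀ ≤ p → ∀ P Q : ℝ → Finset (ZMod p), IsSys p d P → IsSys p d Q →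
    (p : ℝ) ^ ε ≤ ((P 1).card : ℝ) → (p : ℝ) ^ ε ≤ ((Q 1).card : ℝ) →
    (p : ℝ) ^ (1 / 2 + ε) ≤ ((P 1).card : ℝ) * ((Q 1).card : ℝ) →
    ∀ χ : MulChar (ZMod p) ℂ, χ ≠ 1 → ∀ (s : ZMod p) (α β : ZMod p → ℂ), (∀ a, ‖α a‖ ≤ 1) →
    (∀ b, ‖β b‖ ≤ 1) → ‖∑ a ∈ P 1, ∑ b ∈ Q 1, α a * β b * χ (a + b + s)‖ ≤
      (p : ℝ) ^ (-δ) * (((P 1).card : ℝ) * ((Q 1).card : ℝ))

end Pool.Agent.helper85.PG
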