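import Mathlib
import Pool.Agent.helper85.PG.Spec2

/-!
# Small doubling and the Paley graph conjecture: statements of part 3 (Freiman's theorem, conclusion)

Paper: `/team-store/PG_paper_helper85.md`, section 6.  For every `X_stmt` below a module proves
`theorem X : X_stmt` (with the statements named in the docstring as hypotheses, if it needs them) in
`Pool/Agent/<seat>/PG/X.lean`, namespace `Pool.Agent.helper85.PG`.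
-/

set_option autoImplicit false

namespace Pool.Agent.helper85.PG

open Module Pointwise

/-- RZT (Ruzsa's dilation).  For `d ∈ D`, `d ≠ 0`: a bad `t ≠ 0` is `e / d` for some integer `e`,
`0 < |e| < p`, `m ∣ e`; there are `≤ 2 (p - 1) / m` such `e`.  So the number of bad `t` is at most
`#D * 2 (p - 1) / m < p - 1`.  (`d = 0`: then `p ∣ e`, so `e = 0`.) -/
def RZT_stmt : Prop := ∀ (p : ℕ) [Fact p.Prime] (m : ℕ) (D : Finset (ZMod p)), 2 * D.card < m →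
  ∃ t : ZMod p, t ≠ 0 ∧ ∀ d ∈ D, ∀ e : ℤ, |e| < p → (e : ZMod p) = t * d → (m : ℤ) ∣ e → e = 0

/-- MOD (Ruzsa's model lemma).  Uses RZT.  `D = 6 A - 6 A` (as `D.card ≤ K^12 |A|`, Plünnecke,
`Finset.pluennecke_ruzsa_inequality_nsmul_sub_nsmul_add` or similar), `m = 2 |D| + 1`, `t` from RZT.
Pigeonhole: `S ⊆ A`, `8 |S| ≥ |A|`, such that the representatives `e a ∈ [0, p)` of `t a`, `a ∈ S`, are
in one interval `[j p / 8, (j+1) p / 8)`.  `A' = {e a mod m : a ∈ S}`.  An integer combination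
`E = ∑_(i ≤ 6) e a_i - ∑_(i ≤ 6) e b_i` has `|E| < 6 p / 8 < p` and `E = t (∑ a_i - ∑ b_i)` in `ZMod p`;
so `m ∣ E` implies `E = 0` (RZT), and `p ∣ E` implies `E = 0`.  For `x = e a + e b - e c - e d mod m` put
`φ x = a + b - c - d` (choose a representation).  Independent of the choice (combinations with
`4 + 4` terms, filled up with one element of `S`), additive (`6 + 6` terms), injective. -/
def MOD_stmt : Prop := ∀ K : ℝ, ∃ C : ℝ, 1 ≤ C ∧ ∀ (p : ℕ) [Fact p.Prime] (A : Finset (ZMod p)),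
  A.Nonempty → ((A + A).card : ℝ) ≤ K * (A.card : ℝ) →
    ∃ (m : ℕ) (_ : NeZero m) (A' : Finset (ZMod m)) (φ : ZMod m → ZMod p),
      A.card ≤ m ∧ (m : ℝ) ≤ C * (A'.card : ℝ) ∧
      (∀ x ∈ A' + A' - A' - A', φ x ∈ A + A - A - A) ∧
      (∀ x ∈ A' + A' - A' - A', ∀ x' ∈ A' + A' - A' - A', x + x' ∈ A' + A' - A' - A' →
        φ (x + x') = φ x + φ x') ∧
      (∀ x ∈ A' + A' - A' - A', ∀ x' ∈ A' + A' - A' - A', φ x = φ x' → x = x')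

/-- BOG (Bogolyubov).  `Γ = {r : |A^(r)|^2 ≥ α |A|^2}`, `A^(r) = ∑_(a ∈ A) e(r a)`;
`#Γ ≤ m |A| / (α |A|^2) ≤ 1 / α^2` (Parseval).
`m · #{(a,b,c,d) ∈ A^4 : a + b - c - d = x} = ∑_r |A^(r)|^4 e(r x)` (up to the sign of `x`), the term
`r = 0` is `|A|^4`, the terms `r ∈ Γ` have nonnegative real part, and the others contribute less than
`α |A|^2 * m |A| ≤ |A|^4` in absolute value (strictly: `∑_(r ∉ Γ) |A^(r)|^2 ≤ m |A| - |A|^2`). -/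
def BOG_stmt : Prop := ∀ (m : ℕ) [NeZero m] (A : Finset (ZMod m)) (α : ℝ), 0 < α →
  α * (m : ℝ) ≤ (A.card : ℝ) → ∃ Γ : Finset (ZMod m), (Γ.card : ℝ) ≤ 1 / α ^ 2 ∧
    ∀ x : ZMod m, (∀ r ∈ Γ, 0 ≤ (ZMod.stdAddChar (r * x) : ℂ).re) → x ∈ A + A - A - A

/-- BST (the system of a Bohr set).  `E = Γ → ℝ` with the maximum norm,
`G = {(t, x) : ∀ r ∈ Γ, (t r : UnitAddCircle) = ZMod.toAddCircle (r * x)}`.  Finite balls: `t r` is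
determined modulo `1` by `x`.  If `|t r| ≤ 1/4` the real part of `stdAddChar (r x)` is
`cos (2 π t r) ≥ 0`.  Last part: pigeonhole for the boxes of side `1 / k`: choose for every `x` a
`t_x ∈ [0, 1)^Γ` with `(t_x, x) ∈ G`; some box `[i_r / k, (i_r + 1) / k)` contains `t_x` for at least
`m / k^#Γ` values of `x`; subtract one of them. -/
def BST_stmt : Prop := ∀ (m : ℕ) [NeZero m] (Γ : Finset (ZMod m)), (1 : ZMod m) ∈ Γ →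
  ∃ (E : Type) (_ : NormedAddCommGroup E) (_ : NormedSpace ℝ E) (_ : FiniteDimensional ℝ E)
    (G : AddSubgroup (E × ZMod m)), finrank ℝ E = Γ.card ∧ FB G ∧
    (∀ z ∈ ball G (1 / 4), ∀ r ∈ Γ, 0 ≤ (ZMod.stdAddChar (r * z.2) : ℂ).re) ∧
    (∀ x : ZMod m, ((0 : E), x) ∈ G → x = 0) ∧
    (∀ z ∈ ball G (1 / 4), ∀ z' ∈ ball G (1 / 4), z.2 = z'.2 → z = z') ∧
    ∀ k : ℕ, 0 < k → m ≤ k ^ Γ.card * (ball G (1 / (k : ℝ))).ncard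

/-- MVV (minimal vectors).  Uses PK.  Strong induction on `s`.  `s = 0`: `ball G l = ball G 0`.
`s ≥ 1`: the norms of first coordinates of `ball G l` are finitely many; let `l'` be the least such
that the first coordinates of `ball G l'` span a space of dimension `s` (so `0 < l' ≤ l`), and choose
`l' / 2 ≤ m < l'` such that `ball G m` contains all `z ∈ G` with `‖z.1‖ < l'`; its span has dimension
`s'' < s`.  PK (with `W` = the span) at `l, m`: `#ball G l ≤ (1 + 2 l / m)^s #ball G m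
≤ (6 l / l')^s #ball G m`.  Induction for `m`: `s''` vectors; extend them by elements of `ball G l'`
to `s` vectors with independent first coordinates.
`#ball G l * ∏ ≤ (6 l / l')^s * 6^(s''(s''+1)) m^s'' #ball G 0 * l'^(s - s'')`. -/
def MVV_stmt : Prop := ∀ (E : Type) [NormedAddCommGroup E] [NormedSpace ℝ E]
  [FiniteDimensional ℝ E] (H : Type) [AddCommGroup H] (G : AddSubgroup (E × H)), FB G →
  ∀ (s : ℕ) (l : ℝ), 0 < l → finrank ℝ (Submodule.span ℝ (Prod.fst '' ball G l)) = s →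
    ∃ v : Fin s → E × H, (∀ i, v i ∈ ball G l) ∧ LinearIndependent ℝ (fun i => (v i).1) ∧
      ((ball G l).ncard : ℝ) * ∏ i, ‖(v i).1‖ ≤
        6 ^ (s * (s + 1)) * l ^ s * ((ball G 0).ncard : ℝ)

/-- GAI (a proper progression in `2A - 2A`).  Uses BOG, BST, MVV.  `Γ` from BOG, with `1` inserted;
`G` from BST, `r = #Γ ≤ 1/α^2 + 1`, `l = 1 / (4 r)`, MVV at `l`: `v_1, …, v_s ∈ ball G l`, `s ≤ r`,
`#ball G l * ∏ ‖v_i.1‖ ≤ 6^(s(s+1)) l^s` (`ball G 0 = {0}`), and `m ≤ (4 r)^r #ball G l`.  If `s ≥ 1`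
`N_i = ⌊1 / (4 s ‖v_i.1‖)⌋ ≥ 1`, `N_i ≥ 1 / (8 s ‖v_i.1‖)` (`v_i.1 ≠ 0`).  For `|n_i| ≤ N_i` the element
`∑ n_i v_i` is in `ball G (1/4)`, so its second coordinate is in `A + A - A - A`; different `n` give
different first coordinates (independence), hence different second coordinates.
`∏ (2 N_i + 1) ≥ ∏ N_i ≥ (1/(8 s))^s #ball G l / (6^(s(s+1)) l^s) ≥ c m`. -/
def GAI_stmt : Prop := ∀ α : ℝ, 0 < α → ∃ (c : ℝ) (r : ℕ), 0 < c ∧ ∀ (m : ℕ) [NeZero m]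
  (A : Finset (ZMod m)), α * (m : ℝ) ≤ (A.card : ℝ) →
    ∃ (s : ℕ) (v : Fin s → ZMod m) (N : Fin s → ℕ), s ≤ r ∧ (∀ i, 1 ≤ N i) ∧
      c * (m : ℝ) ≤ ∏ i, (2 * (N i : ℝ) + 1) ∧
      (∀ n : Fin s → ℤ, (∀ i, |n i| ≤ N i) → ∑ i, (n i : ZMod m) * v i ∈ A + A - A - A) ∧
      ∀ n n' : Fin s → ℤ, (∀ i, |n i| ≤ N i) → (∀ i, |n' i| ≤ N i) →
        ∑ i, (n i : ZMod m) * v i = ∑ i, (n' i : ZMod m) * v i → n = n'

/-- GPS (the system of a progression).  `E = Fin s → ℝ` with the maximum norm,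
`G = {(fun i => n i / N i, ∑ n_i u_i) : n ∈ ℤ^s}`. -/
def GPS_stmt : Prop := ∀ (p : ℕ) [Fact p.Prime] (s : ℕ) (u : Fin s → ZMod p) (N : Fin s → ℕ),
  (∀ i, 1 ≤ N i) → ∃ P : ℝ → Finset (ZMod p), IsSys p s P ∧ ∀ (k : ℕ) (y : ZMod p),
    y ∈ P (k : ℝ) ↔ ∃ n : Fin s → ℤ, (∀ i, |n i| ≤ (k : ℤ) * (N i : ℤ)) ∧
      y = ∑ i, (n i : ZMod p) * u i

/-- FRE (Freiman's theorem in `ZMod p`, for systems).  Uses MOD, GAI, GPS, PKC, CVR.  MOD, then GAI for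
`A'` with `α = 1 / C`: `v, N`.  `u_i = φ (v_i)`.  By induction on `∑ |n_i|`:
`φ (∑ n_i v_i) = ∑ n_i u_i` for `|n_i| ≤ N_i` (all partial sums are in `A' + A' - A' - A'`; `φ 0 = 0`,
`φ (-v_i) = - u_i`).  So the progression `Q = {∑ n_i u_i : |n_i| ≤ N_i}` has `∏ (2 N_i + 1) ≥ c m ≥ c |A|`
elements and is contained in `A + A - A - A`, so `|Q| ≤ K^4 |A|` and `|A + Q| ≤ K^5 |A|` (Plünnecke).
GPS: `P₀ 1 = Q`; `P R = P₀ (2 R)` (`IsSys.scale`).  CVR with `V = Q`: `F ⊆ A`, `#F #Q ≤ #(A + Q)`, and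
every `a ∈ A` is in `f + Q - Q ⊆ f + P₀ 2`.  `#P₀ 2 ≤ 5^s #P₀ 1` (PKC).  (`K ≥ 1` since `A` is
nonempty.) -/
def FRE_stmt : Prop := ∀ K : ℝ, ∃ (d : ℕ) (C : ℝ), 1 ≤ C ∧ ∀ (p : ℕ) [Fact p.Prime]
  (A : Finset (ZMod p)), A.Nonempty → ((A + A).card : ℝ) ≤ K * (A.card : ℝ) →
    ∃ (P : ℝ → Finset (ZMod p)) (F : Finset (ZMod p)), IsSys p d P ∧ (F.card : ℝ) ≤ C ∧
      ((P 1).card : ℝ) ≤ C * (A.card : ℝ) ∧ ∀ a ∈ A, ∃ f ∈ F, a - f ∈ P 1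

/-- FNA (Theorem A).  Uses FRE, THA.  Choose `f a ∈ F` with `a - f a ∈ P 1`, `A_f = {a : f a = f}`.
If `|A_f| ≥ p^(-δ₁) |A|`: THA (with `ε/2`) for `A_f`, `a₀ = f`, as
`#P 1 ≤ C |A| ≤ C p^δ₁ |A_f| ≤ p^δ |A_f|`, `p^(1+ε/2) E ≤ p^(-ε/2) |A|^2 |B|^4 ≤ |A_f|^2 |B|^4`
(`2 δ₁ ≤ ε/2`, `δ₁ < δ`).  Otherwise the trivial bound `|A_f| |B| ≤ p^(-δ₁) |A| |B|`; at most `C` such
`f`. -/
def FNA_stmt : Prop := ∀ (K ε : ℝ), 0 < ε → ∃ (δ : ℝ) (p₀ : ℕ), 0 < δ ∧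
  ∀ (p : ℕ) [Fact p.Prime], p₀ ≤ p → ∀ A B : Finset (ZMod p), A.Nonempty → B.Nonempty →
    ((A + A).card : ℝ) ≤ K * (A.card : ℝ) → (p : ℝ) ^ ε ≤ (B.card : ℝ) →
    (p : ℝ) ^ (1 + ε) * (B.addEnergy B : ℝ) ≤ (A.card : ℝ) ^ 2 * (B.card : ℝ) ^ 4 →
    ∀ χ : MulChar (ZMod p) ℂ, χ ≠ 1 → ∀ β : ZMod p → ℂ, (∀ b, ‖β b‖ ≤ 1) →
      ∑ a ∈ A, ‖∑ b ∈ B, β b * χ (a + b)‖ ≤ (p : ℝ) ^ (-δ) * ((A.card : ℝ) * (B.card : ℝ))

/-- FNB (Theorem B).  Uses FRE, THB, `IsSys.mono_dim`.  FRE for `A` (`P, F`) and for `B` (`Q, F'`);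
`∑_a |∑_b β_b χ(a+b)| = ∑_a α_a ∑_b β_b χ(a+b)` with `|α_a| ≤ 1`; choose `f a`, `g b`; the sum is
`∑_(f, g) ∑_(a' ∈ P 1, b' ∈ Q 1) α'_a' β'_b' χ(a' + b' + (f + g))`, `α'_a' = α (a' + f)` if `a' + f ∈ A` and
`f (a' + f) = f`, and `0` otherwise.  THB with `ε/2`: `#P 1 ≥ |A| / C`, `#Q 1 ≥ |B| / C`; the bound is
`C^2 p^(-δ) #P 1 #Q 1 ≤ C^4 p^(-δ) |A| |B|`. -/
def FNB_stmt : Prop := ∀ (K ε : ℝ), 0 < ε → ∃ (δ : ℝ) (p₀ : ℕ), 0 < δ ∧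
  ∀ (p : ℕ) [Fact p.Prime], p₀ ≤ p → ∀ A B : Finset (ZMod p), A.Nonempty → B.Nonempty →
    ((A + A).card : ℝ) ≤ K * (A.card : ℝ) → ((B + B).card : ℝ) ≤ K * (B.card : ℝ) →
    (p : ℝ) ^ ε ≤ (A.card : ℝ) → (p : ℝ) ^ ε ≤ (B.card : ℝ) →
    (p : ℝ) ^ (1 / 2 + ε) ≤ (A.card : ℝ) * (B.card : ℝ) →
    ∀ χ : MulChar (ZMod p) ℂ, χ ≠ 1 → ∀ β : ZMod p → ℂ, (∀ b, ‖β b‖ ≤ 1) →
      ∑ a ∈ A, ‖∑ b ∈ B, β b * χ (a + b)‖ ≤ (p : ℝ) ^ (-δ) * ((A.card : ℝ) * (B.card : ℝ))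

end Pool.Agent.helper85.PG
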