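import Mathlib
import Pool.Agent.helper85.PG.Spec3

/-!
# Small doubling and the Paley graph conjecture: final general form

`A` need not have small doubling: it is enough that `|A + C| ≤ K |A|` for some large set `C` of small
doubling (`C = A` gives FNA, FNB; `C = D = A`, `|A + B| ≤ K |B|` is the setting of
Shkredov and Volostnov).
-/

set_option autoImplicit false

namespace Pool.Agent.helper85.PG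

open Module Pointwise

/-- FNC (general form of Theorem A).  Uses FRE, CVR, PKC, THA, `IsSys.scale`.  FRE for `C`:
`C ⊆ F + P 1`, `#P 1 ≤ C₀ |C|`.  CVR for `A`, `V = C`: `X ⊆ A`, `#X |C| ≤ |A + C| ≤ K |A|`, and
`A ⊆ X + C - C ⊆ Y + P 2`, `Y = X + F - F`, `#Y ≤ C₀^2 #X`.  Choose `y a ∈ Y` with `a - y a ∈ P 2`,
`A_y = {a ∈ A : y a = y}`.  If `|A_y| ≥ p^(-δ₁) |C|`: THA (with `ε/2`) for `A_y`, `a₀ = y` and the system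
`R ↦ P (2 R)`, as `#P 2 ≤ 5^d C₀ |C| ≤ 5^d C₀ p^δ₁ |A_y| ≤ p^δ |A_y|` and
`p^(1+ε/2) E ≤ p^(-ε/2) |C|^2 |B|^4 ≤ |A_y|^2 |B|^4` (`2 δ₁ ≤ ε/2`, `δ₁ < δ`).  Otherwise the trivial
bound `|A_y| |B| ≤ p^(-δ₁) |C| |B|`, for at most `#Y ≤ C₀^2 K |A| / |C|` values of `y`.  (If
`K < 0` there is nothing to prove, as `A` is nonempty.) -/
def FNC_stmt : Prop := ∀ (K ε : ℝ), 0 < ε → ∃ (δ : ℝ) (p₀ : ℕ), 0 < δ ∧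
  ∀ (p : ℕ) [Fact p.Prime], p₀ ≤ p → ∀ A B C : Finset (ZMod p), A.Nonempty → B.Nonempty →
    C.Nonempty → ((C + C).card : ℝ) ≤ K * (C.card : ℝ) → ((A + C).card : ℝ) ≤ K * (A.card : ℝ) →
    (p : ℝ) ^ ε ≤ (B.card : ℝ) →
    (p : ℝ) ^ (1 + ε) * (B.addEnergy B : ℝ) ≤ (C.card : ℝ) ^ 2 * (B.card : ℝ) ^ 4 →
    ∀ χ : MulChar (ZMod p) ℂ, χ ≠ 1 → ∀ β : ZMod p → ℂ, (∀ b, ‖β b‖ ≤ 1) →
      ∑ a ∈ A, ‖∑ b ∈ B, β b * χ (a + b)‖ ≤ (p : ℝ) ^ (-δ) * ((A.card : ℝ) * (B.card : ℝ))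

/-- FND (general form of Theorem B).  Uses FRE, CVR, PKC, THB, `IsSys.mono_dim`, `IsSys.scale`.
FRE for `C` (`P, F`) and for `D` (`Q, F'`), constant `C₀`; CVR as in FNC: `A ⊆ Y + P 2`,
`#Y ≤ C₀^2 K |A| / |C|`, and `B ⊆ Y' + Q 2`, `#Y' ≤ C₀^2 K |B| / |D|`.
`∑_a |∑_b β_b χ(a+b)| = ∑_a α_a ∑_b β_b χ(a+b)` with `|α_a| ≤ 1`; choose `y a`, `z b`; the sum is
`∑_(y, z) ∑_(a' ∈ P 2, b' ∈ Q 2) α'_a' β'_b' χ(a' + b' + (y + z))`, `α'_a' = α (a' + y)` if `a' + y ∈ A` and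
`y (a' + y) = y`, and `0` otherwise.  THB with `ε/2` for the systems `R ↦ P (2 R)`, `R ↦ Q (2 R)`:
`#P 2 ≥ |C| / C₀`, `#Q 2 ≥ |D| / C₀`, `#P 2 ≤ 5^d C₀ |C|`, `#Q 2 ≤ 5^d C₀ |D|`. -/
def FND_stmt : Prop := ∀ (K ε : ℝ), 0 < ε → ∃ (δ : ℝ) (p₀ : ℕ), 0 < δ ∧
  ∀ (p : ℕ) [Fact p.Prime], p₀ ≤ p → ∀ A B C D : Finset (ZMod p), A.Nonempty → B.Nonempty →
    C.Nonempty → D.Nonempty →
    ((C + C).card : ℝ) ≤ K * (C.card : ℝ) → ((A + C).card : ℝ) ≤ K * (A.card : ℝ) →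
    ((D + D).card : ℝ) ≤ K * (D.card : ℝ) → ((B + D).card : ℝ) ≤ K * (B.card : ℝ) →
    (p : ℝ) ^ ε ≤ (C.card : ℝ) → (p : ℝ) ^ ε ≤ (D.card : ℝ) →
    (p : ℝ) ^ (1 / 2 + ε) ≤ (C.card : ℝ) * (D.card : ℝ) →
    ∀ χ : MulChar (ZMod p) ℂ, χ ≠ 1 → ∀ β : ZMod p → ℂ, (∀ b, ‖β b‖ ≤ 1) →
      ∑ a ∈ A, ‖∑ b ∈ B, β b * χ (a + b)‖ ≤ (p : ℝ) ^ (-δ) * ((A.card : ℝ) * (B.card : ℝ))

end Pool.Agent.helper85.PG
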