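import Mathlib
import Pool.Agent.helper85.PG.Spec4

/-!
# Small doubling and the Paley graph conjecture: below the exponent one third

`A` in a system `P` (dense), `B` arbitrary, `N = #P 1`, `M = |B|`, `N^2 M ≥ p^(1 - c)`, `N ≤ M`.

Idea.  Split `B` into a dense part (many points in translates of `P`; Theorem B for two systems
applies to every translate) and a sparse part: every translate of `P (1/2)` contains at most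
`p^(-σ) N` points of `B`.  The collisions of the Burgess-Karatsuba method are at most
`∑_ρ rr(ρ)^2 M^2 g(ρ)`, `rr(ρ) = rr (P 4) ρ`, `g(ρ)` = the largest number of points of `B` in a
translate of `R_ρ = P 2 + ρ P 2`.  The level sets of `rr` give `N^2 M^3`, with equality on every level
if `g(ρ) = M`.  If `g(ρ) ≥ p^(-ζ) M` for most `ρ` of a level, then for many `k`-tuples of such `ρ` many
points of `B` are in a translate of the intersection of the `R_ρ`, which by the multiplicative energy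
(E2) has only about `N` elements, and `B` would not be sparse.
-/

set_option autoImplicit false

namespace Pool.Agent.helper85.PG

open Module Pointwise

section
variable {p : ℕ} [Fact p.Prime]

/-- the dilate `ρ S` -/
def dil (ρ : ZMod p) (S : Finset (ZMod p)) : Finset (ZMod p) := S.image fun y => ρ * y

/-- the largest number of points of `B` in a translate of `P + ρ P` -/
def gg (P B : Finset (ZMod p)) (ρ : ZMod p) : ℕ :=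
  Finset.univ.sup fun t : ZMod p => (B.filter fun b => b - t ∈ P + dil ρ P).card

/-- the intersection of the sets `P (4 l) + ρ_i P (4 l)` -/
def Zk (P : ℝ → Finset (ZMod p)) {k : ℕ} (ρ : Fin k → ZMod p) (l : ℝ) : Finset (ZMod p) :=
  Finset.univ.filter fun y => ∀ i, y ∈ P (4 * l) + dil (ρ i) (P (4 * l))

end

/-- DIL (dilates).  Uses INT.  `{(x, ρ y) : (x, y) ∈ G}`; `y ↦ ρ y` is injective.  Last part: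
induction on `k ≥ 1` (`Fin.snoc` or `Fin.cons`), `IsSys.scale`, INT. -/
def DIL_stmt : Prop :=
  (∀ (p : ℕ) [Fact p.Prime] (d : ℕ) (P : ℝ → Finset (ZMod p)) (ρ : ZMod p), ρ ≠ 0 →
    IsSys p d P → IsSys p d fun R => dil ρ (P R)) ∧
  (∀ (p : ℕ) [Fact p.Prime] (S : Finset (ZMod p)) (ρ : ZMod p), ρ ≠ 0 →
    (dil ρ S).card = S.card ∧ (S ∩ dil ρ S).card = rr S ρ) ∧
  (∀ (p : ℕ) [Fact p.Prime] (d k : ℕ) (P : ℝ → Finset (ZMod p)) (ρ : Fin k → ZMod p),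
    0 < k → (∀ i, ρ i ≠ 0) → IsSys p d P → IsSys p (2 * d * k) (Zk P ρ))

/-- ZST (one step).  Uses PKC, INT, RSZ, E2, DIL.  `R_ρ = P 4 + ρ P 4`, all `ρ` in the set, constants
depend on `d` and `H`.
`#R_ρ ≤ C (#P 4)^2 / rr (P 4) ρ ≤ C N^2 / L` (RSZ for `R ↦ P (4 R)` and its dilate), `N = #P 1`.
RSZ for `Z` and `R ↦ R_ρ`-system (`R ↦ P (4 R) + ρ P (4 R)`):
`#(Z 1 ∩ R_ρ) ≤ C #Z 1 #R_ρ / #(Z 1 + R_ρ)`, and `Z 1 + R_ρ ⊇ Z 1 + ρ P 1`, with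
`#Z 1 * N ≤ C #(Z 1 + ρ P 1) #(Z 1 ∩ ρ P 1)` (RSZ for `Z` and the dilate of `P`).
So `t ≤ #(Z 1 ∩ R_ρ) ≤ C₁ (N / L) #(Z 1 ∩ ρ P 1)`.  If `t ≥ C₁ N` and `L ≥ 2` this gives
`n(ρ) := #(Z 1 ∩ ρ P 1) - 1 ≥ t L / (2 C₁ N)`.  Finally
`∑_(ρ ≠ 0) n(ρ)^2 = #{(x, x', z, z') nonzero, x, x' ∈ P 1, z, z' ∈ Z 1, z x' = z' x}
≤ ∑_(x, x') rr (Z 1) (x / x') ≤ p^κ (N #Z 1 + N^2 (#Z 1)^2 / p) ≤ p^κ (1 + H) N #Z 1` (E2). -/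
def ZST_stmt : Prop := ∀ (d : ℕ) (κ H : ℝ), 0 < κ → 1 ≤ H → ∃ (C : ℝ) (p₀ : ℕ), 1 ≤ C ∧
  ∀ (p : ℕ) [Fact p.Prime], p₀ ≤ p → ∀ P Z : ℝ → Finset (ZMod p), IsSys p d P → IsSys p d Z →
    (P 1).card ≤ (Z 1).card → ((P 1).card : ℝ) * ((Z 1).card : ℝ) ≤ H * p →
    ∀ L t : ℝ, 2 ≤ L → C * ((P 1).card : ℝ) ≤ t →
    (((Finset.univ : Finset (ZMod p)).filter fun ρ => ρ ≠ 0 ∧ L ≤ (rr (P 4) ρ : ℝ) ∧
      t ≤ ((Z 1 ∩ (P 4 + dil ρ (P 4))).card : ℝ)).card : ℝ) ≤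
      C * (p : ℝ) ^ κ * (((P 1).card : ℝ) / L) ^ 2 *
        (((P 1).card : ℝ) * ((Z 1).card : ℝ) / t ^ 2)

/-- ZIT (iteration).  Uses PKC, INT, RSZ, DIL, ZST.  `N = #P 1`, `q = N / L`, `a_k = 2 - 2^(2-k)`
(`a_1 = 0`, `a_(k+1) = a_k / 2 + 1`), `t_k = C_k N q^(2^(1-k)) p^(ω a_k)`.  Claim by induction on `k ≥ 1`:
at most `C p^(κ-2ω) q^2 |Y|^(k-1)` tuples have `#Zk P ρ 1 > t_k`.  `k = 1`: `#(P 4 + ρ P 4) ≤ C N^2 / L`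
(RSZ), no bad tuple.  Step: either the first `k` entries are bad, or `#Z ≤ t_k` for
`Z = Zk P (first k entries)` and the last entry is in the set of ZST for `Z` and `t = t_(k+1)`, whose
cardinality is `≤ C p^κ q^2 N t_k / t_(k+1)^2 ≤ C p^(κ-2ω) q^2`.  Conditions of ZST: `Zk` is a system
(DIL), `P 1 ⊆ Z 1` (as `0 ∈ P 4`), `N #Z 1 ≤ C N^3 ≤ C p`, and `t_(k+1) ≥ C N` for large `p` (if `Y` is
not empty then `L ≤ #P 4 ≤ 9^d N`, so `q ≥ 9^(-d)`). -/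
def ZIT_stmt : Prop := ∀ (d k : ℕ) (κ ω : ℝ), 0 < k → 0 < κ → 0 < ω → ∃ (C : ℝ) (p₀ : ℕ),
  1 ≤ C ∧ ∀ (p : ℕ) [Fact p.Prime], p₀ ≤ p → ∀ P : ℝ → Finset (ZMod p), IsSys p d P →
    ((P 1).card : ℝ) ^ 3 ≤ p → ∀ L : ℝ, 2 ≤ L → ∀ Y : Finset (ZMod p),
    (∀ ρ ∈ Y, ρ ≠ 0 ∧ L ≤ (rr (P 4) ρ : ℝ)) →
    (((Fintype.piFinset fun _ : Fin k => Y).filter fun ρ =>
      C * ((P 1).card : ℝ) * (((P 1).card : ℝ) / L) ^ ((1 / 2 : ℝ) ^ (k - 1)) *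
        (p : ℝ) ^ (2 * ω) < ((Zk P ρ 1).card : ℝ)).card : ℝ) ≤
      C * (p : ℝ) ^ (κ - 2 * ω) * (((P 1).card : ℝ) / L) ^ 2 * (Y.card : ℝ) ^ (k - 1)

/-- LVG (levels).  Uses PKC, DIL, CVR, ZIT.  `N = #P 1`, `M = |B|`.  Choose `k` with
`(1/2)^(k-1) ≤ σ / 4`, `ω = σ / 16`, `κ = ω / 4`, then `ζ` small (`(k + 4) ζ ≤ ω / 4`).  Suppose
`|Y| > p^(-ζ) (N/L)^2`.  For `ρ ∈ Y` let `B_ρ` be the points of `B` in the translate, `|B_ρ| ≥ p^(-ζ) M`.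
`∑_(ρ ∈ Y^k) |B_(ρ 1) ∩ ⋯ ∩ B_(ρ k)| = ∑_(b ∈ B) (#{ρ ∈ Y : b ∈ B_ρ})^k ≥ M (|Y| p^(-ζ))^k`.  The tuples
of ZIT contribute at most `M C p^(κ-2ω) (N/L)^2 |Y|^(k-1) ≤ M C p^(κ-2ω+ζ) |Y|^k`, less than half of it.
So for some other tuple `|B_(ρ 1) ∩ ⋯ ∩ B_(ρ k)| ≥ M p^(-kζ) / 2`.  These points are in `b₀ + Zk P ρ 1`
(`P 2 + ρ P 2 - (P 2 + ρ P 2) ⊆ P 4 + ρ P 4`), and `#Zk P ρ 1 ≤ C N (N/L)^((1/2)^(k-1)) p^(2ω)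
≤ N p^(σ/2)` (`N / L ≤ p`).  CVR for `A = Zk P ρ 1`, `V = P (1/4)` (`P (1/4) ⊆ Zk P ρ 1`, PKC):
`Zk P ρ 1` is covered by at most `C #Zk / N` translates of `P (1/2)`, each with `≤ p^(-σ) N` points of
`B`: `M p^(-kζ) / 2 ≤ C p^(-σ) N p^(σ/2) ≤ C p^(ζ - σ/2) M`, a contradiction. -/
def LVG_stmt : Prop := ∀ (d : ℕ) (σ : ℝ), 0 < σ → ∃ (ζ : ℝ) (p₀ : ℕ), 0 < ζ ∧
  ∀ (p : ℕ) [Fact p.Prime], p₀ ≤ p → ∀ P : ℝ → Finset (ZMod p), IsSys p d P →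
    ((P 1).card : ℝ) ^ 3 ≤ p → ∀ B : Finset (ZMod p),
    ((P 1).card : ℝ) ≤ (p : ℝ) ^ ζ * (B.card : ℝ) →
    (∀ t : ZMod p, ((B.filter fun b => b - t ∈ P (1 / 2)).card : ℝ) ≤
      (p : ℝ) ^ (-σ) * ((P 1).card : ℝ)) →
    ∀ L : ℝ, 2 ≤ L → ∀ Y : Finset (ZMod p),
    (∀ ρ ∈ Y, ρ ≠ 0 ∧ L ≤ (rr (P 4) ρ : ℝ) ∧
      (p : ℝ) ^ (-ζ) * (B.card : ℝ) ≤ (gg (P 2) B ρ : ℝ)) →
    (Y.card : ℝ) ≤ (p : ℝ) ^ (-ζ) * (((P 1).card : ℝ) / L) ^ 2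

/-- COG (collisions).  `cnt`, `collisions_eq`: `Pool/Agent/helper46/PY/{C,D}.lean`.  For `m, m' ∈ M`,
`ρ = m / m'`, count `(x, b₁, b₂, x', b₁', b₂')` with `x + b_i = ρ (x' + b_i')`: `b₁'` in `|B|` ways,
`b₁ ∈ ρ b₁' + (P + ρ P)` (since `b₁ - ρ b₁' = ρ x' - x`) in `≤ gg P B ρ` ways, `b₂` in `|B|` ways, then
`b₂'` is determined (`b₁ - b₂ = ρ (b₁' - b₂')`), and `x - ρ x'` is given: at most `rr S ρ` pairs. -/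
def COG_stmt : Prop := ∀ (p : ℕ) [Fact p.Prime] (M : Finset (ZMod p)ˣ)
  (P B S : Finset (ZMod p)), (∀ x ∈ P, -x ∈ P) → (∀ x ∈ P, ∀ x' ∈ P, x - x' ∈ S) →
    ∑ z : ZMod p × ZMod p, (∑ t ∈ M, (Pool.Agent.helper46.PY.cnt P B (t • z) : ℝ)) ^ 2 ≤
      ∑ m ∈ M, ∑ m' ∈ M, (rr S ((m : ZMod p) / (m' : ZMod p)) : ℝ) *
        ((B.card : ℝ) ^ 2 * (gg P B ((m : ZMod p) / (m' : ZMod p)) : ℝ))

/-- CTS (total number of collisions).  Uses PKC, LSM, CNT, LVG, COG.  `N = #P 1`.  COG with `P 2`,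
`S = P 4`, and CNT for `S = P 1`: the sum is at most
`|B|^2 ∑_(ρ ≠ 0, rr (P 4) ρ ≥ 2) rr (P 4) ρ^2 * gg (P 2) B ρ` (`ρ = m / m'` with `m, m' ∈ P 1` nonzero
has `rr (P 4) ρ ≥ 2`, and at most `rr (P 4) ρ` such pairs).  The `ρ` with `gg < p^(-ζ) |B|`: LSM for
`P 4` (`Lam C (P 4)` contains all `ρ ≠ 0` with `rr ≥ 2` as `C (#P 4)^2 ≤ p` for large `p`, by
`N^3 ≤ p`).  The others: dyadic classes `L ≤ rr < 2 L`, `gg ≤ |B|`, LVG. -/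
def CTS_stmt : Prop := ∀ (d : ℕ) (σ : ℝ), 0 < σ → ∃ (ζ : ℝ) (p₀ : ℕ), 0 < ζ ∧
  ∀ (p : ℕ) [Fact p.Prime], p₀ ≤ p → ∀ P : ℝ → Finset (ZMod p), IsSys p d P →
    ((P 1).card : ℝ) ^ 3 ≤ p → ∀ B : Finset (ZMod p),
    ((P 1).card : ℝ) ≤ (p : ℝ) ^ ζ * (B.card : ℝ) →
    (∀ t : ZMod p, ((B.filter fun b => b - t ∈ P (1 / 2)).card : ℝ) ≤
      (p : ℝ) ^ (-σ) * ((P 1).card : ℝ)) →
    ∀ M : Finset (ZMod p)ˣ, (∀ m ∈ M, (m : ZMod p) ∈ P 1) →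
    ∑ z : ZMod p × ZMod p, (∑ t ∈ M, (Pool.Agent.helper46.PY.cnt (P 2) B (t • z) : ℝ)) ^ 2 ≤
      (p : ℝ) ^ (-ζ) * (((P 1).card : ℝ) ^ 2 * (B.card : ℝ) ^ 3)

/-- SPS (the sparse part).  Uses PKC, CTS, `pair_bound` (`Pool/Agent/helper46/PY/D.lean`),
`asymp_three` (`Pool/Agent/helper82/Weil/R.lean`).  As in CB: `A = P 1`, its `P` = `P 2`, `T` = classes of
`1, …, ⌊2 p^τ⌋`, `B` replaced by `s + B` (CTS for it: the hypotheses are translation invariant), `M` =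
the units with value in `(P (p^(-2τ))).erase 0`, `|M| ≥ (3 p^(2τ))^(-d) N / 2`.  Collisions times
`p^(1+ε')` `≤ p^(1+ε'-ζ) N^2 |B|^3 ≤ (|M| N |B|^2)^2` since `N^2 |B| ≥ p^(1-c)` and
`c + 4 d τ + ε' < ζ`; `ε' < τ`. -/
def SPS_stmt : Prop := ∀ (d : ℕ) (ε σ : ℝ), 0 < ε → 0 < σ → ∃ (c δ : ℝ) (p₀ : ℕ), 0 < c ∧ 0 < δ ∧
  ∀ (p : ℕ) [Fact p.Prime], p₀ ≤ p → ∀ P : ℝ → Finset (ZMod p), IsSys p d P →
    (p : ℝ) ^ ε ≤ ((P 1).card : ℝ) → ((P 1).card : ℝ) ^ 3 ≤ p → ∀ B : Finset (ZMod p),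
    ((P 1).card : ℝ) ≤ (p : ℝ) ^ c * (B.card : ℝ) →
    (p : ℝ) ^ (1 - c) ≤ ((P 1).card : ℝ) ^ 2 * (B.card : ℝ) →
    (∀ t : ZMod p, ((B.filter fun b => b - t ∈ P (1 / 2)).card : ℝ) ≤
      (p : ℝ) ^ (-σ) * ((P 1).card : ℝ)) →
    ∀ χ : MulChar (ZMod p) ℂ, χ ≠ 1 → ∀ (s : ZMod p) (β : ZMod p → ℂ), (∀ b, ‖β b‖ ≤ 1) →
      ∑ a ∈ P 1, ‖∑ b ∈ B, β b * χ (a + b + s)‖ ≤
        (p : ℝ) ^ (-δ) * (((P 1).card : ℝ) * (B.card : ℝ))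

/-- THC (one system, arbitrary `B`, below one third).  Uses PKC, CVR, THB, SPS.  `δ₁` from THB for
exponent `ε`, `σ = δ₁ / 2`, SPS for `ε = 1/4` and this `σ`.  `B₁ = {b ∈ B : #(B ∩ (b + P 1)) <
p^(-σ) N}` is sparse: a translate `t + P (1/2)` with a point `b` of `B₁` is contained in `b + P 1`.
If `|B₁| ≥ p^(-δ₂) |B|` SPS applies to `B₁` (with `c, δ₂` small), otherwise the trivial bound.
`B₂ = B \ B₁`: CVR with `A = B₂`, `V = P 1`: `X ⊆ B₂`, the sets `x + P 1` disjoint, so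
`#X p^(-σ) N ≤ |B|`, and `B₂ ⊆ ⋃ (x + P 2)`.  Choose one `x` for every `b ∈ B₂`; THB for the system
`R ↦ P (2 R)` twice (weights `α` extended by `0`; replace `‖·‖` by `α a *`), shift `s + x`:
`≤ p^(-δ₁) (#P 2)^2 ≤ 25^d p^(-δ₁) N^2` for every `x`; total `≤ C p^(σ-δ₁) N |B|`. -/
def THC_stmt : Prop := ∀ (d : ℕ) (ε : ℝ), 0 < ε → ∃ (c δ : ℝ) (p₀ : ℕ), 0 < c ∧ 0 < δ ∧
  ∀ (p : ℕ) [Fact p.Prime], p₀ ≤ p → ∀ P : ℝ → Finset (ZMod p), IsSys p d P →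
    (p : ℝ) ^ (1 / 4 + ε) ≤ ((P 1).card : ℝ) → ((P 1).card : ℝ) ^ 3 ≤ p → ∀ B : Finset (ZMod p),
    ((P 1).card : ℝ) ≤ (p : ℝ) ^ c * (B.card : ℝ) →
    (p : ℝ) ^ (1 - c) ≤ ((P 1).card : ℝ) ^ 2 * (B.card : ℝ) →
    ∀ χ : MulChar (ZMod p) ℂ, χ ≠ 1 → ∀ (s : ZMod p) (β : ZMod p → ℂ), (∀ b, ‖β b‖ ≤ 1) →
      ∑ a ∈ P 1, ‖∑ b ∈ B, β b * χ (a + b + s)‖ ≤
        (p : ℝ) ^ (-δ) * (((P 1).card : ℝ) * (B.card : ℝ))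

/-- SHG (shrinking a system to a given size; compare SHR).  Uses PKC, CVR, `IsSys.scale`.  If
`#P 1 ≤ V` take `P' = P`, `X = {0}`.  Otherwise `P 0 ≠ univ` is a subgroup, so `#P 0 = 1 ≤ V`, and
`P l = P 0` for small `l > 0`; let `j ≥ 1` be the least with `#P (2^(-j)) ≤ V`, `l = 2^(-j)`,
`P' R = P (l R)`; `V < #P (2 l) ≤ 5^d #P l`.  CVR with `A = P 1`, `V = P (l/2)`:
`#X #P (l/2) ≤ #P 2 ≤ 5^d #P 1`, `#P l ≤ 5^d #P (l/2)`, and every `a ∈ P 1` is in `x + P l`. -/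
def SHG_stmt : Prop := ∀ (p : ℕ) [Fact p.Prime] (d : ℕ) (P : ℝ → Finset (ZMod p)), IsSys p d P →
  P 0 ≠ Finset.univ → ∀ V : ℝ, 1 ≤ V →
  ∃ (P' : ℝ → Finset (ZMod p)) (X : Finset (ZMod p)), IsSys p d P' ∧
    ((P' 1).card : ℝ) ≤ V ∧
    (((P 1).card : ℝ) ≤ ((P' 1).card : ℝ) ∨ V ≤ 5 ^ d * ((P' 1).card : ℝ)) ∧
    (X.card : ℝ) * ((P' 1).card : ℝ) ≤ 25 ^ d * ((P 1).card : ℝ) ∧
    ∀ a ∈ P 1, ∃ x ∈ X, a - x ∈ P' 1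

/-- FNE (Theorem C: one set of small doubling, `B` arbitrary, below one third).  Uses FRE, CVR, PKC,
TMO, SHG, THC, `IsSys.scale`.  FRE for `C`: `C ⊆ F + P 1`, `|C| ≤ C₀ #P 1`, `#P 1 ≤ C₀ |C|`; CVR as in
FNC: `A ⊆ Y + P 2`, `#Y ≤ C₀^2 K |A| / |C|`.  If `P 0 = univ` then `|C| ≥ p / C₀`,
`|A| ≥ |A + C| / K ≥ |C| / K`, and TMO with `k = 1` and Cauchy-Schwarz suffice.  Otherwise SHG for
`R ↦ P (2 R)` and `V = min (p^(1/3)) |B|` (`(p^(1/3))^3 = p`): `P', X`, `A ⊆ Y + X + P' 1`, with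
`(#Y)(#X) #P' 1 ≤ C |A|`.  `#P' 1 ≥ min(|C| / C, p^(1/3) / C, |B| / C)`, so `#P' 1 ≥ p^(1/4+ε/2)` and
`(#P' 1)^2 |B| ≥ p^(1-c')` (in the three cases `|C|^2 |B|`, `p^(2/3) |B|`, `|B|^3`; `c'` from THC for
`ε/2`, `c = min (c' / 4) (1/24)`; we may assume `ε ≤ 1/24`, by monotonicity in `ε`).  THC for every
translate `y + x`: `∑_(a ∈ A) ‖…‖ ≤ ∑_(y, x) ∑_(a' ∈ P' 1) ‖∑_b β_b χ(a' + b + (y + x))‖`. -/
def FNE_stmt : Prop := ∀ (K ε : ℝ), 0 < ε → ∃ (c δ : ℝ) (p₀ : ℕ), 0 < c ∧ 0 < δ ∧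
  ∀ (p : ℕ) [Fact p.Prime], p₀ ≤ p → ∀ A B C : Finset (ZMod p), A.Nonempty → C.Nonempty →
    ((C + C).card : ℝ) ≤ K * (C.card : ℝ) → ((A + C).card : ℝ) ≤ K * (A.card : ℝ) →
    (p : ℝ) ^ (1 / 4 + ε) ≤ (C.card : ℝ) → (p : ℝ) ^ (1 / 3 - c) ≤ (B.card : ℝ) →
    (p : ℝ) ^ (1 - c) ≤ (C.card : ℝ) ^ 2 * (B.card : ℝ) →
    ∀ χ : MulChar (ZMod p) ℂ, χ ≠ 1 → ∀ β : ZMod p → ℂ, (∀ b, ‖β b‖ ≤ 1) →
      ∑ a ∈ A, ‖∑ b ∈ B, β b * χ (a + b)‖ ≤ (p : ℝ) ^ (-δ) * ((A.card : ℝ) * (B.card : ℝ))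

end Pool.Agent.helper85.PG
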