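import Mathlib
import Pool.Agent.helper85.PG.Spec5
import Pool.Agent.helper73.PG.COG

/-!
# Project pg: module COL (collisions in case b)
-/

set_option autoImplicit false

namespace Pool.Agent.helper85.PG

open Module Pointwise

section
variable {p : ℕ} [Fact p.Prime]

theorem COLb_mem {P B : Finset (ZMod p)} {u : (ZMod p)ˣ}
    {x : (ZMod p × (ZMod p × ZMod p)) × (ZMod p × (ZMod p × ZMod p))} (hx : x ∈ COG_T P B u) :
    (x.1.1 ∈ P ∧ x.1.2.1 ∈ B ∧ x.1.2.2 ∈ B) ∧ (x.2.1 ∈ P ∧ x.2.2.1 ∈ B ∧ x.2.2.2 ∈ B) ∧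
      x.1.1 + x.1.2.1 = (u : ZMod p) * (x.2.1 + x.2.2.1) ∧
      x.1.1 + x.1.2.2 = (u : ZMod p) * (x.2.1 + x.2.2.2) := by
  unfold COG_T COG_I at hx
  rw [Finset.mem_filter, Finset.mem_product, Finset.mem_product, Finset.mem_product,
    Finset.mem_product, Finset.mem_product] at hx
  obtain ⟨⟨⟨h1, h2, h3⟩, h4, h5, h6⟩, h7⟩ := hx
  exact ⟨⟨h1, h2, h3⟩, ⟨h4, h5, h6⟩, COG_rel h7⟩

/-- pairs -/
def COLb_s (x : (ZMod p × (ZMod p × ZMod p)) × (ZMod p × (ZMod p × ZMod p))) :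
    ZMod p × ZMod p := (x.1.1 + x.1.2.1, x.2.1 + x.2.2.1)

theorem COLb_img (P B R : Finset (ZMod p)) (u : (ZMod p)ˣ)
    (hR : ∀ x ∈ P, ∀ x' ∈ P, ∀ b ∈ B, ∀ b' ∈ B, (x + b) - (x' + b') ∈ R) :
    ((COG_T P B u).image COLb_s).card ≤ rr R (u : ZMod p) := by
  rcases Finset.eq_empty_or_nonempty (COG_T P B u) with hE | ⟨x₀, hx₀⟩
  · rw [hE, Finset.image_empty, Finset.card_empty]
    exact Nat.zero_le _
  · obtain ⟨⟨a1, a2, a3⟩, ⟨a4, a5, a6⟩, a7, a8⟩ := COLb_mem hx₀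
    unfold rr
    refine Finset.card_le_card_of_injOn (fun s => s.2 - (x₀.2.1 + x₀.2.2.1)) ?_ ?_
    · intro s hs
      obtain ⟨x, hx, rfl⟩ := Finset.mem_image.1 (Finset.mem_coe.1 hs)
      obtain ⟨⟨b1, b2, b3⟩, ⟨b4, b5, b6⟩, b7, b8⟩ := COLb_mem hx
      rw [Finset.mem_coe, Finset.mem_filter]
      refine ⟨hR _ b4 _ a4 _ b5 _ a5, ?_⟩
      have h1 : (u : ZMod p) * ((COLb_s x).2 - (x₀.2.1 + x₀.2.2.1)) =
          (x.1.1 + x.1.2.1) - (x₀.1.1 + x₀.1.2.1) := by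
        rw [b7, a7]
        unfold COLb_s
        ring
      rw [h1]
      exact hR _ b1 _ a1 _ b2 _ a2
    · intro s hs s' hs' hss
      obtain ⟨x, hx, rfl⟩ := Finset.mem_image.1 (Finset.mem_coe.1 hs)
      obtain ⟨x', hx', rfl⟩ := Finset.mem_image.1 (Finset.mem_coe.1 hs')
      obtain ⟨_, _, b7, _⟩ := COLb_mem hx
      obtain ⟨_, _, c7, _⟩ := COLb_mem hx'
      have h1 : x.2.1 + x.2.2.1 = x'.2.1 + x'.2.2.1 := by
        have h2 : (x.2.1 + x.2.2.1) - (x₀.2.1 + x₀.2.2.1) =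
          (x'.2.1 + x'.2.2.1) - (x₀.2.1 + x₀.2.2.1) := hss
        exact sub_left_injective h2
      refine Prod.ext ?_ h1
      change x.1.1 + x.1.2.1 = x'.1.1 + x'.1.2.1
      rw [b7, c7, h1]

theorem COLb_fib2 (P B Q : Finset (ZMod p)) (u : (ZMod p)ˣ)
    (hQ : ∀ b ∈ B, ∀ b' ∈ B, b - b' ∈ Q) (s c : ZMod p × ZMod p) :
    ((COG_T P B u).filter fun x => COLb_s x = s ∧ (x.1.1, x.2.1) = c).card ≤
      rr Q (u : ZMod p) := by
  rcases Finset.eq_empty_or_nonempty ((COG_T P B u).filter fun x =>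
      COLb_s x = s ∧ (x.1.1, x.2.1) = c) with hE | ⟨x₀, hx₀⟩
  · rw [hE, Finset.card_empty]
    exact Nat.zero_le _
  · have hkey : ∀ x ∈ (COG_T P B u).filter fun x => COLb_s x = s ∧ (x.1.1, x.2.1) = c,
        x.1.1 = c.1 ∧ x.2.1 = c.2 ∧ x.1.2.1 = s.1 - c.1 ∧ x.2.2.1 = s.2 - c.2 ∧
          x.1.2.2 ∈ B ∧ x.2.2.2 ∈ B ∧ c.1 + x.1.2.2 = (u : ZMod p) * (c.2 + x.2.2.2) := by
      intro x hx
      obtain ⟨h1, h2, h3⟩ := Finset.mem_filter.1 hx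
      obtain ⟨⟨b1, b2, b3⟩, ⟨b4, b5, b6⟩, b7, b8⟩ := COLb_mem h1
      have e1 : x.1.1 = c.1 := congrArg Prod.fst h3
      have e2 : x.2.1 = c.2 := congrArg Prod.snd h3
      have e3 : x.1.1 + x.1.2.1 = s.1 := congrArg Prod.fst h2
      have e4 : x.2.1 + x.2.2.1 = s.2 := congrArg Prod.snd h2
      refine ⟨e1, e2, ?_, ?_, b3, b6, ?_⟩
      · rw [← e3, e1]; ring
      · rw [← e4, e2]; ring
      · rw [← e1, ← e2]; exact b8
    obtain ⟨a1, a2, a3, a4, a5, a6, a7⟩ := hkey x₀ hx₀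
    unfold rr
    refine Finset.card_le_card_of_injOn (fun x => x.2.2.2 - x₀.2.2.2) ?_ ?_
    · intro x hx
      obtain ⟨b1, b2, b3, b4, b5, b6, b7⟩ := hkey x (Finset.mem_coe.1 hx)
      rw [Finset.mem_coe, Finset.mem_filter]
      refine ⟨hQ _ b6 _ a6, ?_⟩
      have h1 : (u : ZMod p) * (x.2.2.2 - x₀.2.2.2) = x.1.2.2 - x₀.1.2.2 := by
        linear_combination a7 - b7
      change (u : ZMod p) * (x.2.2.2 - x₀.2.2.2) ∈ Q
      rw [h1]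
      exact hQ _ b5 _ a5
    · intro x hx y hy hxy
      obtain ⟨b1, b2, b3, b4, b5, b6, b7⟩ := hkey x (Finset.mem_coe.1 hx)
      obtain ⟨c1, c2, c3, c4, c5, c6, c7⟩ := hkey y (Finset.mem_coe.1 hy)
      have hxy' : x.2.2.2 - x₀.2.2.2 = y.2.2.2 - x₀.2.2.2 := hxy
      have e1 : x.2.2.2 = y.2.2.2 := sub_left_injective hxy'
      have e2 : x.1.2.2 = y.1.2.2 := by
        rw [e1] at b7
        exact add_left_cancel (b7.trans c7.symm)
      exact Prod.ext (Prod.ext (b1.trans c1.symm) (Prod.ext (b3.trans c3.symm) e2))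
        (Prod.ext (b2.trans c2.symm) (Prod.ext (b4.trans c4.symm) e1))

theorem COLb_rep (P B Z : Finset (ZMod p)) (s : ZMod p)
    (hZ : ∀ x ∈ P, ∀ x' ∈ P, ∀ b ∈ B, ∀ b' ∈ B, x + b = x' + b' → x - x' ∈ Z) :
    (P.filter fun x => s - x ∈ B).card ≤ Z.card := by
  rcases Finset.eq_empty_or_nonempty (P.filter fun x => s - x ∈ B) with hE | ⟨x₀, hx₀⟩
  · rw [hE, Finset.card_empty]
    exact Nat.zero_le _
  · obtain ⟨a1, a2⟩ := Finset.mem_filter.1 hx₀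
    refine Finset.card_le_card_of_injOn (fun x => x - x₀) ?_ ?_
    · intro x hx
      obtain ⟨b1, b2⟩ := Finset.mem_filter.1 (Finset.mem_coe.1 hx)
      refine Finset.mem_coe.2 (hZ _ b1 _ a1 _ b2 _ a2 ?_)
      ring
    · intro x _ y _ hxy
      exact sub_left_injective hxy

theorem COLb_fib (P B Z Q : Finset (ZMod p)) (u : (ZMod p)ˣ)
    (hZ : ∀ x ∈ P, ∀ x' ∈ P, ∀ b ∈ B, ∀ b' ∈ B, x + b = x' + b' → x - x' ∈ Z)
    (hQ : ∀ b ∈ B, ∀ b' ∈ B, b - b' ∈ Q) (s : ZMod p × ZMod p) :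
    ((COG_T P B u).filter fun x => COLb_s x = s).card ≤
      rr Q (u : ZMod p) * (Z.card * Z.card) := by
  have h1 : ((COG_T P B u).filter fun x => COLb_s x = s).card ≤
      rr Q (u : ZMod p) *
        ((P.filter fun x => s.1 - x ∈ B) ×ˢ (P.filter fun x => s.2 - x ∈ B)).card := by
    refine Finset.card_le_mul_card_image_of_maps_to
      (f := fun x : (ZMod p × (ZMod p × ZMod p)) × (ZMod p × (ZMod p × ZMod p)) =>
        (x.1.1, x.2.1)) ?_ _ ?_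
    · intro x hx
      obtain ⟨h1, h2⟩ := Finset.mem_filter.1 hx
      obtain ⟨⟨b1, b2, b3⟩, ⟨b4, b5, b6⟩, b7, b8⟩ := COLb_mem h1
      have e3 : x.1.1 + x.1.2.1 = s.1 := congrArg Prod.fst h2
      have e4 : x.2.1 + x.2.2.1 = s.2 := congrArg Prod.snd h2
      refine Finset.mem_product.2 ⟨Finset.mem_filter.2 ⟨b1, ?_⟩, Finset.mem_filter.2 ⟨b4, ?_⟩⟩
      · have h3 : s.1 - x.1.1 = x.1.2.1 := by rw [← e3]; ring
        rw [h3]; exact b2
      · have h3 : s.2 - x.2.1 = x.2.2.1 := by rw [← e4]; ring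
        rw [h3]; exact b5
    · intro c _
      have h3 := COLb_fib2 P B Q u hQ s c
      rw [Finset.filter_filter]
      exact h3
  refine h1.trans (Nat.mul_le_mul_left _ ?_)
  rw [Finset.card_product]
  exact Nat.mul_le_mul (COLb_rep P B Z s.1 hZ) (COLb_rep P B Z s.2 hZ)

theorem COLb_cardT (P B Z Q R : Finset (ZMod p)) (u : (ZMod p)ˣ)
    (hZ : ∀ x ∈ P, ∀ x' ∈ P, ∀ b ∈ B, ∀ b' ∈ B, x + b = x' + b' → x - x' ∈ Z)
    (hQ : ∀ b ∈ B, ∀ b' ∈ B, b - b' ∈ Q)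
    (hR : ∀ x ∈ P, ∀ x' ∈ P, ∀ b ∈ B, ∀ b' ∈ B, (x + b) - (x' + b') ∈ R) :
    (COG_T P B u).card ≤ rr Q (u : ZMod p) * (Z.card * Z.card) * rr R (u : ZMod p) := by
  refine (Finset.card_le_mul_card_image (f := COLb_s) (COG_T P B u) _ fun s _ =>
    COLb_fib P B Z Q u hZ hQ s).trans (Nat.mul_le_mul_left _ (COLb_img P B R u hR))

end

theorem COLb : COL_stmt := by
  intro p _ M P B Z Q R hZ hQ hR
  rw [COG_sq, Finset.mul_sum]
  refine Finset.sum_le_sum fun m _ => ?_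
  rw [Finset.mul_sum]
  refine Finset.sum_le_sum fun m' _ => ?_
  have h1 := COLb_cardT P B Z Q R (m / m') hZ hQ hR
  have h3 : ((m / m' : (ZMod p)ˣ) : ZMod p) = (m : ZMod p) / (m' : ZMod p) :=
    Units.val_div_eq_div_val m m'
  rw [h3] at h1
  have h5 : ((COG_T P B (m / m')).card : ℝ) ≤ (rr Q ((m : ZMod p) / (m' : ZMod p)) : ℝ) *
      ((Z.card : ℝ) * (Z.card : ℝ)) * (rr R ((m : ZMod p) / (m' : ZMod p)) : ℝ) := by
    exact_mod_cast h1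
  refine h5.trans (le_of_eq ?_)
  ring

end Pool.Agent.helper85.PG
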