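import Mathlib
import Pool.Agent.helper85.PG.Spec2
import Pool.Agent.helper85.PG.Basic
import Pool.Agent.helper87.PG.E2

/-!
# Project pg: module E3 (triple energy)
-/

set_option autoImplicit false

namespace Pool.Agent.helper85.PG

open Module Pointwise

theorem E3b_core {ι : Type*} [DecidableEq ι] (U L : Finset ι) (x q r : ι → ℝ)
    (N1 N2 N3 K K' B : ℝ) (hN1 : 0 ≤ N1) (hN2 : 1 ≤ N2) (hN3 : 0 ≤ N3) (hK : 0 ≤ K)
    (hKK : K ≤ K') (hB : 0 ≤ B)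
    (hx : ∀ ρ, 0 ≤ x ρ) (hq : ∀ ρ, 1 ≤ q ρ) (hr : ∀ ρ, 0 ≤ r ρ)
    (h1 : ∀ ρ ∈ U, ρ ∉ L → r ρ ≤ B) (h2 : ∑ ρ ∈ L, r ρ ^ 2 ≤ K * N3 ^ 2)
    (h3 : ∑ ρ ∈ U, x ρ ^ 2 ≤ K' * N1 ^ 2) (h4 : ∑ ρ ∈ U, (q ρ - 1) ^ 2 ≤ K' * N2 ^ 2)
    (h5 : ∑ ρ ∈ U, x ρ ≤ N1 ^ 2) (h6 : ∀ ρ, x ρ ≤ N1) :
    ∑ ρ ∈ U, x ρ * (q ρ * r ρ) ≤ B * (K' * (N1 * N2) + N1 ^ 2) + 2 * K' * (N1 * N2 * N3) := by
  have hK' : 0 ≤ K' := hK.trans hKK
  have hxq0 : ∀ ρ, 0 ≤ x ρ * q ρ := fun ρ => mul_nonneg (hx ρ) (zero_le_one.trans (hq ρ))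
  -- the sum of `x q`
  have hxq : ∑ ρ ∈ U, x ρ * q ρ ≤ K' * (N1 * N2) + N1 ^ 2 := by
    have e1 : ∑ ρ ∈ U, x ρ * q ρ = ∑ ρ ∈ U, x ρ * (q ρ - 1) + ∑ ρ ∈ U, x ρ := by
      rw [← Finset.sum_add_distrib]
      exact Finset.sum_congr rfl fun ρ _ => by ring
    have e2 : ∑ ρ ∈ U, x ρ * (q ρ - 1) ≤ K' * (N1 * N2) := by
      have d1 := Finset.sum_mul_sq_le_sq_mul_sq U x (fun ρ => q ρ - 1)
      have d4 : (∑ ρ ∈ U, x ρ * (q ρ - 1)) ^ 2 ≤ (K' * (N1 * N2)) ^ 2 := by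
        calc _ ≤ (∑ ρ ∈ U, x ρ ^ 2) * ∑ ρ ∈ U, (q ρ - 1) ^ 2 := d1
          _ ≤ (K' * N1 ^ 2) * (K' * N2 ^ 2) :=
            mul_le_mul h3 h4 (Finset.sum_nonneg fun _ _ => sq_nonneg _) (by positivity)
          _ = (K' * (N1 * N2)) ^ 2 := by ring
      have d5 : 0 ≤ ∑ ρ ∈ U, x ρ * (q ρ - 1) :=
        Finset.sum_nonneg fun ρ _ => mul_nonneg (hx ρ) (by linarith [hq ρ])
      have d6 : 0 ≤ K' * (N1 * N2) := mul_nonneg hK' (mul_nonneg hN1 (zero_le_one.trans hN2))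
      exact (pow_le_pow_iff_left₀ d5 d6 two_ne_zero).1 d4
    rw [e1]
    exact add_le_add e2 h5
  -- outside `L`
  have ho : ∑ ρ ∈ U.filter (fun ρ => ρ ∉ L), x ρ * (q ρ * r ρ) ≤
      B * (K' * (N1 * N2) + N1 ^ 2) := by
    calc ∑ ρ ∈ U.filter (fun ρ => ρ ∉ L), x ρ * (q ρ * r ρ)
        ≤ ∑ ρ ∈ U.filter (fun ρ => ρ ∉ L), B * (x ρ * q ρ) := by
          refine Finset.sum_le_sum fun ρ hρ => ?_
          have a1 := Finset.mem_filter.1 hρ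
          have a2 := h1 ρ a1.1 a1.2
          calc x ρ * (q ρ * r ρ) = (x ρ * q ρ) * r ρ := by ring
            _ ≤ (x ρ * q ρ) * B := mul_le_mul_of_nonneg_left a2 (hxq0 ρ)
            _ = B * (x ρ * q ρ) := by ring
      _ ≤ ∑ ρ ∈ U, B * (x ρ * q ρ) :=
          Finset.sum_le_sum_of_subset_of_nonneg (Finset.filter_subset _ _)
            fun ρ _ _ => mul_nonneg hB (hxq0 ρ)
      _ = B * ∑ ρ ∈ U, x ρ * q ρ := by rw [Finset.mul_sum]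
      _ ≤ _ := mul_le_mul_of_nonneg_left hxq hB
  -- inside `L`
  have hi : ∑ ρ ∈ U.filter (fun ρ => ρ ∈ L), x ρ * (q ρ * r ρ) ≤ 2 * K' * (N1 * N2 * N3) := by
    have d1 := Finset.sum_mul_sq_le_sq_mul_sq (U.filter (fun ρ => ρ ∈ L)) (fun ρ => x ρ * q ρ) r
    have d2 : ∑ ρ ∈ U.filter (fun ρ => ρ ∈ L), (x ρ * q ρ) ^ 2 ≤ 4 * K' * (N1 * N2) ^ 2 := by
      calc ∑ ρ ∈ U.filter (fun ρ => ρ ∈ L), (x ρ * q ρ) ^ 2
          ≤ ∑ ρ ∈ U, (x ρ * q ρ) ^ 2 :=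
            Finset.sum_le_sum_of_subset_of_nonneg (Finset.filter_subset _ _)
              fun ρ _ _ => sq_nonneg _
        _ ≤ ∑ ρ ∈ U, (2 * N1 ^ 2 * (q ρ - 1) ^ 2 + 2 * x ρ ^ 2) := by
            refine Finset.sum_le_sum fun ρ _ => ?_
            have a1 : q ρ ^ 2 ≤ 2 * (q ρ - 1) ^ 2 + 2 := by nlinarith [sq_nonneg (q ρ - 2)]
            have a2 : x ρ ^ 2 ≤ N1 ^ 2 := pow_le_pow_left₀ (hx ρ) (h6 ρ) 2
            calc (x ρ * q ρ) ^ 2 = x ρ ^ 2 * q ρ ^ 2 := by ring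
              _ ≤ x ρ ^ 2 * (2 * (q ρ - 1) ^ 2 + 2) := mul_le_mul_of_nonneg_left a1 (sq_nonneg _)
              _ = 2 * (q ρ - 1) ^ 2 * x ρ ^ 2 + 2 * x ρ ^ 2 := by ring
              _ ≤ 2 * (q ρ - 1) ^ 2 * N1 ^ 2 + 2 * x ρ ^ 2 := by
                  have a3 : 2 * (q ρ - 1) ^ 2 * x ρ ^ 2 ≤ 2 * (q ρ - 1) ^ 2 * N1 ^ 2 :=
                    mul_le_mul_of_nonneg_left a2 (by positivity)
                  linarith
              _ = _ := by ring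
        _ = 2 * N1 ^ 2 * ∑ ρ ∈ U, (q ρ - 1) ^ 2 + 2 * ∑ ρ ∈ U, x ρ ^ 2 := by
            rw [Finset.sum_add_distrib, Finset.mul_sum, Finset.mul_sum]
        _ ≤ 2 * N1 ^ 2 * (K' * N2 ^ 2) + 2 * (K' * N1 ^ 2) := by
            have a4 := mul_le_mul_of_nonneg_left h4 (show (0 : ℝ) ≤ 2 * N1 ^ 2 by positivity)
            linarith
        _ ≤ 4 * K' * (N1 * N2) ^ 2 := by
            have a5 : 1 ≤ N2 ^ 2 := one_le_pow₀ hN2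
            have a6 : K' * N1 ^ 2 * 1 ≤ K' * N1 ^ 2 * N2 ^ 2 :=
              mul_le_mul_of_nonneg_left a5 (by positivity)
            calc 2 * N1 ^ 2 * (K' * N2 ^ 2) + 2 * (K' * N1 ^ 2)
                = 2 * (K' * N1 ^ 2 * N2 ^ 2) + 2 * (K' * N1 ^ 2 * 1) := by ring
              _ ≤ 2 * (K' * N1 ^ 2 * N2 ^ 2) + 2 * (K' * N1 ^ 2 * N2 ^ 2) := by linarith
              _ = _ := by ring
    have d3 : ∑ ρ ∈ U.filter (fun ρ => ρ ∈ L), r ρ ^ 2 ≤ K' * N3 ^ 2 := by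
      calc ∑ ρ ∈ U.filter (fun ρ => ρ ∈ L), r ρ ^ 2 ≤ ∑ ρ ∈ L, r ρ ^ 2 :=
            Finset.sum_le_sum_of_subset_of_nonneg (fun ρ hρ => (Finset.mem_filter.1 hρ).2)
              fun ρ _ _ => sq_nonneg _
        _ ≤ K * N3 ^ 2 := h2
        _ ≤ K' * N3 ^ 2 := mul_le_mul_of_nonneg_right hKK (sq_nonneg _)
    have d4 : (∑ ρ ∈ U.filter (fun ρ => ρ ∈ L), x ρ * (q ρ * r ρ)) ^ 2 ≤
        (2 * K' * (N1 * N2 * N3)) ^ 2 := by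
      have e1 : ∑ ρ ∈ U.filter (fun ρ => ρ ∈ L), x ρ * (q ρ * r ρ) =
          ∑ ρ ∈ U.filter (fun ρ => ρ ∈ L), (x ρ * q ρ) * r ρ :=
        Finset.sum_congr rfl fun ρ _ => by ring
      rw [e1]
      calc _ ≤ (∑ ρ ∈ U.filter (fun ρ => ρ ∈ L), (x ρ * q ρ) ^ 2) *
            ∑ ρ ∈ U.filter (fun ρ => ρ ∈ L), r ρ ^ 2 := d1
        _ ≤ (4 * K' * (N1 * N2) ^ 2) * (K' * N3 ^ 2) :=
            mul_le_mul d2 d3 (Finset.sum_nonneg fun _ _ => sq_nonneg _) (by positivity)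
        _ = (2 * K' * (N1 * N2 * N3)) ^ 2 := by ring
    have d5 : 0 ≤ ∑ ρ ∈ U.filter (fun ρ => ρ ∈ L), x ρ * (q ρ * r ρ) :=
      Finset.sum_nonneg fun ρ _ => mul_nonneg (hx ρ)
        (mul_nonneg (zero_le_one.trans (hq ρ)) (hr ρ))
    have d6 : 0 ≤ 2 * K' * (N1 * N2 * N3) :=
      mul_nonneg (by linarith) (mul_nonneg (mul_nonneg hN1 (zero_le_one.trans hN2)) hN3)
    exact (pow_le_pow_iff_left₀ d5 d6 two_ne_zero).1 d4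
  rw [← Finset.sum_filter_add_sum_filter_not U (fun ρ => ρ ∈ L)]
  linarith

theorem E3b (hLSM : LSM_stmt) (hCNT : CNT_stmt) (hE1 : E1_stmt) : E3_stmt := by
  classical
  intro d κ H hκ hH
  obtain ⟨C, p₁, hC, hL⟩ := hLSM d (κ / 2) (half_pos hκ)
  obtain ⟨p₂, hp₂⟩ := E2_large (κ / 2) (max (2 * (1 + H)) (C * (1 + H))) (half_pos hκ)
  obtain ⟨p₃, hp₃⟩ := hE1 d (κ / 2) (half_pos hκ)
  refine ⟨max (max p₁ p₂) p₃, ?_⟩
  intro p _ hp P Q R hP hQ hR l₁ l₂ l₃ hl₁ hl₂ hl₃ hPH hQH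
  have hpp : (0 : ℝ) < p := by exact_mod_cast (Fact.out : p.Prime).pos
  have hC0 : 0 ≤ C := by linarith
  have hp1 : p₁ ≤ p := ((le_max_left _ _).trans (le_max_left _ _)).trans hp
  have hp2 : p₂ ≤ p := ((le_max_right _ _).trans (le_max_left _ _)).trans hp
  have hp3 : p₃ ≤ p := (le_max_right _ _).trans hp
  have h0P : (0 : ZMod p) ∈ P l₁ := hP.zero_mem hl₁.le
  have h0Q : (0 : ZMod p) ∈ Q l₂ := hQ.zero_mem hl₂.le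
  have h0R : (0 : ZMod p) ∈ R l₃ := hR.zero_mem hl₃.le
  have hS := hL p hp1 R hR l₃ hl₃
  have e1P := hp₃ p hp3 P hP l₁ hl₁
  have e1Q := hp₃ p hp3 Q hQ l₂ hl₂
  have hbig := hp₂ p hp2
  obtain ⟨c1, c2, c3⟩ := hCNT p (P l₁) h0P
  obtain ⟨q1, -, q3⟩ := hCNT p (Q l₂) h0Q
  obtain ⟨r1, -, r3⟩ := hCNT p (R l₃) h0R
  have n1 : (1 : ℝ) ≤ ((P l₁).card : ℝ) := by exact_mod_cast hP.card_pos hl₁.le
  have n2 : (1 : ℝ) ≤ ((Q l₂).card : ℝ) := by exact_mod_cast hQ.card_pos hl₂.le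
  have n3 : (1 : ℝ) ≤ ((R l₃).card : ℝ) := by exact_mod_cast hR.card_pos hl₃.le
  generalize P l₁ = S1 at *
  generalize Q l₂ = S2 at *
  generalize R l₃ = S3 at *
  rw [c2 (fun ρ => (rr S2 ρ : ℝ) * (rr S3 ρ : ℝ))]
  set N1 : ℝ := (S1.card : ℝ) with hN1def
  set N2 : ℝ := (S2.card : ℝ) with hN2def
  set N3 : ℝ := (S3.card : ℝ) with hN3def
  set K : ℝ := (p : ℝ) ^ (κ / 2) with hK
  have hK0 : 0 < K := Real.rpow_pos_of_pos hpp _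
  have hKb1 : 2 * (1 + H) ≤ K := (le_max_left _ _).trans hbig
  have hKb2 : C * (1 + H) ≤ K := (le_max_right _ _).trans hbig
  have hKK : (p : ℝ) ^ κ = K * K := by
    rw [hK, ← Real.rpow_add hpp]
    congr 1
    ring
  have e4 : ∀ N : ℝ, N ^ 2 ≤ H * p → K * (N ^ 2 + N ^ 4 / p) ≤ K * (1 + H) * N ^ 2 := by
    intro N hN
    have h1 : N ^ 4 / p ≤ H * N ^ 2 := by
      rw [div_le_iff₀ hpp]
      calc N ^ 4 = N ^ 2 * N ^ 2 := by ring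
        _ ≤ N ^ 2 * (H * p) := mul_le_mul_of_nonneg_left hN (sq_nonneg _)
        _ = H * N ^ 2 * p := by ring
    calc K * (N ^ 2 + N ^ 4 / p) ≤ K * (N ^ 2 + H * N ^ 2) :=
          mul_le_mul_of_nonneg_left (by linarith) hK0.le
      _ = K * (1 + H) * N ^ 2 := by ring
  have hsub : ∀ ρ : ZMod p, (rr S1 ρ : ℝ) - 1 ≤ N1 := by
    intro ρ
    have h1 : rr S1 ρ ≤ S1.card := Finset.card_filter_le _ _
    have h2 : (rr S1 ρ : ℝ) ≤ N1 := by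
      rw [hN1def]
      exact_mod_cast h1
    linarith
  have hmain := E3b_core (Finset.univ.erase (0 : ZMod p)) (Lam C S3)
    (fun ρ => (rr S1 ρ : ℝ) - 1) (fun ρ => (rr S2 ρ : ℝ)) (fun ρ => (rr S3 ρ : ℝ))
    N1 N2 N3 K (K * (1 + H)) (1 + C * N3 ^ 2 / p) (by linarith) n2 (by linarith) hK0.le
    (by nlinarith) (by positivity)
    (fun ρ => by
      have : (1 : ℝ) ≤ (rr S1 ρ : ℝ) := by exact_mod_cast c1 ρ
      linarith)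
    (fun ρ => by exact_mod_cast q1 ρ)
    (fun ρ => Nat.cast_nonneg _)
    (fun ρ hρ hρ' => (E2_notLam C hC0 S3 ρ (Finset.ne_of_mem_erase hρ) hρ').1)
    hS (e1P.trans (e4 N1 hPH)) (e1Q.trans (e4 N2 hQH))
    (by
      rw [c3]
      nlinarith)
    hsub
  refine hmain.trans ?_
  rw [hKK]
  have g0 : 0 ≤ N3 ^ 2 / p := by positivity
  have g1 : 1 + C * N3 ^ 2 / p ≤ C * (1 + N3 ^ 2 / p) := by
    have : C * N3 ^ 2 / p = C * (N3 ^ 2 / p) := by ring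
    rw [this]
    linarith
  have g2 : K * (1 + H) * (N1 * N2) + N1 ^ 2 ≤ K * (1 + H) * (N1 ^ 2 + N1 * N2) := by
    have h1 : 1 ≤ K * (1 + H) := by nlinarith
    have h2 : 1 * N1 ^ 2 ≤ K * (1 + H) * N1 ^ 2 := mul_le_mul_of_nonneg_right h1 (sq_nonneg _)
    have h3 : K * (1 + H) * (N1 ^ 2 + N1 * N2) =
        K * (1 + H) * N1 ^ 2 + K * (1 + H) * (N1 * N2) := by ring
    rw [h3]
    linarith
  have g3 : (1 + C * N3 ^ 2 / p) * (K * (1 + H) * (N1 * N2) + N1 ^ 2) ≤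
      K * K * ((1 + N3 ^ 2 / p) * (N1 ^ 2 + N1 * N2)) := by
    have i1 : 0 ≤ K * (1 + H) * (N1 * N2) + N1 ^ 2 := by positivity
    have i2 : 0 ≤ (1 + N3 ^ 2 / p) * (N1 ^ 2 + N1 * N2) := by positivity
    calc (1 + C * N3 ^ 2 / p) * (K * (1 + H) * (N1 * N2) + N1 ^ 2)
        ≤ (C * (1 + N3 ^ 2 / p)) * (K * (1 + H) * (N1 ^ 2 + N1 * N2)) :=
          mul_le_mul g1 g2 i1 (by positivity)
      _ = (C * (1 + H)) * K * ((1 + N3 ^ 2 / p) * (N1 ^ 2 + N1 * N2)) := by ring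
      _ ≤ K * K * ((1 + N3 ^ 2 / p) * (N1 ^ 2 + N1 * N2)) :=
          mul_le_mul_of_nonneg_right (mul_le_mul_of_nonneg_right hKb2 hK0.le) i2
  have g4 : 2 * (K * (1 + H)) * (N1 * N2 * N3) ≤ K * K * (N3 * N1 * N2) := by
    have i2 : 0 ≤ N3 * N1 * N2 := by positivity
    calc 2 * (K * (1 + H)) * (N1 * N2 * N3) = (2 * (1 + H)) * K * (N3 * N1 * N2) := by ring
      _ ≤ K * K * (N3 * N1 * N2) :=
          mul_le_mul_of_nonneg_right (mul_le_mul_of_nonneg_right hKb1 hK0.le) i2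
  calc _ ≤ K * K * ((1 + N3 ^ 2 / p) * (N1 ^ 2 + N1 * N2)) + K * K * (N3 * N1 * N2) :=
        add_le_add g3 g4
    _ = _ := by ring

end Pool.Agent.helper85.PG
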