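import Mathlib
import Pool.Agent.helper85.PG.Spec3
import Pool.Agent.helper85.PG.Basic

/-!
# Project pg: module FRE (Freiman's theorem in `ZMod p`, for systems)
-/

set_option autoImplicit false

namespace Pool.Agent.helper85.PG

open Module Pointwise

section
variable {p : ℕ} [Fact p.Prime]

theorem FREb_plu {A : Finset (ZMod p)} {K : ℝ} (hA : A.Nonempty)
    (hK : ((A + A).card : ℝ) ≤ K * (A.card : ℝ)) (k l : ℕ) :
    ((k • A - l • A).card : ℝ) ≤ K ^ (k + l) * (A.card : ℝ) := by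
  have hAc : (0 : ℝ) < A.card := by exact_mod_cast hA.card_pos
  have h := Finset.pluennecke_ruzsa_inequality_nsmul_sub_nsmul_add hA A k l
  have h2 : (((k • A - l • A).card : ℚ≥0) : ℝ) ≤
      (((A + A).card / A.card : ℚ≥0) ^ (k + l) * A.card : ℚ≥0) := by
    exact_mod_cast h
  push_cast at h2
  refine h2.trans ?_
  have h3 : ((A + A).card : ℝ) / A.card ≤ K := by
    rw [div_le_iff₀ hAc]
    exact hK
  have h4 : (0 : ℝ) ≤ ((A + A).card : ℝ) / A.card := by positivity
  exact mul_le_mul_of_nonneg_right (pow_le_pow_left₀ h4 h3 _) hAc.le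

theorem FREb_two (A : Finset (ZMod p)) : A + A - A - A ⊆ (2 : ℕ) • A - (2 : ℕ) • A := by
  intro x hx
  obtain ⟨y, hy, d, hd, rfl⟩ := Finset.mem_sub.1 hx
  obtain ⟨z, hz, c, hc, rfl⟩ := Finset.mem_sub.1 hy
  have h1 : z - c - d = z - (c + d) := by ring
  rw [h1, two_nsmul]
  exact Finset.sub_mem_sub hz (Finset.add_mem_add hc hd)

theorem FREb_three (A : Finset (ZMod p)) : A + (A + A - A - A) ⊆ (3 : ℕ) • A - (2 : ℕ) • A := by
  intro x hx
  obtain ⟨a, ha, w, hw, rfl⟩ := Finset.mem_add.1 hx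
  obtain ⟨y, hy, d, hd, rfl⟩ := Finset.mem_sub.1 hw
  obtain ⟨z, hz, c, hc, rfl⟩ := Finset.mem_sub.1 hy
  have h1 : a + (z - c - d) = (z + a) - (c + d) := by ring
  have h3 : (3 : ℕ) • A = A + A + A := by
    rw [succ_nsmul, two_nsmul]
  rw [h1, two_nsmul, h3]
  exact Finset.sub_mem_sub (Finset.add_mem_add hz ha) (Finset.add_mem_add hc hd)

end

/-- linearity of the model map along the progression -/
theorem FREb_lin {p m : ℕ} [Fact p.Prime] (D : Finset (ZMod m)) (φ : ZMod m → ZMod p)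
    (hadd : ∀ x ∈ D, ∀ x' ∈ D, x + x' ∈ D → φ (x + x') = φ x + φ x') {s : ℕ}
    (v : Fin s → ZMod m) (N : Fin s → ℕ) (hN : ∀ i, 1 ≤ N i)
    (hD : ∀ n : Fin s → ℤ, (∀ i, |n i| ≤ N i) → ∑ i, (n i : ZMod m) * v i ∈ D) :
    ∀ (k : ℕ) (n : Fin s → ℤ), (∀ i, |n i| ≤ N i) → ∑ i, (n i).natAbs = k →
      φ (∑ i, (n i : ZMod m) * v i) = ∑ i, (n i : ZMod p) * φ (v i) := by
  have h0 : φ 0 = 0 := by
    have h1 := hD (fun _ => 0) (fun i => by
      rw [abs_zero]
      exact Int.natCast_nonneg _)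
    have h2 : ∑ i : Fin s, (((fun _ => 0 : Fin s → ℤ) i : ℤ) : ZMod m) * v i = 0 := by
      refine Finset.sum_eq_zero fun i _ => ?_
      rw [Int.cast_zero, zero_mul]
    rw [h2] at h1
    have h3 := hadd 0 h1 0 h1 (by rw [add_zero]; exact h1)
    rw [add_zero] at h3
    exact left_eq_add.1 h3
  -- the unit vectors
  have hv : ∀ j : Fin s, v j ∈ D := by
    intro j
    have h1 := hD (Pi.single j 1) (fun i => by
      by_cases hij : i = j
      · subst hij
        rw [Pi.single_eq_same, abs_one]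
        exact_mod_cast hN i
      · rw [Pi.single_eq_of_ne hij, abs_zero]
        exact Int.natCast_nonneg _)
    have h2 : ∑ i : Fin s, (((Pi.single j 1 : Fin s → ℤ) i : ℤ) : ZMod m) * v i = v j := by
      rw [Finset.sum_eq_single j]
      · rw [Pi.single_eq_same, Int.cast_one, one_mul]
      · intro i _ hij
        rw [Pi.single_eq_of_ne hij, Int.cast_zero, zero_mul]
      · intro hj
        exact absurd (Finset.mem_univ j) hj
    rw [h2] at h1
    exact h1
  have hupd : ∀ (q : ℕ) (w : Fin s → ZMod q) (n : Fin s → ℤ) (j : Fin s) (t : ℤ),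
      ∑ i, ((Function.update n j (n j + t) i : ℤ) : ZMod q) * w i =
        ∑ i, (n i : ZMod q) * w i + (t : ZMod q) * w j := by
    intro q w n j t
    rw [← Finset.add_sum_erase _ _ (Finset.mem_univ j),
      ← Finset.add_sum_erase _ (fun i => (n i : ZMod q) * w i) (Finset.mem_univ j),
      Function.update_self]
    have h1 : ∑ i ∈ Finset.univ.erase j, ((Function.update n j (n j + t) i : ℤ) : ZMod q) * w i =
        ∑ i ∈ Finset.univ.erase j, (n i : ZMod q) * w i := by
      refine Finset.sum_congr rfl fun i hi => ?_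
      rw [Function.update_of_ne (Finset.ne_of_mem_erase hi)]
    rw [h1]
    push_cast
    ring
  intro k
  induction k with
  | zero =>
    intro n hn hk
    have h1 : ∀ i, n i = 0 := by
      intro i
      have h2 := (Finset.sum_eq_zero_iff.1 hk) i (Finset.mem_univ i)
      exact Int.natAbs_eq_zero.1 h2
    have h2 : ∑ i, (n i : ZMod m) * v i = 0 := by
      refine Finset.sum_eq_zero fun i _ => ?_
      rw [h1 i, Int.cast_zero, zero_mul]
    have h3 : ∑ i, (n i : ZMod p) * φ (v i) = 0 := by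
      refine Finset.sum_eq_zero fun i _ => ?_
      rw [h1 i, Int.cast_zero, zero_mul]
    rw [h2, h3, h0]
  | succ k ih =>
    intro n hn hk
    obtain ⟨j, hj⟩ : ∃ j, n j ≠ 0 := by
      by_contra hcon
      push Not at hcon
      have h1 : ∑ i, (n i).natAbs = 0 := Finset.sum_eq_zero fun i _ => by
        rw [hcon i, Int.natAbs_zero]
      omega
    -- the sign
    obtain ⟨t, ht, htj⟩ : ∃ t : ℤ, (t = 1 ∨ t = -1) ∧ (n j + t).natAbs + 1 = (n j).natAbs := by
      rcases lt_or_gt_of_ne hj with h | h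
      · exact ⟨1, Or.inl rfl, by omega⟩
      · exact ⟨-1, Or.inr rfl, by omega⟩
    have hn' : ∀ i, |Function.update n j (n j + t) i| ≤ N i := by
      intro i
      by_cases hij : i = j
      · subst hij
        rw [Function.update_self]
        have h1 := hn i
        rw [Int.abs_eq_natAbs] at h1 ⊢
        omega
      · rw [Function.update_of_ne hij]
        exact hn i
    have hk' : ∑ i, (Function.update n j (n j + t) i).natAbs = k := by
      rw [← Finset.add_sum_erase _ _ (Finset.mem_univ j), Function.update_self]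
      have h1 : ∑ i ∈ Finset.univ.erase j, (Function.update n j (n j + t) i).natAbs =
          ∑ i ∈ Finset.univ.erase j, (n i).natAbs := by
        refine Finset.sum_congr rfl fun i hi => ?_
        rw [Function.update_of_ne (Finset.ne_of_mem_erase hi)]
      rw [h1]
      have h2 := Finset.add_sum_erase Finset.univ (fun i => (n i).natAbs) (Finset.mem_univ j)
      have h3 : (n j).natAbs + ∑ i ∈ Finset.univ.erase j, (n i).natAbs = k + 1 := h2.trans hk
      omega
    have h1 := ih _ hn' hk'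
    rw [hupd m v n j t, hupd p (fun i => φ (v i)) n j t] at h1
    have hDn := hD n hn
    have hDn' := hD _ hn'
    rw [hupd m v n j t] at hDn'
    rcases ht with rfl | rfl
    · rw [Int.cast_one, one_mul] at h1 hDn'
      rw [Int.cast_one, one_mul] at h1
      have h2 := hadd _ hDn _ (hv j) hDn'
      rw [h2] at h1
      exact add_right_cancel h1
    · rw [Int.cast_neg, Int.cast_one, neg_one_mul] at h1 hDn'
      rw [Int.cast_neg, Int.cast_one, neg_one_mul] at h1
      have e1 : ∑ i, (n i : ZMod m) * v i = (∑ i, (n i : ZMod m) * v i + -v j) + v j := by ring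
      have h2 := hadd _ hDn' _ (hv j) (by rw [← e1]; exact hDn)
      rw [← e1, h1] at h2
      rw [h2]
      ring

theorem FREb_card (s : ℕ) (N : Fin s → ℕ) :
    ((Fintype.piFinset fun i : Fin s => Finset.Icc (-(N i : ℤ)) (N i : ℤ)).card : ℝ) =
      ∏ i, (2 * (N i : ℝ) + 1) := by
  rw [Fintype.card_piFinset]
  push_cast
  refine Finset.prod_congr rfl fun i _ => ?_
  rw [Int.card_Icc]
  have h1 : ((N i : ℤ) + 1 - -(N i : ℤ)).toNat = 2 * N i + 1 := by omega
  rw [h1]
  push_cast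
  ring

theorem FREb (hMOD : MOD_stmt) (hGAI : GAI_stmt) (hGPS : GPS_stmt) (hPKC : PKC_stmt)
    (hCVR : CVR_stmt) : FRE_stmt := by
  intro K
  obtain ⟨C₁, hC₁, hM⟩ := hMOD K
  have hC₁0 : 0 < C₁ := lt_of_lt_of_le one_pos hC₁
  obtain ⟨c, r, hc, hG⟩ := hGAI (1 / C₁) (by positivity)
  refine ⟨r, max 1 (max (K ^ 5 / c) (5 ^ r * K ^ 4)), le_max_left _ _, ?_⟩
  intro p _ A hA hK
  have hAc : (0 : ℝ) < (A.card : ℝ) := by exact_mod_cast hA.card_pos
  have hAA : A.card ≤ (A + A).card := Finset.card_le_card_add_left hA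
  have hK1 : 1 ≤ K := by
    have h1 : (A.card : ℝ) ≤ K * (A.card : ℝ) := le_trans (by exact_mod_cast hAA) hK
    have h2 : 1 * (A.card : ℝ) ≤ K * (A.card : ℝ) := by rw [one_mul]; exact h1
    exact le_of_mul_le_mul_right h2 hAc
  obtain ⟨m, hm, A', φ, hAm, hmA, hmap, hadd, hinj⟩ := hM p A hA hK
  have hα : 1 / C₁ * (m : ℝ) ≤ (A'.card : ℝ) := by
    rw [one_div, inv_mul_le_iff₀ hC₁0]
    exact hmA
  obtain ⟨s, v, N, hs, hN, hcm, hD, hninj⟩ := hG m A' hα
  have hlin : ∀ n : Fin s → ℤ, (∀ i, |n i| ≤ N i) →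
      φ (∑ i, (n i : ZMod m) * v i) = ∑ i, (n i : ZMod p) * φ (v i) := fun n hn =>
    FREb_lin (A' + A' - A' - A') φ hadd v N hN hD _ n hn rfl
  obtain ⟨P₀, hP₀, hP₀m⟩ := hGPS p s (fun i => φ (v i)) N hN
  have hQ1 : ∀ y : ZMod p, y ∈ P₀ 1 ↔ ∃ n : Fin s → ℤ, (∀ i, |n i| ≤ (N i : ℤ)) ∧
      y = ∑ i, (n i : ZMod p) * φ (v i) := by
    intro y
    have h1 := hP₀m 1 y
    rw [Nat.cast_one] at h1
    rw [h1]
    have h2 : ∀ i, ((1 : ℕ) : ℤ) * (N i : ℤ) = (N i : ℤ) := fun i => by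
      rw [Nat.cast_one, one_mul]
    simp only [h2]
  -- the progression is in `A + A - A - A`
  have hQsub : P₀ 1 ⊆ A + A - A - A := by
    intro y hy
    obtain ⟨n, hn, rfl⟩ := (hQ1 y).1 hy
    rw [← hlin n hn]
    exact hmap _ (hD n hn)
  -- lower bound of the size
  have hQlow : c * (A.card : ℝ) ≤ ((P₀ 1).card : ℝ) := by
    have h1 : (Fintype.piFinset fun i : Fin s => Finset.Icc (-(N i : ℤ)) (N i : ℤ)).card ≤
        (P₀ 1).card := by
      refine Finset.card_le_card_of_injOn (fun n => ∑ i, (n i : ZMod p) * φ (v i)) ?_ ?_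
      · intro n hn
        have h2 : ∀ i, |n i| ≤ (N i : ℤ) := fun i =>
          abs_le.2 (Finset.mem_Icc.1 (Fintype.mem_piFinset.1 (Finset.mem_coe.1 hn) i))
        exact Finset.mem_coe.2 ((hQ1 _).2 ⟨n, h2, rfl⟩)
      · intro n hn n' hn' hnn
        have h2 : ∀ i, |n i| ≤ (N i : ℤ) := fun i =>
          abs_le.2 (Finset.mem_Icc.1 (Fintype.mem_piFinset.1 (Finset.mem_coe.1 hn) i))
        have h3 : ∀ i, |n' i| ≤ (N i : ℤ) := fun i =>
          abs_le.2 (Finset.mem_Icc.1 (Fintype.mem_piFinset.1 (Finset.mem_coe.1 hn') i))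
        have h4 : ∑ i, (n i : ZMod p) * φ (v i) = ∑ i, (n' i : ZMod p) * φ (v i) := hnn
        rw [← hlin n h2, ← hlin n' h3] at h4
        exact hninj n n' h2 h3 (hinj _ (hD n h2) _ (hD n' h3) h4)
    have h5 : ((Fintype.piFinset fun i : Fin s => Finset.Icc (-(N i : ℤ)) (N i : ℤ)).card : ℝ) ≤
        ((P₀ 1).card : ℝ) := by exact_mod_cast h1
    rw [FREb_card] at h5
    have h6 : c * (A.card : ℝ) ≤ c * (m : ℝ) :=
      mul_le_mul_of_nonneg_left (by exact_mod_cast hAm) hc.le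
    linarith
  have hQpos : (0 : ℝ) < ((P₀ 1).card : ℝ) := lt_of_lt_of_le (by positivity) hQlow
  have hQup : ((P₀ 1).card : ℝ) ≤ K ^ 4 * (A.card : ℝ) := by
    have h1 : ((P₀ 1).card : ℝ) ≤ (((2 : ℕ) • A - (2 : ℕ) • A).card : ℝ) := by
      exact_mod_cast Finset.card_le_card (hQsub.trans (FREb_two A))
    exact h1.trans (FREb_plu hA hK 2 2)
  have hAQ : ((A + P₀ 1).card : ℝ) ≤ K ^ 5 * (A.card : ℝ) := by
    have h1 : ((A + P₀ 1).card : ℝ) ≤ (((3 : ℕ) • A - (2 : ℕ) • A).card : ℝ) := by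
      exact_mod_cast Finset.card_le_card
        ((Finset.add_subset_add_left hQsub).trans (FREb_three A))
    exact h1.trans (FREb_plu hA hK 3 2)
  have hQne : (P₀ 1).Nonempty := ⟨0, hP₀.zero_mem zero_le_one⟩
  obtain ⟨X, hXA, -, hXc, hXn⟩ := hCVR p A (P₀ 1) hQne
  refine ⟨fun R => P₀ (2 * R), X, (hP₀.scale two_pos).mono_dim hs, ?_, ?_, ?_⟩
  · have h1 : (X.card : ℝ) * ((P₀ 1).card : ℝ) ≤ ((A + P₀ 1).card : ℝ) := by
      exact_mod_cast hXn
    have h2 : (X.card : ℝ) * (c * (A.card : ℝ)) ≤ K ^ 5 * (A.card : ℝ) :=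
      (mul_le_mul_of_nonneg_left hQlow (Nat.cast_nonneg _)).trans (h1.trans hAQ)
    have h3 : (X.card : ℝ) ≤ K ^ 5 / c := by
      rw [le_div_iff₀ hc]
      have h4 : (X.card : ℝ) * c * (A.card : ℝ) ≤ K ^ 5 * (A.card : ℝ) := by
        rw [mul_assoc]
        exact h2
      exact le_of_mul_le_mul_right h4 hAc
    exact h3.trans ((le_max_left _ _).trans (le_max_right _ _))
  · have h1 := (hPKC.2.2 p s P₀ hP₀ 2 1 (by norm_num) one_pos).1
    have h2 : ((P₀ (2 * 1)).card : ℝ) ≤ 5 ^ r * K ^ 4 * (A.card : ℝ) := by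
      rw [mul_one]
      calc ((P₀ 2).card : ℝ) ≤ (1 + 2 * 2 / 1) ^ s * ((P₀ 1).card : ℝ) := h1
        _ ≤ 5 ^ r * ((P₀ 1).card : ℝ) := by
            refine mul_le_mul_of_nonneg_right ?_ hQpos.le
            have h3 : (1 + 2 * 2 / 1 : ℝ) = 5 := by norm_num
            rw [h3]
            exact pow_le_pow_right₀ (by norm_num) hs
        _ ≤ 5 ^ r * (K ^ 4 * (A.card : ℝ)) := mul_le_mul_of_nonneg_left hQup (by positivity)
        _ = 5 ^ r * K ^ 4 * (A.card : ℝ) := by ring
    exact h2.trans (mul_le_mul_of_nonneg_right ((le_max_right _ _).trans (le_max_right _ _))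
      hAc.le)
  · intro a ha
    obtain ⟨x, hx, w, hw, w', hw', he⟩ := hXc a ha
    refine ⟨x, hx, ?_⟩
    have h1 : a - x = w' - w := by linear_combination he
    have h2 := hP₀.sub_mem hw' hw
    rw [h1]
    have h3 : (1 + 1 : ℝ) = 2 * 1 := by norm_num
    rw [h3] at h2
    exact h2

end Pool.Agent.helper85.PG
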