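import Mathlib
import Pool.Agent.helper85.PG.Spec5
import Pool.Agent.helper85.PG.Basic

/-!
# Project pg: module REG (regular weights)
-/

set_option autoImplicit false

namespace Pool.Agent.helper85.PG

open Module Pointwise

section
variable {p : ℕ} [Fact p.Prime]

/-- indicator of `Z (1/4 + j η)` -/
noncomputable def REGb_I (Z : ℝ → Finset (ZMod p)) (η : ℝ) (j : ℕ) (c : ZMod p) : ℝ :=
  if c ∈ Z (1 / 4 + j * η) then 1 else 0

theorem REGb_nonneg (Z : ℝ → Finset (ZMod p)) (η : ℝ) (j : ℕ) (c : ZMod p) :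
    0 ≤ REGb_I Z η j c := by
  unfold REGb_I
  split_ifs
  · exact zero_le_one
  · exact le_rfl

theorem REGb_le_one (Z : ℝ → Finset (ZMod p)) (η : ℝ) (j : ℕ) (c : ZMod p) :
    REGb_I Z η j c ≤ 1 := by
  unfold REGb_I
  split_ifs
  · exact le_rfl
  · exact zero_le_one

theorem REGb_tel (Z : ℝ → Finset (ZMod p)) (η : ℝ) (c : ZMod p) (n : ℕ) :
    ∑ i ∈ Finset.range n, (REGb_I Z η (i + 2) c - REGb_I Z η i c) =
      REGb_I Z η (n + 1) c + REGb_I Z η n c - REGb_I Z η 1 c - REGb_I Z η 0 c := by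
  induction n with
  | zero =>
    rw [Finset.range_zero, Finset.sum_empty]
    ring
  | succ n ih =>
    rw [Finset.sum_range_succ, ih]
    ring

theorem REGb_step {d : ℕ} {Z : ℝ → Finset (ZMod p)} (hZ : IsSys p d Z) {η : ℝ} (hη : 0 < η)
    (i : ℕ) {h : ZMod p} (hh : h ∈ Z η) (c : ZMod p) :
    |REGb_I Z η (i + 1) (c + h) - REGb_I Z η (i + 1) c| ≤
      REGb_I Z η (i + 2) c - REGb_I Z η i c := by
  have e1 : (1 / 4 + ((i + 2 : ℕ) : ℝ) * η) = (1 / 4 + ((i + 1 : ℕ) : ℝ) * η) + η := by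
    push_cast; ring
  have e2 : (1 / 4 + ((i + 1 : ℕ) : ℝ) * η) = (1 / 4 + ((i : ℕ) : ℝ) * η) + η := by
    push_cast; ring
  have m1 : ∀ x, x ∈ Z (1 / 4 + ((i + 1 : ℕ) : ℝ) * η) → x ∈ Z (1 / 4 + ((i + 2 : ℕ) : ℝ) * η) :=
    fun x hx => hZ.mono (by rw [e1]; linarith) hx
  have m2 : ∀ x, x ∈ Z (1 / 4 + ((i : ℕ) : ℝ) * η) → x ∈ Z (1 / 4 + ((i + 1 : ℕ) : ℝ) * η) :=
    fun x hx => hZ.mono (by rw [e2]; linarith) hx
  have s1 : c + h ∈ Z (1 / 4 + ((i + 1 : ℕ) : ℝ) * η) → c ∈ Z (1 / 4 + ((i + 2 : ℕ) : ℝ) * η) := by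
    intro hx
    have h1 := hZ.sub_mem hx hh
    rw [add_sub_cancel_right, ← e1] at h1
    exact h1
  have s2 : c ∈ Z (1 / 4 + ((i : ℕ) : ℝ) * η) → c + h ∈ Z (1 / 4 + ((i + 1 : ℕ) : ℝ) * η) := by
    intro hx
    have h1 := hZ.add_mem hx hh
    rw [← e2] at h1
    exact h1
  unfold REGb_I
  by_cases a1 : c + h ∈ Z (1 / 4 + ((i + 1 : ℕ) : ℝ) * η)
  · by_cases a2 : c ∈ Z (1 / 4 + ((i + 1 : ℕ) : ℝ) * η)
    · rw [if_pos a1, if_pos a2, if_pos (m1 _ a2), sub_self, abs_zero]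
      split_ifs
      · rw [sub_self]
      · rw [sub_zero]; exact zero_le_one
    · rw [if_pos a1, if_neg a2, if_pos (s1 a1), if_neg (fun h => a2 (m2 _ h)), sub_zero, abs_one]
  · by_cases a2 : c ∈ Z (1 / 4 + ((i + 1 : ℕ) : ℝ) * η)
    · rw [if_neg a1, if_pos a2, if_pos (m1 _ a2), if_neg (fun h => a1 (s2 h)), zero_sub, sub_zero,
        abs_neg, abs_one]
    · rw [if_neg a1, if_neg a2, if_neg (fun h => a2 (m2 _ h)), sub_self, abs_zero, sub_zero]
      split_ifs
      · exact zero_le_one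
      · exact le_rfl

end

theorem REGb : REG_stmt := by
  intro p _ d Z hZ η hη hη8
  obtain ⟨J, hJ1, hJ2, hJ0⟩ : ∃ J : ℕ, 1 / (4 * η) ≤ (J : ℝ) ∧ (J : ℝ) * η ≤ 1 / 2 ∧
      (0 : ℝ) < J := by
    refine ⟨⌊1 / (2 * η)⌋₊, ?_, ?_, ?_⟩
    · have h1 : 1 / (2 * η) < (⌊1 / (2 * η)⌋₊ : ℝ) + 1 := Nat.lt_floor_add_one _
      have h2 : 1 / (4 * η) + 1 ≤ 1 / (2 * η) := by
        rw [div_add_one (by positivity), div_le_div_iff₀ (by positivity) (by positivity)]
        nlinarith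
      linarith
    · have h1 : (⌊1 / (2 * η)⌋₊ : ℝ) ≤ 1 / (2 * η) := Nat.floor_le (by positivity)
      calc (⌊1 / (2 * η)⌋₊ : ℝ) * η ≤ 1 / (2 * η) * η := by gcongr
        _ = 1 / 2 := by field_simp
    · have h1 : 1 / (2 * η) < (⌊1 / (2 * η)⌋₊ : ℝ) + 1 := Nat.lt_floor_add_one _
      have h2 : 1 < 1 / (2 * η) := by
        rw [lt_div_iff₀ (by positivity)]
        linarith
      linarith
  have hb : ∀ i ≤ J + 1, (1 / 4 + (i : ℝ) * η) ≤ 1 := by
    intro i hi
    have h1 : (i : ℝ) ≤ (J : ℝ) + 1 := by exact_mod_cast hi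
    have h2 : (i : ℝ) * η ≤ ((J : ℝ) + 1) * η := by gcongr
    linarith
  have hI1 : ∀ (i : ℕ), i ≤ J + 1 → ∀ c, c ∉ Z 1 → REGb_I Z η i c = 0 := by
    intro i hi c hc
    unfold REGb_I
    exact if_neg fun h => hc (hZ.mono (hb i hi) h)
  refine ⟨fun c => (∑ i ∈ Finset.range J, REGb_I Z η (i + 1) c) / J, ?_, ?_, ?_, ?_⟩
  · intro c
    constructor
    · exact div_nonneg (Finset.sum_nonneg fun i _ => REGb_nonneg Z η _ c) hJ0.le
    · rw [div_le_one hJ0]
      calc ∑ i ∈ Finset.range J, REGb_I Z η (i + 1) c ≤ ∑ i ∈ Finset.range J, (1 : ℝ) :=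
            Finset.sum_le_sum fun i _ => REGb_le_one Z η _ c
        _ = J := by rw [Finset.sum_const, Finset.card_range, nsmul_eq_mul, mul_one]
  · intro c hc
    have h1 : ∀ i ∈ Finset.range J, REGb_I Z η (i + 1) c = 1 := by
      intro i _
      unfold REGb_I
      refine if_pos (hZ.mono ?_ hc)
      have h2 : (0 : ℝ) ≤ ((i + 1 : ℕ) : ℝ) * η := by positivity
      linarith
    change (∑ i ∈ Finset.range J, REGb_I Z η (i + 1) c) / J = 1
    rw [Finset.sum_congr rfl h1, Finset.sum_const, Finset.card_range, nsmul_eq_mul, mul_one,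
      div_self hJ0.ne']
  · intro c hc
    by_contra hcon
    apply hc
    change (∑ i ∈ Finset.range J, REGb_I Z η (i + 1) c) / J = 0
    rw [Finset.sum_eq_zero, zero_div]
    intro i hi
    exact hI1 _ (by have := Finset.mem_range.1 hi; omega) c hcon
  · intro h hh
    have h1 : ∀ c : ZMod p, |(∑ i ∈ Finset.range J, REGb_I Z η (i + 1) (c + h)) / J -
        (∑ i ∈ Finset.range J, REGb_I Z η (i + 1) c) / J| ≤
        (2 / J) * (if c ∈ Z 1 then 1 else 0) := by
      intro c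
      rw [← sub_div, ← Finset.sum_sub_distrib, abs_div, abs_of_pos hJ0, div_mul_eq_mul_div]
      refine div_le_div_of_nonneg_right ?_ hJ0.le
      calc |∑ i ∈ Finset.range J, (REGb_I Z η (i + 1) (c + h) - REGb_I Z η (i + 1) c)|
          ≤ ∑ i ∈ Finset.range J, |REGb_I Z η (i + 1) (c + h) - REGb_I Z η (i + 1) c| :=
            Finset.abs_sum_le_sum_abs _ _
        _ ≤ ∑ i ∈ Finset.range J, (REGb_I Z η (i + 2) c - REGb_I Z η i c) :=
            Finset.sum_le_sum fun i _ => REGb_step hZ hη i hh c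
        _ = REGb_I Z η (J + 1) c + REGb_I Z η J c - REGb_I Z η 1 c - REGb_I Z η 0 c :=
            REGb_tel Z η c J
        _ ≤ REGb_I Z η (J + 1) c + REGb_I Z η J c := by
            have a1 := REGb_nonneg Z η 1 c
            have a2 := REGb_nonneg Z η 0 c
            linarith
        _ ≤ 2 * (if c ∈ Z 1 then 1 else 0) := by
            by_cases hc : c ∈ Z 1
            · rw [if_pos hc]
              have a1 := REGb_le_one Z η (J + 1) c
              have a2 := REGb_le_one Z η J c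
              linarith
            · rw [if_neg hc, hI1 _ le_rfl c hc, hI1 _ (Nat.le_succ J) c hc]
              norm_num
    calc ∑ c : ZMod p, |(∑ i ∈ Finset.range J, REGb_I Z η (i + 1) (c + h)) / J -
        (∑ i ∈ Finset.range J, REGb_I Z η (i + 1) c) / J|
        ≤ ∑ c : ZMod p, (2 / J) * (if c ∈ Z 1 then (1 : ℝ) else 0) :=
          Finset.sum_le_sum fun c _ => h1 c
      _ = (2 / J) * ((Z 1).card : ℝ) := by
          rw [← Finset.mul_sum]
          congr 1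
          rw [Finset.sum_ite_mem, Finset.univ_inter, Finset.sum_const, nsmul_eq_mul, mul_one]
      _ ≤ 16 * η * ((Z 1).card : ℝ) := by
          refine mul_le_mul_of_nonneg_right ?_ (Nat.cast_nonneg _)
          rw [div_le_iff₀ hJ0]
          have h2 : 1 ≤ (J : ℝ) * (4 * η) := by
            rw [div_le_iff₀ (by positivity)] at hJ1
            exact hJ1
          nlinarith

end Pool.Agent.helper85.PG
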