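import Mathlib
import Pool.Agent.helper85.PG.Spec5
import Pool.Agent.helper1.PG.CAI
import Pool.Agent.helper1.PG.LV2
import Pool.Agent.helper11.PG.GR
import Pool.Agent.helper11.PG.INT
import Pool.Agent.helper13.PG.T1
import Pool.Agent.helper15.PG.CAH
import Pool.Agent.helper15.PG.LEV
import Pool.Agent.helper25.PG.BOG
import Pool.Agent.helper26.PG.CNT
import Pool.Agent.helper26.PG.PK
import Pool.Agent.helper28.PG.SUP
import Pool.Agent.helper28.PG.ZST
import Pool.Agent.helper31.PG.CVR
import Pool.Agent.helper85.PG.MODb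
import Pool.Agent.helper34.PG.LSM
import Pool.Agent.helper42.PG.QUO
import Pool.Agent.helper46.PG.GAI
import Pool.Agent.helper51.PG.E1
import Pool.Agent.helper51.PG.FND
import Pool.Agent.helper53.PG.BST
import Pool.Agent.helper53.PG.DIL
import Pool.Agent.helper55.PG.MVV
import Pool.Agent.helper58.PG.GPS
import Pool.Agent.helper58.PG.WBI
import Pool.Agent.helper66.PG.SUB
import Pool.Agent.helper67.PG.THB
import Pool.Agent.helper71.PG.CA
import Pool.Agent.helper72.PG.LVG
import Pool.Agent.helper72.PG.TMO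
import Pool.Agent.helper72.PG.V
import Pool.Agent.helper73.PG.COG
import Pool.Agent.helper77.PG.T2
import Pool.Agent.helper77.PG.THA
import Pool.Agent.helper81.PG.FNC
import Pool.Agent.helper87.PG.E2
import Pool.Agent.helper87.PG.PKC
import Pool.Agent.helper87.PG.ZIT
import Pool.Agent.helper90.PG.RZT
import Pool.Agent.helper90.PG.SPS
import Pool.Agent.helper97.PG.BSH
import Pool.Agent.helper97.PG.CTS
import Pool.Agent.helper97.PG.LV1
import Pool.Agent.helper99.PG.RSZ
import Pool.Agent.helper99.PG.SHG
import Pool.Agent.helper91.PG.CMP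
import Pool.Agent.helper57.PG.CB
import Pool.Agent.helper8.PG.FNE
import Pool.Agent.helper19.PG.THC
import Pool.Agent.helper18.PG.SHR
import Pool.Agent.helper85.PG.COLb
import Pool.Agent.helper85.PG.REGb
import Pool.Agent.helper85.PG.E3b
import Pool.Agent.helper85.PG.FREb

/-!
# Small doubling and the Paley graph conjecture: the theorems without hypotheses
-/

set_option autoImplicit false

namespace Pool.Agent.helper85.PG

theorem pkc : PKC_stmt := PKC (PK V1)

theorem lev : LEV_stmt := LEV pkc SUB QUO (CMP pkc (GR V2) T1) (LV1 pkc T1 SUB) (LV2 pkc T2 QUO)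

theorem lsm : LSM_stmt := LSM lev

theorem e1 : E1_stmt := E1 lsm CNT

theorem e2 : E2_stmt := E2 lsm CNT

theorem e3 : E3_stmt := E3b lsm CNT e1

theorem tha : THA_stmt := THA pkc e2

theorem rsz : RSZ_stmt := RSZ pkc INT

theorem cai : CAI_stmt := CAI pkc INT CVR WBI REGb BSH

theorem ca : CA_stmt := CA pkc INT (SUP TMO) cai rsz (CAH e2 INT)

theorem cb : CB_stmt := CB pkc INT e3 rsz COLb

theorem thb : THB_stmt := THB (SHR pkc CVR) ca cb TMO

theorem fre : FRE_stmt := FREb (MOD RZT) (GAI BOG BST (MVV (PK V1))) GPS pkc CVR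

theorem fnc : FNC_stmt := FNC fre CVR pkc tha

theorem fnd : FND_stmt := FND fre CVR pkc thb

theorem dilates : DIL_stmt := DIL INT

theorem zst : ZST_stmt := ZST pkc INT rsz e2 dilates

theorem zit : ZIT_stmt := ZIT pkc INT rsz dilates zst

theorem lvg : LVG_stmt := LVG pkc dilates CVR zit

theorem cts : CTS_stmt := CTS pkc lsm CNT lvg COG

theorem sps : SPS_stmt := SPS pkc cts

theorem thc : THC_stmt := THC pkc CVR thb sps

theorem fne : FNE_stmt := FNE fre CVR pkc TMO (SHG pkc CVR) thc

end Pool.Agent.helper85.PG
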