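import Mathlib

/-!
# Jacobi symbols `(y/m)` as functions of `m`: periodicity and mean zero for non-squares
-/

namespace Pool.Agent.helper85.PG

open Finset

/-- For a natural number `y` that is not a square there is `u = 1 mod 4` with `(y/u) = -1`. -/
theorem exists_neg_nat (y : ℕ) (hy : ¬ IsSquare y) : ∃ u : ℕ, u % 4 = 1 ∧ jacobiSym y u = -1 := by
  have hy0 : y ≠ 0 := by rintro rfl; exact hy ⟨0, rfl⟩
  by_cases hodd : ∃ q : ℕ, q.Prime ∧ q ≠ 2 ∧ Odd (y.factorization q)
  · obtain ⟨q, hq, hq2, hv⟩ := hodd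
    have : Fact q.Prime := ⟨hq⟩
    have hqodd : Odd q := hq.odd_of_ne_two hq2
    set v := y.factorization q with hvdef
    set y' := y / q ^ v with hy'
    have hfac : q ^ v * y' = y := Nat.ordProj_mul_ordCompl_eq_self y q
    have hcop : Nat.Coprime q y' := Nat.coprime_ordCompl hq hy0
    have hy'0 : 0 < y' := Nat.ordCompl_pos q hy0
    obtain ⟨r, hr⟩ := FiniteField.exists_nonsquare (F := ZMod q) (by
      rw [ZMod.ringChar_zmod_n]; exact hq2)
    have hc8 : Nat.Coprime (8 * y') q := by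
      refine Nat.Coprime.mul_left ?_ hcop.symm
      have : Nat.Coprime (2 ^ 3) q := Nat.Coprime.pow_left 3
        ((Nat.coprime_primes Nat.prime_two hq).2 (Ne.symm hq2))
      simpa using this
    obtain ⟨u, hu1, hu2⟩ := Nat.chineseRemainder hc8 1 r.val
    have hu8 : u % 8 = 1 := by
      have := Nat.ModEq.of_mul_right y' hu1
      simpa [Nat.ModEq] using this
    have huodd : Odd u := by rw [Nat.odd_iff]; omega
    have hu4 : u % 4 = 1 := by omega
    refine ⟨u, hu4, ?_⟩
    have h1 : jacobiSym y' u = 1 := by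
      rw [jacobiSym.mod_right' y' huodd]
      have h2 : u ≡ 1 [MOD 4 * y'] := by
        have : 8 * y' = (4 * y') * 2 := by ring
        rw [this] at hu1
        exact Nat.ModEq.of_mul_right 2 hu1
      have h3 : u % (4 * y') = 1 := by
        have h4 : 1 % (4 * y') = 1 := Nat.mod_eq_of_lt (by omega)
        rw [← h4]; exact h2
      rw [h3, jacobiSym.one_right]
    have h2 : jacobiSym q u = -1 := by
      rw [jacobiSym.quadratic_reciprocity_one_mod_four' hqodd hu4,
        ← jacobiSym.legendreSym.to_jacobiSym, legendreSym.eq_neg_one_iff]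
      have : ((u : ℤ) : ZMod q) = r := by
        have h5 : ((u : ℕ) : ZMod q) = ((r.val : ℕ) : ZMod q) :=
          (ZMod.natCast_eq_natCast_iff _ _ _).2 hu2
        rw [ZMod.natCast_zmod_val] at h5
        push_cast
        exact h5
      rw [this]; exact hr
    have h3 : (y : ℤ) = (q : ℤ) ^ v * (y' : ℤ) := by
      conv_lhs => rw [← hfac]
      push_cast; ring
    rw [h3, jacobiSym.mul_left, jacobiSym.pow_left, h1, h2, mul_one]
    exact hv.neg_one_pow
  · push Not at hodd
    set v := y.factorization 2 with hvdef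
    set y' := y / 2 ^ v with hy'
    have hfac : 2 ^ v * y' = y := Nat.ordProj_mul_ordCompl_eq_self y 2
    have hcop : Nat.Coprime 2 y' := Nat.coprime_ordCompl Nat.prime_two hy0
    have hy'0 : 0 < y' := Nat.ordCompl_pos 2 hy0
    have hsq : IsSquare y' := by
      refine ⟨∏ p ∈ y'.primeFactors, p ^ (y'.factorization p / 2), ?_⟩
      rw [← Finset.prod_mul_distrib]
      conv_lhs => rw [← Nat.prod_factorization_pow_eq_self hy'0.ne']
      rw [Finsupp.prod, Nat.support_factorization]
      refine Finset.prod_congr rfl fun p hp => ?_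
      have hpp := Nat.prime_of_mem_primeFactors hp
      have hp2 : p ≠ 2 := by
        rintro rfl
        have := Nat.dvd_of_mem_primeFactors hp
        exact (Nat.Prime.coprime_iff_not_dvd Nat.prime_two).1 hcop this
      have hev : Even (y'.factorization p) := by
        have h1 := hodd p hpp hp2
        rw [Nat.not_odd_iff_even] at h1
        have h2 : y'.factorization p = y.factorization p := by
          rw [hy', Nat.factorization_ordCompl, Finsupp.erase_ne hp2]
        rw [h2]; exact h1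
      obtain ⟨t, ht⟩ := hev
      rw [← pow_add, ht]
      congr 1
      omega
    obtain ⟨w, hw⟩ := hsq
    have hvodd : Odd v := by
      rw [← Nat.not_even_iff_odd]
      rintro ⟨t, ht⟩
      apply hy
      refine ⟨2 ^ t * w, ?_⟩
      rw [← hfac, hw, ht, pow_add]; ring
    have hwodd : Nat.Coprime 2 w := by
      rw [hw] at hcop
      exact Nat.Coprime.coprime_mul_right_right hcop
    have hc8 : Nat.Coprime 8 w := by
      have : Nat.Coprime (2 ^ 3) w := Nat.Coprime.pow_left 3 hwodd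
      simpa using this
    obtain ⟨u, hu1, hu2⟩ := Nat.chineseRemainder hc8 5 1
    have hu8 : u % 8 = 5 := hu1
    have huodd : Odd u := by rw [Nat.odd_iff]; omega
    refine ⟨u, by omega, ?_⟩
    have h2 : jacobiSym 2 u = -1 := by
      rw [jacobiSym.at_two huodd, ZMod.χ₈_nat_eq_if_mod_eight]
      simp [hu8, show u % 2 = 1 by omega]
    have hcw : Nat.Coprime w u := by
      have := hu2.gcd_eq
      rw [Nat.gcd_one_left] at this
      rw [Nat.Coprime, Nat.gcd_comm]
      exact this
    have h3 : (y : ℤ) = (2 : ℤ) ^ v * ((w : ℤ) ^ 2) := by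
      conv_lhs => rw [← hfac, hw]
      push_cast; ring
    rw [h3, jacobiSym.mul_left, jacobiSym.pow_left, h2, jacobiSym.sq_one' (by
      rw [Int.gcd_natCast_natCast]; exact hcw), mul_one]
    exact hvodd.neg_one_pow

/-- For an integer `y` that is not a square there is an odd `u` with `(y/u) = -1`. -/
theorem exists_neg (y : ℤ) (hy : ¬ IsSquare y) : ∃ u : ℕ, Odd u ∧ jacobiSym y u = -1 := by
  have hy0 : y ≠ 0 := by rintro rfl; exact hy ⟨0, rfl⟩
  rcases lt_or_gt_of_ne hy0 with hneg | hpos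
  · obtain ⟨n, hn⟩ : ∃ n : ℕ, y = -(n : ℤ) := ⟨y.natAbs, by omega⟩
    have hn0 : 0 < n := by omega
    by_cases hsq : IsSquare n
    · obtain ⟨w, hw⟩ := hsq
      have hu4 : (4 * n - 1) % 4 = 3 := by omega
      have huodd : Odd (4 * n - 1) := by rw [Nat.odd_iff]; omega
      refine ⟨4 * n - 1, huodd, ?_⟩
      have hcop : Nat.Coprime w (4 * n - 1) := by
        have h1 : Nat.Coprime w (4 * n - 1) := by
          rw [Nat.Coprime]
          have h2 : Nat.gcd w (4 * n - 1) ∣ w := Nat.gcd_dvd_left _ _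
          have h3 : Nat.gcd w (4 * n - 1) ∣ 4 * n - 1 := Nat.gcd_dvd_right _ _
          have h6 : w ∣ 4 * n := ⟨4 * w, by rw [hw]; ring⟩
          have h4 : Nat.gcd w (4 * n - 1) ∣ 4 * n := h2.trans h6
          have h5 : Nat.gcd w (4 * n - 1) ∣ 4 * n - (4 * n - 1) := Nat.dvd_sub h4 h3
          rw [show 4 * n - (4 * n - 1) = 1 by omega] at h5
          exact Nat.dvd_one.1 h5
        exact h1
      rw [hn, jacobiSym.neg _ huodd, ZMod.χ₄_nat_three_mod_four hu4]
      have h3 : ((n : ℕ) : ℤ) = (w : ℤ) ^ 2 := by rw [hw]; push_cast; ring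
      rw [h3, jacobiSym.sq_one' (by rw [Int.gcd_natCast_natCast]; exact hcop)]
      norm_num
    · obtain ⟨u, hu4, hJ⟩ := exists_neg_nat n hsq
      have huodd : Odd u := by rw [Nat.odd_iff]; omega
      refine ⟨u, huodd, ?_⟩
      rw [hn, jacobiSym.neg _ huodd, ZMod.χ₄_nat_one_mod_four hu4, hJ, one_mul]
  · obtain ⟨n, hn⟩ : ∃ n : ℕ, y = (n : ℤ) := ⟨y.natAbs, by omega⟩
    have hsq : ¬ IsSquare n := by
      rintro ⟨w, hw⟩
      exact hy ⟨w, by rw [hn, hw]; push_cast; ring⟩
    obtain ⟨u, hu4, hJ⟩ := exists_neg_nat n hsq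
    exact ⟨u, by rw [Nat.odd_iff]; omega, by rw [hn]; exact hJ⟩

/-- The Jacobi symbol `(y/m)` for odd `m`, and `0` for even `m`. -/
def hh (y : ℤ) (m : ℕ) : ℤ := if Odd m then jacobiSym y m else 0

theorem hh_mul (y₁ y₂ : ℤ) (m : ℕ) : hh (y₁ * y₂) m = hh y₁ m * hh y₂ m := by
  unfold hh
  split_ifs with h
  · rw [jacobiSym.mul_left]
  · simp

theorem hh_mul_right (y : ℤ) (m₁ m₂ : ℕ) : hh y (m₁ * m₂) = hh y m₁ * hh y m₂ := by
  unfold hh
  by_cases h1 : Odd m₁ <;> by_cases h2 : Odd m₂
  · have h3 : Odd (m₁ * m₂) := h1.mul h2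
    rw [if_pos h1, if_pos h2, if_pos h3, jacobiSym.mul_right' _ h1.pos.ne' h2.pos.ne']
  · rw [if_neg h2, mul_zero, if_neg]
    rw [Nat.odd_mul]; tauto
  · rw [if_neg h1, zero_mul, if_neg]
    rw [Nat.odd_mul]; tauto
  · rw [if_neg h1, zero_mul, if_neg]
    rw [Nat.odd_mul]; tauto

theorem hh_abs_le (y : ℤ) (m : ℕ) : |hh y m| ≤ 1 := by
  unfold hh
  split_ifs
  · rcases jacobiSym.trichotomy y m with h | h | h <;> simp [h]
  · simp

theorem hh_le_one (y : ℤ) (m : ℕ) : hh y m ≤ 1 := (abs_le.1 (hh_abs_le y m)).2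

theorem hh_mod (y : ℤ) (m : ℕ) : hh y (m % (4 * y.natAbs)) = hh y m := by
  unfold hh
  have h1 : Odd (m % (4 * y.natAbs)) ↔ Odd m := by
    rw [Nat.odd_iff, Nat.odd_iff, Nat.mod_mod_of_dvd _ ⟨2 * y.natAbs, by ring⟩]
  by_cases h : Odd m
  · rw [if_pos h, if_pos (h1.2 h)]
    exact (jacobiSym.mod_right y h).symm
  · rw [if_neg h, if_neg (fun h' => h (h1.1 h'))]

theorem hh_add_period (y : ℤ) (m : ℕ) : hh y (4 * y.natAbs + m) = hh y m := by
  rw [← hh_mod, Nat.add_mod_left, hh_mod]

theorem sum_period (y : ℤ) (hy : ¬ IsSquare y) :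
    ∑ m ∈ range (4 * y.natAbs), hh y m = 0 := by
  obtain ⟨u, hu, hJ⟩ := exists_neg y hy
  have hy0 : y ≠ 0 := by rintro rfl; exact hy ⟨0, rfl⟩
  have hy1 : 0 < y.natAbs := Int.natAbs_pos.2 hy0
  have hcop : Nat.Coprime (4 * y.natAbs) u := by
    refine Nat.Coprime.mul_left ?_ ?_
    · have : Nat.Coprime (2 ^ 2) u := Nat.Coprime.pow_left 2 (by
        rw [Nat.coprime_two_left]; exact hu)
      simpa using this
    · by_contra hc
      have h0 : jacobiSym y u = 0 := by
        rw [jacobiSym.eq_zero_iff]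
        refine ⟨hu.pos.ne', ?_⟩
        exact hc
      rw [h0] at hJ; norm_num at hJ
  have hinj : Set.InjOn (fun m => (u * m) % (4 * y.natAbs)) (range (4 * y.natAbs) : Set ℕ) := by
    intro a ha b hb hab
    have ha' : a < 4 * y.natAbs := by simpa using ha
    have hb' : b < 4 * y.natAbs := by simpa using hb
    have h1 : u * a ≡ u * b [MOD 4 * y.natAbs] := hab
    have h2 : a ≡ b [MOD 4 * y.natAbs] := Nat.ModEq.cancel_left_of_coprime hcop h1
    have h3 : a % (4 * y.natAbs) = b % (4 * y.natAbs) := h2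
    rwa [Nat.mod_eq_of_lt ha', Nat.mod_eq_of_lt hb'] at h3
  have himg : (range (4 * y.natAbs)).image (fun m => (u * m) % (4 * y.natAbs)) =
      range (4 * y.natAbs) := by
    apply Finset.eq_of_subset_of_card_le
    · intro a ha
      obtain ⟨m, -, rfl⟩ := Finset.mem_image.1 ha
      exact Finset.mem_range.2 (Nat.mod_lt _ (by positivity))
    · rw [Finset.card_image_of_injOn hinj]
  have h1 : ∑ m ∈ range (4 * y.natAbs), hh y m = ∑ m ∈ range (4 * y.natAbs), -(hh y m) := by
    conv_lhs => rw [← himg]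
    rw [Finset.sum_image hinj]
    refine Finset.sum_congr rfl fun m _ => ?_
    rw [hh_mod, hh_mul_right]
    have : hh y u = -1 := by unfold hh; rw [if_pos hu]; exact hJ
    rw [this]; ring
  rw [Finset.sum_neg_distrib] at h1
  omega

/-- Partial sums of `(y/m)` over odd `m` are bounded by `4 |y|` for non-squares `y`. -/
theorem abs_sum_le (y : ℤ) (hy : ¬ IsSquare y) (Z : ℕ) :
    |∑ m ∈ range Z, hh y m| ≤ 4 * |y| := by
  have hy0 : y ≠ 0 := by rintro rfl; exact hy ⟨0, rfl⟩
  have hy1 : 0 < y.natAbs := Int.natAbs_pos.2 hy0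
  induction Z using Nat.strong_induction_on with
  | _ Z ih =>
    rcases lt_or_ge Z (4 * y.natAbs) with h | h
    · calc |∑ m ∈ range Z, hh y m| ≤ ∑ m ∈ range Z, |hh y m| := Finset.abs_sum_le_sum_abs _ _
        _ ≤ ∑ m ∈ range Z, 1 := Finset.sum_le_sum fun m _ => hh_abs_le y m
        _ = (Z : ℤ) := by simp
        _ ≤ 4 * |y| := by
          have : |y| = (y.natAbs : ℤ) := Int.abs_eq_natAbs y
          rw [this]; exact_mod_cast h.le
    · obtain ⟨Z', rfl⟩ := Nat.exists_eq_add_of_le h
      rw [Finset.sum_range_add, sum_period y hy, zero_add]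
      simp_rw [hh_add_period]
      exact ih Z' (by omega)

end Pool.Agent.helper85.PG
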