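import Pool.Agent.helper85.PG.N
import Pool.Agent.helper47.RA.Num

/-!
# Few primes are bad for a given pair of sets
-/

namespace Pool.Agent.helper85.PG

open Finset Filter Asymptotics

theorem card_pow_le (A B : Finset ℤ) (H D Q k : ℕ) (θ lam : ℝ) (hk : Even k) (hk0 : 0 < k)
    (hθ : 0 ≤ θ) (hlam : 0 ≤ lam) (hA : ∀ a ∈ A, |a| ≤ H) (hB : ∀ b ∈ B, |b| ≤ H)
    (hD : ∀ n : ℕ, n ≠ 0 → (n : ℤ) ≤ 4 * (H : ℤ) ^ 2 → n.divisors.card ≤ D)
    (hL : (BB H D : ℝ) ≤ lam * A.card) (h1B : 1 ≤ lam * B.card) (hA0 : 0 < A.card)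
    (hB0 : 0 < B.card) (P : Finset ℕ) (hP : ∀ p ∈ P, p.Prime) (hPQ : ∀ p ∈ P, p ≤ Q)
    (hbig : ∀ p ∈ P, θ * ((A.card : ℝ) ^ 2 * (B.card : ℝ) ^ 2) ≤ (TT (II A B) xx p : ℝ)) :
    θ ^ (2 * k) * (P.card : ℝ) ^ k ≤
      (k : ℝ) ^ k * (2 * lam * ((Q : ℝ) ^ k + 1) + 1024 * (H : ℝ) ^ 8) := by
  classical
  set V : ℝ := (A.card : ℝ) ^ 2 * (B.card : ℝ) ^ 2 with hV
  have hA0' : (0 : ℝ) < A.card := by exact_mod_cast hA0
  have hB0' : (0 : ℝ) < B.card := by exact_mod_cast hB0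
  have hV0 : 0 < V := by positivity
  have hII : ((II A B).card : ℝ) ≤ V := by
    have := card_II_le A B
    have h : (((II A B).card : ℕ) : ℝ) ≤ ((A.card ^ 2 * B.card ^ 2 : ℕ) : ℝ) := by
      exact_mod_cast this
    rw [hV]; push_cast at h; exact h
  have hquad : (Quad (II A B) xx : ℝ) ≤ V * (2 * lam * V) := by
    have h1 := quad_le A B H D hA hB hD
    have h2 : (Quad (II A B) xx : ℝ) ≤ V * (BB H D * (A.card * (B.card : ℝ) ^ 2) +
        (A.card : ℝ) ^ 2 * B.card) := by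
      rw [hV]; exact_mod_cast h1
    refine h2.trans (mul_le_mul_of_nonneg_left ?_ hV0.le)
    have h3 : (BB H D : ℝ) * (A.card * (B.card : ℝ) ^ 2) ≤ lam * V := by
      calc (BB H D : ℝ) * (A.card * (B.card : ℝ) ^ 2) ≤
            (lam * A.card) * (A.card * (B.card : ℝ) ^ 2) :=
            mul_le_mul_of_nonneg_right hL (by positivity)
        _ = lam * V := by rw [hV]; ring
    have h4 : (A.card : ℝ) ^ 2 * B.card ≤ lam * V := by
      calc (A.card : ℝ) ^ 2 * B.card = ((A.card : ℝ) ^ 2 * B.card) * 1 := by ring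
        _ ≤ ((A.card : ℝ) ^ 2 * B.card) * (lam * B.card) :=
            mul_le_mul_of_nonneg_left h1B (by positivity)
        _ = lam * V := by rw [hV]; ring
    linarith
  have hmom := moment (II A B) xx P Q (16 * H ^ 4) k hk hk0 hP hPQ (abs_xx_le A B H hA hB)
  have hmomR : ((∑ p ∈ P, TT (II A B) xx p : ℤ) : ℝ) ^ (2 * k) ≤
      ((II A B).card : ℝ) ^ (2 * (k - 1)) * (((P.card : ℝ) ^ k * (k : ℝ) ^ k) *
        (((Q : ℝ) ^ k + 1) * (Quad (II A B) xx : ℝ) +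
        4 * ((16 * H ^ 4 : ℕ) : ℝ) ^ 2 * ((II A B).card : ℝ) ^ 2)) := by
    exact_mod_cast hmom
  have hlow : θ * V * P.card ≤ ((∑ p ∈ P, TT (II A B) xx p : ℤ) : ℝ) := by
    push_cast
    calc θ * V * P.card = ∑ _p ∈ P, θ * V := by rw [Finset.sum_const, nsmul_eq_mul]; ring
      _ ≤ _ := Finset.sum_le_sum hbig
  have h1 : (θ * V * P.card) ^ (2 * k) ≤ V ^ (2 * (k - 1)) * (((P.card : ℝ) ^ k * (k : ℝ) ^ k) *
        (((Q : ℝ) ^ k + 1) * (V * (2 * lam * V)) + 1024 * (H : ℝ) ^ 8 * V ^ 2)) := by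
    refine (pow_le_pow_left₀ (by positivity) hlow _).trans (hmomR.trans ?_)
    refine mul_le_mul (pow_le_pow_left₀ (by positivity) hII _) ?_ (by positivity) (by positivity)
    refine mul_le_mul_of_nonneg_left ?_ (by positivity)
    refine add_le_add (mul_le_mul_of_nonneg_left hquad (by positivity)) ?_
    push_cast
    have : ((II A B).card : ℝ) ^ 2 ≤ V ^ 2 := pow_le_pow_left₀ (by positivity) hII _
    calc 4 * (16 * (H : ℝ) ^ 4) ^ 2 * ((II A B).card : ℝ) ^ 2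
        = 1024 * (H : ℝ) ^ 8 * ((II A B).card : ℝ) ^ 2 := by ring
      _ ≤ _ := mul_le_mul_of_nonneg_left this (by positivity)
  rcases Nat.eq_zero_or_pos P.card with hP0 | hP0
  · rw [hP0]
    have : (0 : ℝ) ^ k = 0 := zero_pow hk0.ne'
    push_cast
    rw [this, mul_zero]
    positivity
  have hP0' : (0 : ℝ) < P.card := by exact_mod_cast hP0
  have hVk : V ^ (2 * (k - 1)) * V ^ 2 = V ^ (2 * k) := by
    rw [← pow_add]; congr 1; omega
  have h2 : (V ^ (2 * k) * (P.card : ℝ) ^ k) * (θ ^ (2 * k) * (P.card : ℝ) ^ k) ≤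
      (V ^ (2 * k) * (P.card : ℝ) ^ k) * ((k : ℝ) ^ k *
        (2 * lam * ((Q : ℝ) ^ k + 1) + 1024 * (H : ℝ) ^ 8)) := by
    calc (V ^ (2 * k) * (P.card : ℝ) ^ k) * (θ ^ (2 * k) * (P.card : ℝ) ^ k)
        = (θ * V * P.card) ^ (2 * k) := by
          rw [mul_pow, mul_pow, two_mul k, pow_add (P.card : ℝ)]; ring
      _ ≤ _ := h1
      _ = (V ^ (2 * (k - 1)) * V ^ 2 * (P.card : ℝ) ^ k) * ((k : ℝ) ^ k *
        (2 * lam * ((Q : ℝ) ^ k + 1) + 1024 * (H : ℝ) ^ 8)) := by ring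
      _ = _ := by rw [hVk]
  exact le_of_mul_le_mul_left h2 (by positivity)

/-- Logarithms are eventually smaller than powers. -/
theorem ev_log (a b δ : ℝ) (hδ : 0 < δ) :
    ∀ᶠ Q : ℕ in atTop, a + b * Real.log Q ≤ (Q : ℝ) ^ δ := by
  have h1 : (fun x : ℝ => a + b * Real.log x) =o[atTop] fun x => x ^ δ := by
    refine IsLittleO.add ?_ ?_
    · refine isLittleO_const_left.2 (Or.inr ?_)
      have := tendsto_rpow_atTop hδ
      refine tendsto_norm_atTop_atTop.comp this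
    · exact (isLittleO_log_rpow_atTop hδ).const_mul_left b
  have h2 := h1.bound (c := 1) one_pos
  have h3 := tendsto_natCast_atTop_atTop.eventually h2
  filter_upwards [h3, eventually_ge_atTop 1] with Q hQ hQ1
  have hQ0 : (0 : ℝ) ≤ (Q : ℝ) ^ δ := by positivity
  rw [one_mul, Real.norm_of_nonneg hQ0] at hQ
  exact (le_abs_self _).trans hQ

/-- The divisor bound and the logarithm are smaller than a power. -/
theorem ev_div (ε : ℝ) (hε : 0 < ε) (K : ℕ) :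
    ∀ᶠ Q : ℕ in atTop, ∃ D : ℕ, (∀ n : ℕ, n ≠ 0 → (n : ℤ) ≤ 4 * ((Q ^ K : ℕ) : ℤ) ^ 2 →
      n.divisors.card ≤ D) ∧ (BB ((Q ^ K : ℕ) : ℤ) D : ℝ) ≤ (Q : ℝ) ^ (ε / 2) := by
  set δ : ℝ := ε / (24 * (K + 1)) with hδ
  have hδ0 : 0 < δ := by positivity
  obtain ⟨C, hC1, hC⟩ := Pool.Agent.helper47.RA.card_divisors_le δ hδ0
  set C1 : ℝ := 2 * (C * 4 ^ δ) ^ 3 with hC1d
  have hl : 0 < Real.log (3 / 2) := Real.log_pos (by norm_num)
  have hev := ev_log (C1 * (Real.log 8 / Real.log (3 / 2) + 5)) (C1 * (K / Real.log (3 / 2)))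
    (ε / 4) (by positivity)
  filter_upwards [hev, eventually_ge_atTop 1] with Q hQ hQ1
  have hQR : (1 : ℝ) ≤ Q := by exact_mod_cast hQ1
  refine ⟨⌊C * 4 ^ δ * (Q : ℝ) ^ (2 * K * δ)⌋₊, ?_, ?_⟩
  · intro n hn hnQ
    refine Nat.le_floor ((hC n (Nat.pos_of_ne_zero hn)).trans ?_)
    have h1 : (n : ℝ) ≤ 4 * ((Q : ℝ) ^ K) ^ 2 := by exact_mod_cast hnQ
    have h2 : (n : ℝ) ^ δ ≤ (4 * ((Q : ℝ) ^ K) ^ 2) ^ δ :=
      Real.rpow_le_rpow (by positivity) h1 hδ0.le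
    have h3 : (4 * ((Q : ℝ) ^ K) ^ 2) ^ δ = 4 ^ δ * (Q : ℝ) ^ (2 * K * δ) := by
      rw [Real.mul_rpow (by norm_num) (by positivity), ← pow_mul, ← Real.rpow_natCast,
        ← Real.rpow_mul (by positivity)]
      push_cast
      ring_nf
    rw [mul_assoc, ← h3]
    exact mul_le_mul_of_nonneg_left h2 (by linarith)
  · unfold BB LL
    have h4 : ((⌊C * 4 ^ δ * (Q : ℝ) ^ (2 * K * δ)⌋₊ : ℕ) : ℝ) ≤
        C * 4 ^ δ * (Q : ℝ) ^ (2 * K * δ) := Nat.floor_le (by positivity)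
    have h5 : ((⌊C * 4 ^ δ * (Q : ℝ) ^ (2 * K * δ)⌋₊ : ℕ) : ℝ) ^ 3 ≤
        (C * 4 ^ δ) ^ 3 * (Q : ℝ) ^ (ε / 4) := by
      calc _ ≤ (C * 4 ^ δ * (Q : ℝ) ^ (2 * K * δ)) ^ 3 := pow_le_pow_left₀ (by positivity) h4 3
        _ = (C * 4 ^ δ) ^ 3 * (Q : ℝ) ^ (2 * K * δ * 3) := by
            rw [mul_pow, ← Real.rpow_natCast ((Q : ℝ) ^ (2 * K * δ)) 3,
              ← Real.rpow_mul (by positivity)]
            norm_num
        _ ≤ _ := by
            refine mul_le_mul_of_nonneg_left ?_ (by positivity)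
            refine Real.rpow_le_rpow_of_exponent_le hQR ?_
            rw [hδ]
            have : (2 * K * (ε / (24 * (K + 1))) * 3 : ℝ) = ε / 4 * (K / (K + 1)) := by
              field_simp; ring
            rw [this]
            have h6 : (K : ℝ) / (K + 1) ≤ 1 := by
              rw [div_le_one (by positivity)]; linarith
            calc ε / 4 * ((K : ℝ) / (K + 1)) ≤ ε / 4 * 1 :=
                  mul_le_mul_of_nonneg_left h6 (by positivity)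
              _ = _ := mul_one _
    have hlog8 : 0 ≤ Real.log (2 * ((4 * ((Q ^ K : ℕ) : ℤ) : ℤ) : ℝ)) / Real.log (3 / 2) := by
      refine div_nonneg (Real.log_nonneg ?_) hl.le
      push_cast
      have : (1 : ℝ) ≤ (Q : ℝ) ^ K := one_le_pow₀ hQR
      linarith
    have h7 : (⌊Real.log (2 * ((4 * ((Q ^ K : ℕ) : ℤ) : ℤ) : ℝ)) / Real.log (3 / 2)⌋₊ : ℝ) ≤
        (Real.log 8 + K * Real.log Q) / Real.log (3 / 2) := by
      refine (Nat.floor_le hlog8).trans (le_of_eq ?_)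
      congr 1
      push_cast
      rw [show (2 : ℝ) * (4 * (Q : ℝ) ^ K) = 8 * (Q : ℝ) ^ K by ring,
        Real.log_mul (by norm_num) (by positivity), Real.log_pow]
    push_cast
    push_cast at h7
    have hlogQ : 0 ≤ Real.log Q := Real.log_nonneg hQR
    calc 2 * (((⌊Real.log (2 * (4 * (Q : ℝ) ^ K)) / Real.log (3 / 2)⌋₊ : ℝ) + 5) *
          ((⌊C * 4 ^ δ * (Q : ℝ) ^ (2 * K * δ)⌋₊ : ℕ) : ℝ) ^ 3)
        ≤ 2 * ((((Real.log 8 + K * Real.log Q) / Real.log (3 / 2)) + 5) *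
          ((C * 4 ^ δ) ^ 3 * (Q : ℝ) ^ (ε / 4))) := by
          refine mul_le_mul_of_nonneg_left ?_ (by norm_num)
          refine mul_le_mul (by linarith) h5 (by positivity) ?_
          have := Real.log_nonneg (show (1 : ℝ) ≤ 8 by norm_num)
          positivity
      _ = (C1 * (Real.log 8 / Real.log (3 / 2) + 5) + C1 * (K / Real.log (3 / 2)) * Real.log Q) *
          (Q : ℝ) ^ (ε / 4) := by rw [hC1d]; ring
      _ ≤ (Q : ℝ) ^ (ε / 4) * (Q : ℝ) ^ (ε / 4) :=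
          mul_le_mul_of_nonneg_right hQ (by positivity)
      _ = (Q : ℝ) ^ (ε / 2) := by
          rw [← Real.rpow_add (by linarith)]; ring_nf

/-- The bilinear sum. -/
noncomputable def SS (A B : Finset ℤ) (α β : ℤ → ℂ) (p : ℕ) : ℂ :=
  ∑ a ∈ A, ∑ b ∈ B, α a * β b * (hh (a + b) p : ℂ)

/-- Few primes are bad for a given pair of sets. -/
theorem bad_count (ε : ℝ) (hε : 0 < ε) (hε1 : ε ≤ 1) (K k : ℕ) (hk : k = 8 * K + 2) (τ : ℝ)
    (hτ : τ = ε / (32 * k)) :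
    ∀ᶠ Q : ℕ in atTop, ∀ A B : Finset ℤ, (∀ a ∈ A, |a| ≤ ((Q ^ K : ℕ) : ℤ)) →
      (∀ b ∈ B, |b| ≤ ((Q ^ K : ℕ) : ℤ)) → (Q : ℝ) ^ ε ≤ A.card → (Q : ℝ) ^ ε ≤ B.card →
      ∀ P : Finset ℕ, (∀ p ∈ P, p.Prime ∧ p ≤ Q ∧ ∃ α β : ℤ → ℂ, (∀ a ∈ A, ‖α a‖ ≤ 1) ∧
        (∀ b ∈ B, ‖β b‖ ≤ 1) ∧ (Q : ℝ) ^ (-τ) * (A.card * B.card) < ‖SS A B α β p‖) →
      (P.card : ℝ) ≤ 1028 * k * (Q : ℝ) ^ (1 - 8 * τ) := by
  have hk0 : 0 < k := by omega
  have hke : Even k := ⟨4 * K + 1, by omega⟩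
  filter_upwards [ev_div ε hε K, eventually_ge_atTop 1] with Q hQ hQ1
  obtain ⟨D, hD, hBB⟩ := hQ
  intro A B hA hB hAc hBc P hP
  have hQR : (1 : ℝ) ≤ Q := by exact_mod_cast hQ1
  have hQ0 : (0 : ℝ) < Q := by linarith
  have hA0' : (0 : ℝ) < A.card := lt_of_lt_of_le (by positivity) hAc
  have hB0' : (0 : ℝ) < B.card := lt_of_lt_of_le (by positivity) hBc
  have hA0 : 0 < A.card := by exact_mod_cast hA0'
  have hB0 : 0 < B.card := by exact_mod_cast hB0'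
  have hmain := card_pow_le A B (Q ^ K) D Q k ((Q : ℝ) ^ (-(4 * τ))) ((Q : ℝ) ^ (-(ε / 2)))
    hke hk0 (by positivity) (by positivity) hA hB hD ?_ ?_ hA0 hB0 P (fun p hp => (hP p hp).1)
    (fun p hp => (hP p hp).2.1) ?_
  · have hkR : (0 : ℝ) < k := by exact_mod_cast hk0
    have hk1 : (1 : ℝ) ≤ k := by exact_mod_cast hk0
    have hk8 : (k : ℝ) = 8 * K + 2 := by rw [hk]; push_cast; ring
    have e1 : ((Q : ℝ) ^ (-(4 * τ))) ^ (2 * k) = (Q : ℝ) ^ (-(ε / 4)) := by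
      rw [← Real.rpow_natCast, ← Real.rpow_mul hQ0.le]
      congr 1
      rw [hτ]; push_cast; field_simp; ring
    have e2 : 2 * (Q : ℝ) ^ (-(ε / 2)) * ((Q : ℝ) ^ k + 1) ≤ 4 * (Q : ℝ) ^ ((k : ℝ) - ε / 2) := by
      have h1 : (Q : ℝ) ^ k + 1 ≤ 2 * (Q : ℝ) ^ k := by
        have := one_le_pow₀ hQR (n := k); linarith
      calc 2 * (Q : ℝ) ^ (-(ε / 2)) * ((Q : ℝ) ^ k + 1) ≤
            2 * (Q : ℝ) ^ (-(ε / 2)) * (2 * (Q : ℝ) ^ k) :=
            mul_le_mul_of_nonneg_left h1 (by positivity)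
        _ = 4 * ((Q : ℝ) ^ (k : ℝ) * (Q : ℝ) ^ (-(ε / 2))) := by
            rw [Real.rpow_natCast]; ring
        _ = _ := by rw [← Real.rpow_add hQ0]; ring_nf
    have e3 : 1024 * (((Q ^ K : ℕ) : ℝ)) ^ 8 ≤ 1024 * (Q : ℝ) ^ ((k : ℝ) - ε / 2) := by
      refine mul_le_mul_of_nonneg_left ?_ (by norm_num)
      push_cast
      rw [← pow_mul, ← Real.rpow_natCast]
      refine Real.rpow_le_rpow_of_exponent_le hQR ?_
      rw [hk8]; push_cast; linarith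
    have e4 : (Q : ℝ) ^ (-(ε / 4)) * (P.card : ℝ) ^ k ≤
        (k : ℝ) ^ k * (1028 * (Q : ℝ) ^ ((k : ℝ) - ε / 2)) := by
      rw [← e1]
      refine hmain.trans (mul_le_mul_of_nonneg_left ?_ (by positivity))
      linarith
    have e5 : (P.card : ℝ) ^ k ≤ (1028 * k * (Q : ℝ) ^ (1 - 8 * τ)) ^ k := by
      have e6 : (P.card : ℝ) ^ k = (Q : ℝ) ^ (ε / 4) *
          ((Q : ℝ) ^ (-(ε / 4)) * (P.card : ℝ) ^ k) := by
        rw [← mul_assoc, ← Real.rpow_add hQ0]; simp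
      rw [e6]
      calc (Q : ℝ) ^ (ε / 4) * ((Q : ℝ) ^ (-(ε / 4)) * (P.card : ℝ) ^ k)
          ≤ (Q : ℝ) ^ (ε / 4) * ((k : ℝ) ^ k * (1028 * (Q : ℝ) ^ ((k : ℝ) - ε / 2))) :=
            mul_le_mul_of_nonneg_left e4 (by positivity)
        _ = 1028 * (k : ℝ) ^ k * ((Q : ℝ) ^ (ε / 4) * (Q : ℝ) ^ ((k : ℝ) - ε / 2)) := by ring
        _ = 1028 * (k : ℝ) ^ k * (Q : ℝ) ^ ((1 - 8 * τ) * k) := by
            rw [← Real.rpow_add hQ0]
            congr 2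
            rw [hτ]; field_simp; ring
        _ ≤ 1028 ^ k * (k : ℝ) ^ k * (Q : ℝ) ^ ((1 - 8 * τ) * k) := by
            refine mul_le_mul_of_nonneg_right (mul_le_mul_of_nonneg_right ?_ (by positivity))
              (by positivity)
            exact le_self_pow₀ (by norm_num) hk0.ne'
        _ = _ := by
            rw [mul_pow, mul_pow, ← Real.rpow_natCast ((Q : ℝ) ^ (1 - 8 * τ)) k,
              ← Real.rpow_mul hQ0.le]
    exact (pow_le_pow_iff_left₀ (by positivity) (by positivity) hk0.ne').1 e5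
  · calc (BB ((Q ^ K : ℕ) : ℤ) D : ℝ) ≤ (Q : ℝ) ^ (ε / 2) := hBB
      _ = (Q : ℝ) ^ (-(ε / 2)) * (Q : ℝ) ^ ε := by
          rw [← Real.rpow_add hQ0]; ring_nf
      _ ≤ _ := mul_le_mul_of_nonneg_left hAc (by positivity)
  · calc (1 : ℝ) ≤ (Q : ℝ) ^ (ε / 2) := Real.one_le_rpow hQR (by positivity)
      _ = (Q : ℝ) ^ (-(ε / 2)) * (Q : ℝ) ^ ε := by
          rw [← Real.rpow_add hQ0]; ring_nf
      _ ≤ _ := mul_le_mul_of_nonneg_left hBc (by positivity)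
  · intro p hp
    obtain ⟨hp1, hp2, α, β, hα, hβ, hlt⟩ := hP p hp
    have h1 := cs_hh A B α β hα hβ p hp1.one_lt
    have h2 : ((Q : ℝ) ^ (-τ) * (A.card * B.card)) ^ 4 ≤ ‖SS A B α β p‖ ^ 4 :=
      pow_le_pow_left₀ (by positivity) hlt.le 4
    have h3 : ((Q : ℝ) ^ (-τ) * (A.card * B.card)) ^ 4 = ((A.card : ℝ) ^ 2 * (B.card : ℝ) ^ 2) *
        ((Q : ℝ) ^ (-(4 * τ)) * ((A.card : ℝ) ^ 2 * (B.card : ℝ) ^ 2)) := by
      rw [mul_pow, ← Real.rpow_natCast ((Q : ℝ) ^ (-τ)) 4, ← Real.rpow_mul hQ0.le]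
      push_cast
      ring_nf
    have h4 : ((A.card : ℝ) ^ 2 * (B.card : ℝ) ^ 2) *
        ((Q : ℝ) ^ (-(4 * τ)) * ((A.card : ℝ) ^ 2 * (B.card : ℝ) ^ 2)) ≤
        ((A.card : ℝ) ^ 2 * (B.card : ℝ) ^ 2) * (TT (II A B) xx p : ℝ) := by
      rw [← h3]; exact h2.trans h1
    exact le_of_mul_le_mul_left h4 (by positivity)

end Pool.Agent.helper85.PG
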