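import Pool.Agent.helper85.PG.B

/-!
# All segments of countably many sets at once
-/

namespace Pool.Agent.helper85.PG

open Finset Filter Asymptotics

open Classical in
/-- The elements of `S` in `[-x, x]`. -/
noncomputable def seg (S : Set ℤ) (x : ℕ) : Finset ℤ :=
  (Finset.Icc (-(x : ℤ)) x).filter (fun a => a ∈ S)

/-- The bilinear sum with the Jacobi symbol (the Legendre symbol for prime `p`). -/
noncomputable def bil (A B : Finset ℤ) (α β : ℤ → ℂ) (p : ℕ) : ℂ :=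
  ∑ a ∈ A, ∑ b ∈ B, α a * β b * (jacobiSym (a + b) p : ℂ)

/-- The prime `p` is bad for the sequences `SA`, `SB`. -/
def Bad (SA SB : ℕ → Set ℤ) (ε : ℝ) (K : ℕ) (τ : ℝ) (p : ℕ) : Prop :=
  ∃ i j x y : ℕ, (i : ℝ) ≤ (p : ℝ) ^ τ ∧ (j : ℝ) ≤ (p : ℝ) ^ τ ∧ x ≤ p ^ K ∧ y ≤ p ^ K ∧
    (p : ℝ) ^ ε ≤ (seg (SA i) x).card ∧ (p : ℝ) ^ ε ≤ (seg (SB j) y).card ∧
    ∃ α β : ℤ → ℂ, (∀ a, ‖α a‖ ≤ 1) ∧ (∀ b, ‖β b‖ ≤ 1) ∧
      (p : ℝ) ^ (-τ) * ((seg (SA i) x).card * (seg (SB j) y).card) <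
        ‖bil (seg (SA i) x) (seg (SB j) y) α β p‖

theorem mem_seg {S : Set ℤ} {x : ℕ} {a : ℤ} : a ∈ seg S x ↔ |a| ≤ x ∧ a ∈ S := by
  classical
  rw [seg, Finset.mem_filter, Finset.mem_Icc, abs_le]

theorem seg_mono (S : Set ℤ) {x y : ℕ} (h : x ≤ y) : seg S x ⊆ seg S y := by
  intro a ha
  rw [mem_seg] at ha ⊢
  exact ⟨ha.1.trans (by exact_mod_cast h), ha.2⟩

theorem seg_card_le (S : Set ℤ) (x : ℕ) : (seg S x).card ≤ 2 * x + 1 := by
  classical
  refine (Finset.card_filter_le _ _).trans ?_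
  rw [Int.card_Icc]; omega

open Classical in
/-- The largest segment with at most `2 ^ u` elements. -/
noncomputable def top (S : Set ℤ) (Z u : ℕ) : Finset ℤ :=
  seg S (Nat.findGreatest (fun x => (seg S x).card ≤ 2 ^ u) Z)

theorem top_bound (S : Set ℤ) (Z u : ℕ) : ∀ a ∈ top S Z u, |a| ≤ Z := by
  classical
  intro a ha
  rw [top, mem_seg] at ha
  exact ha.1.trans (by exact_mod_cast Nat.findGreatest_le _)

theorem exists_top (S : Set ℤ) (Z x : ℕ) (hx : x ≤ Z) (h0 : 0 < (seg S x).card) :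
    ∃ u, u < Nat.log 2 (2 * Z + 1) + 2 ∧ seg S x ⊆ top S Z u ∧
      (top S Z u).card ≤ 2 * (seg S x).card := by
  classical
  set n := (seg S x).card with hn
  have h1 : n < 2 ^ (Nat.log 2 n + 1) := Nat.lt_pow_succ_log_self (by norm_num) n
  have h2 : 2 ^ Nat.log 2 n ≤ n := Nat.pow_log_le_self 2 h0.ne'
  refine ⟨Nat.log 2 n + 1, ?_, ?_, ?_⟩
  · have h3 : n ≤ 2 * Z + 1 := (seg_card_le S x).trans (by omega)
    have := Nat.log_mono_right (b := 2) h3
    omega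
  · exact seg_mono S (Nat.le_findGreatest hx h1.le)
  · have h4 := Nat.findGreatest_spec (P := fun x => (seg S x).card ≤ 2 ^ (Nat.log 2 n + 1)) hx h1.le
    have h5 : (top S Z (Nat.log 2 n + 1)).card ≤ 2 ^ (Nat.log 2 n + 1) := h4
    rw [pow_succ] at h5
    omega

/-- Weights supported on a subset. -/
theorem bil_extend (A B A' B' : Finset ℤ) (hA : A ⊆ A') (hB : B ⊆ B') (α β : ℤ → ℂ)
    (hα : ∀ a, ‖α a‖ ≤ 1) (hβ : ∀ b, ‖β b‖ ≤ 1) (p : ℕ) (hp : Odd p) :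
    ∃ α' β' : ℤ → ℂ, (∀ a ∈ A', ‖α' a‖ ≤ 1) ∧ (∀ b ∈ B', ‖β' b‖ ≤ 1) ∧
      SS A' B' α' β' p = bil A B α β p := by
  classical
  refine ⟨fun a => if a ∈ A then α a else 0, fun b => if b ∈ B then β b else 0, ?_, ?_, ?_⟩
  · intro a _
    dsimp only
    split_ifs
    · exact hα a
    · simp
  · intro a _
    dsimp only
    split_ifs
    · exact hβ a
    · simp
  · unfold SS bil
    have h1 : ∀ a ∈ A', (∑ b ∈ B', (if a ∈ A then α a else 0) * (if b ∈ B then β b else 0) *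
        (hh (a + b) p : ℂ)) =
        if a ∈ A then ∑ b ∈ B, α a * β b * (jacobiSym (a + b) p : ℂ) else 0 := by
      intro a _
      by_cases ha : a ∈ A
      · simp only [if_pos ha]
        rw [← Finset.sum_subset hB]
        · refine Finset.sum_congr rfl fun b hb => ?_
          rw [if_pos hb, hh, if_pos hp]
        · intro b _ hb
          rw [if_neg hb]; ring
      · simp [ha]
    rw [Finset.sum_congr rfl h1, Finset.sum_ite_mem, Finset.inter_eq_right.2 hA]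

theorem block (ε : ℝ) (hε : 0 < ε) (K k : ℕ) (hk : k = 8 * K + 2) (τ0 : ℝ)
    (hτ0 : τ0 = (min ε 1 / 2) / (32 * k)) :
    ∀ᶠ Q : ℕ in atTop, ∀ SA SB : ℕ → Set ℤ, ∀ P : Finset ℕ,
      (∀ p ∈ P, p.Prime ∧ p ≤ Q ∧ Q < 2 * p + 2 ∧ Bad SA SB ε K (τ0 / 2) p) →
      (P.card : ℝ) ≤ 4112 * k * (Q : ℝ) ^ (1 - τ0 / 2) := by
  classical
  set ε' : ℝ := min ε 1 / 2 with hε'
  have hε'0 : 0 < ε' := by rw [hε']; have := lt_min hε one_pos; linarith
  have hε'1 : ε' ≤ 1 := by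
    have : min ε 1 ≤ 1 := min_le_right _ _
    rw [hε']; linarith
  have hk0 : 0 < k := by omega
  have hkR : (0 : ℝ) < k := by exact_mod_cast hk0
  have hk1 : (1 : ℝ) ≤ k := by exact_mod_cast hk0
  have hτ00 : 0 < τ0 := by rw [hτ0]; positivity
  have hτ01 : τ0 ≤ ε' / 32 := by
    rw [hτ0]; exact div_le_div_of_nonneg_left hε'0.le (by norm_num) (by linarith)
  have hbad := bad_count ε' hε'0 hε'1 K k hk τ0 hτ0
  have hlog2 : 0 < Real.log 2 := Real.log_pos (by norm_num)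
  have hev1 := ev_log (Real.log 3 / Real.log 2 + 3) (K / Real.log 2) (τ0 / 2) (by positivity)
  have hev2 := ev_log 16 0 (τ0 / 2) (by positivity)
  filter_upwards [hbad, hev1, hev2, eventually_ge_atTop 16] with Q hQ hU h16 hQ4
  rw [zero_mul, add_zero] at h16
  intro SA SB P hP
  have hQR : (16 : ℝ) ≤ Q := by exact_mod_cast hQ4
  have hQ0 : (0 : ℝ) < Q := by linarith
  have hQ1 : (1 : ℝ) ≤ Q := by linarith
  set Z := Q ^ K with hZ
  set U := Nat.log 2 (2 * Z + 1) + 2 with hUd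
  set R := ⌊(Q : ℝ) ^ (τ0 / 2)⌋₊ + 1 with hR
  set idx := (range R ×ˢ range U) ×ˢ (range R ×ˢ range U) with hidx
  set PP : (ℕ × ℕ) × (ℕ × ℕ) → Finset ℕ := fun q =>
    (range (Q + 1)).filter (fun p => p.Prime ∧
      (Q : ℝ) ^ ε' ≤ (top (SA q.1.1) Z q.1.2).card ∧
      (Q : ℝ) ^ ε' ≤ (top (SB q.2.1) Z q.2.2).card ∧
      ∃ α β : ℤ → ℂ, (∀ a ∈ top (SA q.1.1) Z q.1.2, ‖α a‖ ≤ 1) ∧
        (∀ b ∈ top (SB q.2.1) Z q.2.2, ‖β b‖ ≤ 1) ∧
        (Q : ℝ) ^ (-τ0) * ((top (SA q.1.1) Z q.1.2).card * (top (SB q.2.1) Z q.2.2).card) <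
          ‖SS (top (SA q.1.1) Z q.1.2) (top (SB q.2.1) Z q.2.2) α β p‖) with hPP
  have hPPcard : ∀ q ∈ idx, ((PP q).card : ℝ) ≤ 1028 * k * (Q : ℝ) ^ (1 - 8 * τ0) := by
    intro q _
    rcases (PP q).eq_empty_or_nonempty with h | ⟨p0, hp0⟩
    · rw [h]; simp; positivity
    · obtain ⟨-, -, c1, c2, -⟩ := Finset.mem_filter.1 hp0
      refine hQ (top (SA q.1.1) Z q.1.2) (top (SB q.2.1) Z q.2.2) (top_bound _ _ _)
        (top_bound _ _ _) c1 c2 (PP q) ?_
      intro p hp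
      obtain ⟨d1, d2, -, -, d3⟩ := Finset.mem_filter.1 hp
      exact ⟨d2, Nat.lt_succ_iff.1 (Finset.mem_range.1 d1), d3⟩
  have hsub : P ⊆ idx.biUnion PP := by
    intro p hp
    obtain ⟨hpp, hpQ, hQp, i, j, x, y, hi, hj, hx, hy, hAc, hBc, α, β, hα, hβ, hlt⟩ := hP p hp
    have hp8 : 7 ≤ p := by omega
    have hodd : Odd p := hpp.odd_of_ne_two (by omega)
    have hpR : (7 : ℝ) ≤ p := by exact_mod_cast hp8
    have hp0 : (0 : ℝ) < p := by linarith
    have hpQR : (p : ℝ) ≤ Q := by exact_mod_cast hpQ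
    have hQpR : (Q : ℝ) ≤ (p : ℝ) ^ (2 : ℝ) := by
      have : (Q : ℝ) < 2 * p + 2 := by exact_mod_cast hQp
      rw [Real.rpow_two]; nlinarith
    have hA0 : 0 < (seg (SA i) x).card := by
      have : (0 : ℝ) < (seg (SA i) x).card := lt_of_lt_of_le (by positivity) hAc
      exact_mod_cast this
    have hB0 : 0 < (seg (SB j) y).card := by
      have : (0 : ℝ) < (seg (SB j) y).card := lt_of_lt_of_le (by positivity) hBc
      exact_mod_cast this
    have hxZ : x ≤ Z := hx.trans (Nat.pow_le_pow_left hpQ K)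
    have hyZ : y ≤ Z := hy.trans (Nat.pow_le_pow_left hpQ K)
    obtain ⟨u, hu1, hu2, hu3⟩ := exists_top (SA i) Z x hxZ hA0
    obtain ⟨v, hv1, hv2, hv3⟩ := exists_top (SB j) Z y hyZ hB0
    obtain ⟨α', β', hα', hβ', hSS⟩ := bil_extend _ _ _ _ hu2 hv2 α β hα hβ p hodd
    have hcardA : ((seg (SA i) x).card : ℝ) ≤ (top (SA i) Z u).card := by
      exact_mod_cast Finset.card_le_card hu2
    have hcardB : ((seg (SB j) y).card : ℝ) ≤ (top (SB j) Z v).card := by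
      exact_mod_cast Finset.card_le_card hv2
    have hQε : (Q : ℝ) ^ ε' ≤ (p : ℝ) ^ ε := by
      calc (Q : ℝ) ^ ε' ≤ ((p : ℝ) ^ (2 : ℝ)) ^ ε' := Real.rpow_le_rpow hQ0.le hQpR hε'0.le
        _ = (p : ℝ) ^ (2 * ε') := by rw [← Real.rpow_mul hp0.le]
        _ ≤ (p : ℝ) ^ ε := by
            refine Real.rpow_le_rpow_of_exponent_le (by linarith) ?_
            rw [hε']; have := min_le_left ε 1; linarith
    refine Finset.mem_biUnion.2 ⟨((i, u), (j, v)), ?_, ?_⟩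
    · have hpτ : (p : ℝ) ^ (τ0 / 2) ≤ (Q : ℝ) ^ (τ0 / 2) :=
        Real.rpow_le_rpow hp0.le hpQR (by positivity)
      refine Finset.mem_product.2 ⟨Finset.mem_product.2 ⟨Finset.mem_range.2 ?_,
        Finset.mem_range.2 hu1⟩, Finset.mem_product.2 ⟨Finset.mem_range.2 ?_,
        Finset.mem_range.2 hv1⟩⟩
      · exact Nat.lt_succ_of_le (Nat.le_floor (hi.trans hpτ))
      · exact Nat.lt_succ_of_le (Nat.le_floor (hj.trans hpτ))
    · refine Finset.mem_filter.2 ⟨Finset.mem_range.2 (by omega), hpp, hQε.trans (hAc.trans hcardA),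
        hQε.trans (hBc.trans hcardB), α', β', hα', hβ', ?_⟩
      rw [hSS]
      refine lt_of_le_of_lt ?_ hlt
      have g1 : ((top (SA i) Z u).card : ℝ) ≤ 2 * (seg (SA i) x).card := by exact_mod_cast hu3
      have g2 : ((top (SB j) Z v).card : ℝ) ≤ 2 * (seg (SB j) y).card := by exact_mod_cast hv3
      have g3 : (Q : ℝ) ^ (-τ0) * 4 ≤ (p : ℝ) ^ (-(τ0 / 2)) := by
        have g4 : (Q : ℝ) ^ (-(τ0 / 2)) ≤ (p : ℝ) ^ (-(τ0 / 2)) :=
          Real.rpow_le_rpow_of_nonpos hp0 hpQR (by linarith)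
        have g5 : (Q : ℝ) ^ (-τ0) = (Q : ℝ) ^ (-(τ0 / 2)) * (Q : ℝ) ^ (-(τ0 / 2)) := by
          rw [← Real.rpow_add hQ0]; ring_nf
        have g6 : (Q : ℝ) ^ (-(τ0 / 2)) * 4 ≤ 1 := by
          rw [Real.rpow_neg hQ0.le, inv_mul_le_iff₀ (by positivity)]
          linarith
        calc (Q : ℝ) ^ (-τ0) * 4 = (Q : ℝ) ^ (-(τ0 / 2)) * ((Q : ℝ) ^ (-(τ0 / 2)) * 4) := by
              rw [g5]; ring
          _ ≤ (Q : ℝ) ^ (-(τ0 / 2)) * 1 := mul_le_mul_of_nonneg_left g6 (by positivity)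
          _ ≤ _ := by rw [mul_one]; exact g4
      calc (Q : ℝ) ^ (-τ0) * (((top (SA i) Z u).card : ℝ) * ((top (SB j) Z v).card : ℝ))
          ≤ (Q : ℝ) ^ (-τ0) * ((2 * (seg (SA i) x).card) * (2 * (seg (SB j) y).card)) := by
            refine mul_le_mul_of_nonneg_left ?_ (by positivity)
            exact mul_le_mul g1 g2 (by positivity) (by positivity)
        _ = ((Q : ℝ) ^ (-τ0) * 4) * ((seg (SA i) x).card * (seg (SB j) y).card) := by ring
        _ ≤ _ := mul_le_mul_of_nonneg_right g3 (by positivity)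
  have hcard : (P.card : ℝ) ≤ (idx.card : ℝ) * (1028 * k * (Q : ℝ) ^ (1 - 8 * τ0)) := by
    calc (P.card : ℝ) ≤ ((idx.biUnion PP).card : ℝ) := by
          exact_mod_cast Finset.card_le_card hsub
      _ ≤ ((∑ q ∈ idx, (PP q).card : ℕ) : ℝ) := by exact_mod_cast Finset.card_biUnion_le
      _ = ∑ q ∈ idx, ((PP q).card : ℝ) := by push_cast; rfl
      _ ≤ ∑ _q ∈ idx, (1028 * k * (Q : ℝ) ^ (1 - 8 * τ0)) := Finset.sum_le_sum hPPcard
      _ = _ := by rw [Finset.sum_const, nsmul_eq_mul]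
  have hidxc : (idx.card : ℝ) = ((R : ℝ) * U) ^ 2 := by
    rw [hidx, Finset.card_product, Finset.card_product, Finset.card_range, Finset.card_range]
    push_cast; ring
  have hUb : (U : ℝ) ≤ (Q : ℝ) ^ (τ0 / 2) := by
    refine le_trans ?_ hU
    have h1 : ((Nat.log 2 (2 * Z + 1) : ℕ) : ℝ) ≤ Real.logb 2 ((2 * Z + 1 : ℕ) : ℝ) :=
      Real.natLog_le_logb _ _
    have hZ1 : (1 : ℝ) ≤ (Q : ℝ) ^ K := one_le_pow₀ hQ1
    have h2 : Real.logb 2 ((2 * Z + 1 : ℕ) : ℝ) ≤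
        Real.log 3 / Real.log 2 + K / Real.log 2 * Real.log Q := by
      rw [Real.logb, hZ]
      push_cast
      have h3 : Real.log (2 * (Q : ℝ) ^ K + 1) ≤ Real.log 3 + K * Real.log Q := by
        rw [← Real.log_pow, ← Real.log_mul (by norm_num) (by positivity)]
        exact Real.log_le_log (by positivity) (by linarith)
      calc Real.log (2 * (Q : ℝ) ^ K + 1) / Real.log 2 ≤
            (Real.log 3 + K * Real.log Q) / Real.log 2 :=
            div_le_div_of_nonneg_right h3 hlog2.le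
        _ = _ := by ring
    rw [hUd]; push_cast; push_cast at h1 h2; linarith
  have hRb : (R : ℝ) ≤ 2 * (Q : ℝ) ^ (τ0 / 2) := by
    have h1 : ((⌊(Q : ℝ) ^ (τ0 / 2)⌋₊ : ℕ) : ℝ) ≤ (Q : ℝ) ^ (τ0 / 2) := Nat.floor_le (by positivity)
    rw [hR]; push_cast; linarith
  have hidxb : (idx.card : ℝ) ≤ 4 * (Q : ℝ) ^ (2 * τ0) := by
    rw [hidxc]
    calc ((R : ℝ) * U) ^ 2 ≤ ((2 * (Q : ℝ) ^ (τ0 / 2)) * (Q : ℝ) ^ (τ0 / 2)) ^ 2 := by
          refine pow_le_pow_left₀ (by positivity) ?_ 2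
          exact mul_le_mul hRb hUb (by positivity) (by positivity)
      _ = 4 * ((Q : ℝ) ^ (τ0 / 2)) ^ 4 := by ring
      _ = 4 * (Q : ℝ) ^ (2 * τ0) := by
          rw [← Real.rpow_natCast, ← Real.rpow_mul hQ0.le]; norm_num; ring_nf
  calc (P.card : ℝ) ≤ (idx.card : ℝ) * (1028 * k * (Q : ℝ) ^ (1 - 8 * τ0)) := hcard
    _ ≤ (4 * (Q : ℝ) ^ (2 * τ0)) * (1028 * k * (Q : ℝ) ^ (1 - 8 * τ0)) :=
        mul_le_mul_of_nonneg_right hidxb (by positivity)
    _ = 4112 * k * ((Q : ℝ) ^ (2 * τ0) * (Q : ℝ) ^ (1 - 8 * τ0)) := by ring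
    _ = 4112 * k * (Q : ℝ) ^ (1 - 6 * τ0) := by rw [← Real.rpow_add hQ0]; ring_nf
    _ ≤ _ := by
        refine mul_le_mul_of_nonneg_left ?_ (by positivity)
        exact Real.rpow_le_rpow_of_exponent_le hQ1 (by linarith)

open Classical in
theorem main (ε : ℝ) (hε : 0 < ε) (K : ℕ) :
    ∃ τ : ℝ, 0 < τ ∧ ∃ C : ℝ, ∀ (SA SB : ℕ → Set ℤ) (Q : ℕ), 1 ≤ Q →
      (((range (Q + 1)).filter (fun p => p.Prime ∧ Bad SA SB ε K τ p)).card : ℝ) ≤
        C * (Q : ℝ) ^ (1 - τ) := by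
  set k := 8 * K + 2 with hk
  set τ0 : ℝ := (min ε 1 / 2) / (32 * k) with hτ0
  have hk0 : 0 < k := by omega
  have hkR : (0 : ℝ) < k := by exact_mod_cast hk0
  have hk1 : (1 : ℝ) ≤ k := by exact_mod_cast hk0
  have hm0 : 0 < min ε 1 := lt_min hε one_pos
  have hm1 : min ε 1 ≤ 1 := min_le_right _ _
  have hτ00 : 0 < τ0 := by rw [hτ0]; positivity
  have hτ01 : τ0 ≤ 1 / 32 := by
    rw [hτ0, div_le_div_iff₀ (by positivity) (by norm_num)]
    nlinarith
  obtain ⟨Q1, hQ1⟩ := eventually_atTop.1 (block ε hε K k hk τ0 hτ0)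
  set C : ℝ := 2 * Q1 + 4 + 4 * (4112 * k) with hC
  have hC0 : 0 ≤ C := by positivity
  refine ⟨τ0 / 2, by positivity, C, ?_⟩
  intro SA SB Q
  induction Q using Nat.strong_induction_on with
  | _ Q ih =>
    intro hQ
    have hQR : (1 : ℝ) ≤ Q := by exact_mod_cast hQ
    have hpow1 : (1 : ℝ) ≤ (Q : ℝ) ^ (1 - τ0 / 2) := Real.one_le_rpow hQR (by linarith)
    rcases lt_or_ge Q (max Q1 2) with h | h
    · have h1 : (((range (Q + 1)).filter (fun p => p.Prime ∧ Bad SA SB ε K (τ0 / 2) p)).card : ℝ) ≤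
          Q + 1 := by
        have := Finset.card_filter_le (range (Q + 1))
          (fun p => p.Prime ∧ Bad SA SB ε K (τ0 / 2) p)
        rw [Finset.card_range] at this
        exact_mod_cast this
      have h2 : (Q : ℝ) ≤ Q1 + 2 := by
        have : Q ≤ Q1 + 2 := by
          rcases le_total Q1 2 with h' | h'
          · rw [max_eq_right h'] at h; omega
          · rw [max_eq_left h'] at h; omega
        exact_mod_cast this
      have h3 : (Q : ℝ) + 1 ≤ C := by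
        rw [hC]
        have : (0 : ℝ) ≤ Q1 := by positivity
        nlinarith
      calc _ ≤ (Q : ℝ) + 1 := h1
        _ ≤ C * 1 := by linarith
        _ ≤ _ := mul_le_mul_of_nonneg_left hpow1 hC0
    · have hQQ1 : Q1 ≤ Q := (le_max_left _ _).trans h
      have hQ2 : 2 ≤ Q := (le_max_right _ _).trans h
      have hih := ih (Q / 2) (by omega) (by omega)
      set P := ((range (Q + 1)).filter (fun p => p.Prime ∧ Bad SA SB ε K (τ0 / 2) p)).filter
        (fun p => Q / 2 < p) with hP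
      have hblk := hQ1 Q hQQ1 SA SB P (by
        intro p hp
        obtain ⟨hp1, hp2⟩ := Finset.mem_filter.1 hp
        obtain ⟨hp3, hp4, hp5⟩ := Finset.mem_filter.1 hp1
        exact ⟨hp4, Nat.lt_succ_iff.1 (Finset.mem_range.1 hp3), by omega, hp5⟩)
      have hsplit : (range (Q + 1)).filter (fun p => p.Prime ∧ Bad SA SB ε K (τ0 / 2) p) ⊆
          ((range (Q / 2 + 1)).filter (fun p => p.Prime ∧ Bad SA SB ε K (τ0 / 2) p)) ∪ P := by
        intro p hp
        obtain ⟨hp1, hp2⟩ := Finset.mem_filter.1 hp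
        rw [Finset.mem_union]
        rcases lt_or_ge (Q / 2) p with h' | h'
        · exact Or.inr (Finset.mem_filter.2 ⟨hp, h'⟩)
        · exact Or.inl (Finset.mem_filter.2 ⟨Finset.mem_range.2 (by omega), hp2⟩)
      have hc : (((range (Q + 1)).filter (fun p => p.Prime ∧ Bad SA SB ε K (τ0 / 2) p)).card : ℝ) ≤
          (((range (Q / 2 + 1)).filter (fun p => p.Prime ∧ Bad SA SB ε K (τ0 / 2) p)).card : ℝ) +
            P.card := by
        exact_mod_cast (Finset.card_le_card hsplit).trans (Finset.card_union_le _ _)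
      have hhalf : (((Q / 2 : ℕ) : ℝ)) ^ (1 - τ0 / 2) ≤ 3 / 4 * (Q : ℝ) ^ (1 - τ0 / 2) := by
        have e1 : (((Q / 2 : ℕ) : ℝ)) ≤ (1 / 2) * Q := by
          have := Nat.cast_div_le (α := ℝ) (m := Q) (n := 2)
          push_cast at this; linarith
        calc (((Q / 2 : ℕ) : ℝ)) ^ (1 - τ0 / 2) ≤ ((1 / 2) * (Q : ℝ)) ^ (1 - τ0 / 2) :=
              Real.rpow_le_rpow (by positivity) e1 (by linarith)
          _ = (1 / 2) ^ (1 - τ0 / 2) * (Q : ℝ) ^ (1 - τ0 / 2) :=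
              Real.mul_rpow (by norm_num) (by positivity)
          _ ≤ _ := by
              refine mul_le_mul_of_nonneg_right ?_ (by positivity)
              have e2 : (1 / 2 : ℝ) ^ (1 - τ0 / 2) ≤ (1 / 2 : ℝ) ^ (1 / 2 : ℝ) :=
                Real.rpow_le_rpow_of_exponent_ge (by norm_num) (by norm_num) (by linarith)
              refine e2.trans ?_
              rw [← Real.sqrt_eq_rpow, Real.sqrt_le_left (by norm_num)]
              norm_num
      have hfin : C * (((Q / 2 : ℕ) : ℝ)) ^ (1 - τ0 / 2) ≤ C * (3 / 4 * (Q : ℝ) ^ (1 - τ0 / 2)) :=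
        mul_le_mul_of_nonneg_left hhalf hC0
      have hC4 : 4112 * (k : ℝ) ≤ C / 4 := by
        rw [hC]
        have : (0 : ℝ) ≤ Q1 := by positivity
        linarith
      have hlast : 4112 * (k : ℝ) * (Q : ℝ) ^ (1 - τ0 / 2) ≤ C / 4 * (Q : ℝ) ^ (1 - τ0 / 2) :=
        mul_le_mul_of_nonneg_right hC4 (by positivity)
      linarith

end Pool.Agent.helper85.PG
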