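import Mathlib

/-!
# Counting solutions of `X ^ 2 = s W ^ 2 + m ^ 2`
-/

namespace Pool.Agent.helper85.PG

open Finset

/-- Two solutions in the same class are multiplicatively separated. -/
theorem ratio_ge (s M a1 b1 a2 b2 : ℤ) (hs : 1 ≤ s) (hM : 0 < M) (ha1 : 0 ≤ a1) (ha2 : 0 ≤ a2)
    (hb1 : 1 ≤ b1) (hb : b1 < b2) (h1 : a1 ^ 2 = s * b1 ^ 2 + M) (h2 : a2 ^ 2 = s * b2 ^ 2 + M)
    (hd : M ∣ 2 * (a1 * b2 - a2 * b1)) :
    (3 / 2 : ℝ) * (a1 + b1 * √(s : ℝ)) ≤ a2 + b2 * √(s : ℝ) := by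
  have hD1 : (a1 * b2 - a2 * b1) * (a1 * b2 + a2 * b1) = M * (b2 ^ 2 - b1 ^ 2) := by
    linear_combination b2 ^ 2 * h1 - b1 ^ 2 * h2
  have hD2 : 0 < M * (b2 ^ 2 - b1 ^ 2) := mul_pos hM (by nlinarith)
  have hD3 : 0 ≤ a1 * b2 + a2 * b1 := by
    have := mul_nonneg ha1 (by linarith : (0 : ℤ) ≤ b2)
    have := mul_nonneg ha2 (by linarith : (0 : ℤ) ≤ b1)
    linarith
  have hD : 0 < a1 * b2 - a2 * b1 := by
    rw [← hD1] at hD2
    exact pos_of_mul_pos_left hD2 hD3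
  have hMD : M ≤ 2 * (a1 * b2 - a2 * b1) := Int.le_of_dvd (by linarith) hd
  have hP1 : (a1 * a2 - s * b1 * b2) ^ 2 = M ^ 2 + s * (a1 * b2 - a2 * b1) ^ 2 := by
    linear_combination (a2 ^ 2 - s * b2 ^ 2) * h1 + M * h2
  have hP0 : 0 ≤ a1 * a2 - s * b1 * b2 := by
    have h3 : (s * b1 * b2) ^ 2 ≤ (a1 * a2) ^ 2 := by
      have e1 : (s * b1 * b2) ^ 2 = (s * b1 ^ 2) * (s * b2 ^ 2) := by ring
      have e2 : (a1 * a2) ^ 2 = a1 ^ 2 * a2 ^ 2 := by ring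
      rw [e1, e2]
      have q1 : 0 ≤ s * b1 ^ 2 := by positivity
      have q2 : 0 ≤ s * b2 ^ 2 := by positivity
      exact mul_le_mul (by linarith) (by linarith) q2 (by linarith)
    have h4 := abs_le_of_sq_le_sq' h3 (mul_nonneg ha1 ha2)
    linarith [h4.2]
  have hPM : M ≤ a1 * a2 - s * b1 * b2 := by
    have h3 : M ^ 2 ≤ (a1 * a2 - s * b1 * b2) ^ 2 := by
      rw [hP1]
      have : 0 ≤ s * (a1 * b2 - a2 * b1) ^ 2 := by positivity
      linarith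
    exact (abs_le_of_sq_le_sq' h3 hP0).2
  have hsR : (1 : ℝ) ≤ s := by exact_mod_cast hs
  set r := √(s : ℝ) with hr
  have hrr : r ^ 2 = s := Real.sq_sqrt (by linarith)
  have hr1 : 1 ≤ r := by
    rw [hr]; exact Real.one_le_sqrt.2 hsR
  have hMR : (0 : ℝ) < M := by exact_mod_cast hM
  have h1R : (a1 : ℝ) ^ 2 = s * b1 ^ 2 + M := by exact_mod_cast h1
  have hkey : (M : ℝ) * (a2 + b2 * r) = (a1 + b1 * r) *
      ((a1 * a2 - s * b1 * b2) + (a1 * b2 - a2 * b1) * r) := by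
    linear_combination (-(a2 : ℝ) - b2 * r) * h1R + (-(a1 : ℝ) * b1 * b2 + a2 * b1 ^ 2) * hrr
  have hPR : (M : ℝ) ≤ a1 * a2 - s * b1 * b2 := by exact_mod_cast hPM
  have hDR : (M : ℝ) / 2 ≤ a1 * b2 - a2 * b1 := by
    have : (M : ℝ) ≤ 2 * (a1 * b2 - a2 * b1) := by exact_mod_cast hMD
    linarith
  have hα : (0 : ℝ) ≤ a1 + b1 * r := by
    have e1 : (0 : ℝ) ≤ a1 := by exact_mod_cast ha1
    have e2 : (0 : ℝ) ≤ b1 := by exact_mod_cast (by linarith : (0 : ℤ) ≤ b1)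
    have := mul_nonneg e2 (by linarith : (0 : ℝ) ≤ r)
    linarith
  have h5 : (M : ℝ) / 2 ≤ (a1 * b2 - a2 * b1) * r := by
    calc (M : ℝ) / 2 ≤ (a1 * b2 - a2 * b1) * 1 := by linarith
      _ ≤ _ := mul_le_mul_of_nonneg_left hr1 (by linarith)
  have h6 : (M : ℝ) * (3 / 2 * (a1 + b1 * r)) ≤ M * (a2 + b2 * r) := by
    rw [hkey]
    calc (M : ℝ) * (3 / 2 * (a1 + b1 * r)) = (a1 + b1 * r) * (M + M / 2) := by ring
      _ ≤ _ := mul_le_mul_of_nonneg_left (by linarith) hα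
  exact le_of_mul_le_mul_left h6 hMR

theorem eq_of_snd (s M : ℤ) (p q : ℤ × ℤ) (hp0 : 0 ≤ p.1) (hq0 : 0 ≤ q.1)
    (hp : p.1 ^ 2 = s * p.2 ^ 2 + M) (hq : q.1 ^ 2 = s * q.2 ^ 2 + M) (h : p.2 = q.2) : p = q := by
  have h1 : p.1 ^ 2 = q.1 ^ 2 := by rw [hp, hq, h]
  have h2 : p.1 = q.1 := by
    rcases sq_eq_sq_iff_eq_or_eq_neg.1 h1 with h | h
    · exact h
    · omega
  exact Prod.ext h2 h

theorem fib_pos (s M X0 : ℤ) (hs : 1 ≤ s) (hM : 0 < M) (S : Finset (ℤ × ℤ))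
    (h0 : ∀ p ∈ S, 0 ≤ p.1) (hX : ∀ p ∈ S, p.1 ≤ X0) (h1 : ∀ p ∈ S, 1 ≤ p.2)
    (he : ∀ p ∈ S, p.1 ^ 2 = s * p.2 ^ 2 + M)
    (hd : ∀ p ∈ S, ∀ q ∈ S, M ∣ 2 * (p.1 * q.2 - q.1 * p.2)) :
    S.card ≤ ⌊Real.log (2 * X0) / Real.log (3 / 2)⌋₊ + 1 := by
  classical
  have hsR : (1 : ℝ) ≤ s := by exact_mod_cast hs
  set r := √(s : ℝ) with hr
  have hrr : r ^ 2 = s := Real.sq_sqrt (by linarith)
  have hr1 : 1 ≤ r := by
    rw [hr]; exact Real.one_le_sqrt.2 hsR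
  have hl : 0 < Real.log (3 / 2) := Real.log_pos (by norm_num)
  have hα1 : ∀ p ∈ S, (1 : ℝ) ≤ p.1 + p.2 * r := by
    intro p hp
    have e1 : (0 : ℝ) ≤ p.1 := by exact_mod_cast h0 p hp
    have e2 : (1 : ℝ) ≤ p.2 := by exact_mod_cast h1 p hp
    nlinarith
  have hα2 : ∀ p ∈ S, (p.1 : ℝ) + p.2 * r ≤ 2 * X0 := by
    intro p hp
    have e1 : (0 : ℝ) ≤ p.1 := by exact_mod_cast h0 p hp
    have e2 : (1 : ℝ) ≤ p.2 := by exact_mod_cast h1 p hp
    have e3 : (p.1 : ℝ) ≤ X0 := by exact_mod_cast hX p hp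
    have e4 : (p.1 : ℝ) ^ 2 = s * p.2 ^ 2 + M := by exact_mod_cast he p hp
    have e5 : (0 : ℝ) < M := by exact_mod_cast hM
    have e6 : (p.2 * r : ℝ) ^ 2 ≤ (p.1 : ℝ) ^ 2 := by
      rw [mul_pow, hrr, e4]; nlinarith
    have e7 := (abs_le_of_sq_le_sq' e6 e1).2
    linarith
  have hmain : ∀ p ∈ S, ∀ q ∈ S, p.2 < q.2 →
      ⌊Real.log (p.1 + p.2 * r) / Real.log (3 / 2)⌋₊ <
        ⌊Real.log (q.1 + q.2 * r) / Real.log (3 / 2)⌋₊ := by
    intro p hp q hq hpq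
    have e1 := ratio_ge s M p.1 p.2 q.1 q.2 hs hM (h0 p hp) (h0 q hq) (h1 p hp) hpq (he p hp)
      (he q hq) (hd p hp q hq)
    rw [← hr] at e1
    have e2 := hα1 p hp
    have e3 : Real.log (3 / 2) + Real.log (p.1 + p.2 * r) ≤ Real.log (q.1 + q.2 * r) := by
      rw [← Real.log_mul (by norm_num) (by linarith)]
      exact Real.log_le_log (by positivity) e1
    have e4 : Real.log (p.1 + p.2 * r) / Real.log (3 / 2) + 1 ≤
        Real.log (q.1 + q.2 * r) / Real.log (3 / 2) := by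
      rw [← div_self hl.ne', ← add_div]
      exact div_le_div_of_nonneg_right (by linarith) hl.le
    have e5 : 0 ≤ Real.log (p.1 + p.2 * r) / Real.log (3 / 2) :=
      div_nonneg (Real.log_nonneg e2) hl.le
    have e6 := Nat.floor_mono e4
    rw [Nat.floor_add_one e5] at e6
    omega
  have hcard : S.card ≤ (range (⌊Real.log (2 * X0) / Real.log (3 / 2)⌋₊ + 1)).card := by
    refine Finset.card_le_card_of_injOn
      (fun p => ⌊Real.log (p.1 + p.2 * r) / Real.log (3 / 2)⌋₊) ?_ ?_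
    · intro p hp
      have hp' : p ∈ S := hp
      have e1 := hα1 p hp'
      refine Finset.mem_coe.2 (Finset.mem_range.2 (Nat.lt_succ_of_le (Nat.floor_mono ?_)))
      exact div_le_div_of_nonneg_right (Real.log_le_log (by linarith) (hα2 p hp')) hl.le
    · intro p hp q hq hpq
      have hp' : p ∈ S := hp
      have hq' : q ∈ S := hq
      rcases lt_trichotomy p.2 q.2 with h | h | h
      · exact absurd hpq (hmain p hp' q hq' h).ne
      · exact eq_of_snd s M p q (h0 p hp') (h0 q hq') (he p hp') (he q hq') h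
      · exact absurd hpq (hmain q hq' p hp' h).ne'
  simpa using hcard

theorem fib_neg (s M : ℤ) (hs : s ≤ -1) (hM : 0 < M) (S : Finset (ℤ × ℤ))
    (h0 : ∀ p ∈ S, 0 ≤ p.1) (h1 : ∀ p ∈ S, 1 ≤ p.2)
    (he : ∀ p ∈ S, p.1 ^ 2 = s * p.2 ^ 2 + M)
    (hd : ∀ p ∈ S, ∀ q ∈ S, M ∣ 2 * (p.1 * q.2 - q.1 * p.2)) :
    S.card ≤ 5 := by
  classical
  rcases S.eq_empty_or_nonempty with rfl | ⟨r, hr⟩
  · simp
  have hcard : S.card ≤ (Finset.Icc (-2 : ℤ) 2).card := by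
    refine Finset.card_le_card_of_injOn
      (fun q => 2 * (r.1 * q.2 - q.1 * r.2) / M) ?_ ?_
    · intro q hq
      have hq' : q ∈ S := hq
      obtain ⟨t, ht⟩ := hd r hr q hq'
      have e1 : (r.1 * q.1 - s * r.2 * q.2) ^ 2 = M ^ 2 + s * (r.1 * q.2 - q.1 * r.2) ^ 2 := by
        linear_combination (q.1 ^ 2 - s * q.2 ^ 2) * he r hr + M * he q hq'
      have e2 : (r.1 * q.2 - q.1 * r.2) ^ 2 ≤ M ^ 2 := by
        have := sq_nonneg (r.1 * q.1 - s * r.2 * q.2)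
        have := sq_nonneg (r.1 * q.2 - q.1 * r.2)
        nlinarith
      have e3 := abs_le_of_sq_le_sq' e2 hM.le
      have e4 : 2 * (r.1 * q.2 - q.1 * r.2) / M = t := by
        rw [ht]; exact Int.mul_ediv_cancel_left _ hM.ne'
      refine Finset.mem_coe.2 ?_
      change 2 * (r.1 * q.2 - q.1 * r.2) / M ∈ Finset.Icc (-2 : ℤ) 2
      rw [e4, Finset.mem_Icc]
      constructor
      · nlinarith [e3.1]
      · nlinarith [e3.2]
    · intro p hp q hq hpq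
      have hp' : p ∈ S := hp
      have hq' : q ∈ S := hq
      obtain ⟨t, ht⟩ := hd r hr p hp'
      obtain ⟨u, hu⟩ := hd r hr q hq'
      have hpq' : 2 * (r.1 * p.2 - p.1 * r.2) / M = 2 * (r.1 * q.2 - q.1 * r.2) / M := hpq
      have e4 : 2 * (r.1 * p.2 - p.1 * r.2) / M = t := by
        rw [ht]; exact Int.mul_ediv_cancel_left _ hM.ne'
      have e5 : 2 * (r.1 * q.2 - q.1 * r.2) / M = u := by
        rw [hu]; exact Int.mul_ediv_cancel_left _ hM.ne'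
      rw [e4, e5] at hpq'
      rw [hpq', ← hu] at ht
      have hD : r.1 * p.2 - p.1 * r.2 = r.1 * q.2 - q.1 * r.2 := by omega
      have e1 : (r.1 * q.1 - s * r.2 * q.2) ^ 2 = M ^ 2 + s * (r.1 * q.2 - q.1 * r.2) ^ 2 := by
        linear_combination (q.1 ^ 2 - s * q.2 ^ 2) * he r hr + M * he q hq'
      have e2 : (r.1 * p.1 - s * r.2 * p.2) ^ 2 = M ^ 2 + s * (r.1 * p.2 - p.1 * r.2) ^ 2 := by
        linear_combination (p.1 ^ 2 - s * p.2 ^ 2) * he r hr + M * he p hp'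
      have e6 : (r.1 * p.1 - s * r.2 * p.2) ^ 2 = (r.1 * q.1 - s * r.2 * q.2) ^ 2 := by
        rw [e1, e2, hD]
      have e7 : 0 < r.1 * p.1 - s * r.2 * p.2 := by
        have w1 := mul_nonneg (h0 r hr) (h0 p hp')
        have w2 : 0 < (-s) * (r.2 * p.2) :=
          mul_pos (by linarith) (mul_pos (by linarith [h1 r hr]) (by linarith [h1 p hp']))
        nlinarith
      have e8 : 0 < r.1 * q.1 - s * r.2 * q.2 := by
        have w1 := mul_nonneg (h0 r hr) (h0 q hq')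
        have w2 : 0 < (-s) * (r.2 * q.2) :=
          mul_pos (by linarith) (mul_pos (by linarith [h1 r hr]) (by linarith [h1 q hq']))
        nlinarith
      have e9 : r.1 * p.1 - s * r.2 * p.2 = r.1 * q.1 - s * r.2 * q.2 := by
        rcases sq_eq_sq_iff_eq_or_eq_neg.1 e6 with h | h
        · exact h
        · omega
      have f1 : M * p.1 = M * q.1 := by
        linear_combination r.1 * e9 + s * r.2 * hD - (p.1 - q.1) * he r hr
      have f2 : M * p.2 = M * q.2 := by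
        linear_combination r.1 * hD + r.2 * e9 - (p.2 - q.2) * he r hr
      exact Prod.ext (mul_left_cancel₀ hM.ne' f1) (mul_left_cancel₀ hM.ne' f2)
  simpa using hcard

end Pool.Agent.helper85.PG
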