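import Pool.Agent.helper85.PG.L

/-!
# Counting solutions of `X ^ 2 = s W ^ 2 + m ^ 2`: divisor classes
-/

namespace Pool.Agent.helper85.PG

open Finset

theorem coprime_snd (s m a b : ℤ) (hc : IsCoprime a b) (he : a ^ 2 = s * b ^ 2 + m ^ 2) :
    IsCoprime b (m ^ 2) := by
  have h1 : IsCoprime b (a ^ 2) := hc.symm.pow_right
  have h2 : m ^ 2 = a ^ 2 + b * (-(s * b)) := by linear_combination -he
  rw [h2]
  exact IsCoprime.add_mul_left_right h1 _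

theorem coprime_fst (s m a b : ℤ) (hs : Squarefree s) (hm : 1 ≤ m) (hc : IsCoprime a b)
    (he : a ^ 2 = s * b ^ 2 + m ^ 2) : IsCoprime a (m ^ 2) := by
  refine IsCoprime.pow_right (isCoprime_of_prime_dvd (by rintro ⟨-, h⟩; omega) ?_)
  intro z hz hza hzm
  have h1 : z * z ∣ s * b ^ 2 := by
    have h2 : s * b ^ 2 = a ^ 2 - m ^ 2 := by linear_combination -he
    rw [h2, sq, sq]
    exact dvd_sub (mul_dvd_mul hza hza) (mul_dvd_mul hzm hzm)
  have h3 : IsCoprime z b := IsCoprime.of_isCoprime_of_dvd_left hc hza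
  have h4 : IsCoprime (z * z) (b ^ 2) := by
    rw [← sq]; exact h3.pow
  have h5 : z * z ∣ s := h4.dvd_of_dvd_mul_right h1
  exact hz.not_isUnit (hs z h5)

/-- The key divisibility. -/
theorem class_dvd (s m a0 b0 a1 b1 a2 b2 : ℤ) (hs : Squarefree s) (hm : 1 ≤ m)
    (hc0 : IsCoprime a0 b0) (hc1 : IsCoprime a1 b1)
    (h0 : a0 ^ 2 = s * b0 ^ 2 + m ^ 2) (h1 : a1 ^ 2 = s * b1 ^ 2 + m ^ 2)
    (e1 : Int.gcd (a1 * b0 - a0 * b1) (m ^ 2) = Int.gcd (a2 * b0 - a0 * b2) (m ^ 2))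
    (e2 : Int.gcd (a1 * b0 + a0 * b1) (m ^ 2) = Int.gcd (a2 * b0 + a0 * b2) (m ^ 2)) :
    m ^ 2 ∣ 2 * (a1 * b2 - a2 * b1) := by
  set M := m ^ 2 with hM
  have hb0 : IsCoprime b0 M := coprime_snd s m a0 b0 hc0 h0
  have ha1 : IsCoprime a1 M := coprime_fst s m a1 b1 hs hm hc1 h1
  set d1 : ℕ := Int.gcd (a1 * b0 - a0 * b1) M with hd1
  set d2 : ℕ := Int.gcd (a1 * b0 + a0 * b1) M with hd2
  have d1M : (d1 : ℤ) ∣ M := Int.gcd_dvd_right _ _
  have d2M : (d2 : ℤ) ∣ M := Int.gcd_dvd_right _ _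
  have p1 : (d1 : ℤ) ∣ a1 * b0 - a0 * b1 := Int.gcd_dvd_left _ _
  have p2 : (d2 : ℤ) ∣ a1 * b0 + a0 * b1 := Int.gcd_dvd_left _ _
  have q1 : (d1 : ℤ) ∣ a2 * b0 - a0 * b2 := by rw [e1]; exact Int.gcd_dvd_left _ _
  have q2 : (d2 : ℤ) ∣ a2 * b0 + a0 * b2 := by rw [e2]; exact Int.gcd_dvd_left _ _
  have c1 : IsCoprime (d1 : ℤ) b0 := (IsCoprime.of_isCoprime_of_dvd_right hb0 d1M).symm
  have c2 : IsCoprime (d2 : ℤ) b0 := (IsCoprime.of_isCoprime_of_dvd_right hb0 d2M).symm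
  have r1 : (d1 : ℤ) ∣ a1 * b2 - a2 * b1 := by
    refine c1.dvd_of_dvd_mul_left (y := b0) ?_
    have : b0 * (a1 * b2 - a2 * b1) = b2 * (a1 * b0 - a0 * b1) - b1 * (a2 * b0 - a0 * b2) := by
      ring
    rw [this]
    exact dvd_sub (Dvd.dvd.mul_left p1 _) (Dvd.dvd.mul_left q1 _)
  have r2 : (d2 : ℤ) ∣ a1 * b2 - a2 * b1 := by
    refine c2.dvd_of_dvd_mul_left (y := b0) ?_
    have : b0 * (a1 * b2 - a2 * b1) = b2 * (a1 * b0 + a0 * b1) - b1 * (a2 * b0 + a0 * b2) := by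
      ring
    rw [this]
    exact dvd_sub (Dvd.dvd.mul_left p2 _) (Dvd.dvd.mul_left q2 _)
  have hprod : M ∣ (a1 * b0 - a0 * b1) * (a1 * b0 + a0 * b1) := by
    refine ⟨b0 ^ 2 - b1 ^ 2, ?_⟩
    linear_combination b0 ^ 2 * h1 - b1 ^ 2 * h0
  have hg : M.natAbs ∣ d1 * d2 := by
    have w1 := Int.gcd_mul_right_dvd_mul_gcd M (a1 * b0 - a0 * b1) (a1 * b0 + a0 * b1)
    have w2 := (Int.gcd_eq_left_iff_dvd (by rw [hM]; positivity : (0 : ℤ) ≤ M)).2 hprod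
    have w3 : Int.gcd M ((a1 * b0 - a0 * b1) * (a1 * b0 + a0 * b1)) = M.natAbs := by omega
    rw [w3] at w1
    rw [hd1, hd2, Int.gcd_comm _ M, Int.gcd_comm _ M]
    exact w1
  have hgcd2 : (Nat.gcd d1 d2) ∣ 2 := by
    have w1 : ((Nat.gcd d1 d2 : ℕ) : ℤ) ∣ d1 := by exact_mod_cast Nat.gcd_dvd_left d1 d2
    have w2 : ((Nat.gcd d1 d2 : ℕ) : ℤ) ∣ d2 := by exact_mod_cast Nat.gcd_dvd_right d1 d2
    have w3 : ((Nat.gcd d1 d2 : ℕ) : ℤ) ∣ b0 * (a1 * 2) := by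
      have : b0 * (a1 * 2) = (a1 * b0 - a0 * b1) + (a1 * b0 + a0 * b1) := by ring
      rw [this]
      exact dvd_add (w1.trans p1) (w2.trans p2)
    have c3 : IsCoprime ((Nat.gcd d1 d2 : ℕ) : ℤ) b0 :=
      IsCoprime.of_isCoprime_of_dvd_left c1 w1
    have c4 : IsCoprime ((Nat.gcd d1 d2 : ℕ) : ℤ) a1 :=
      (IsCoprime.of_isCoprime_of_dvd_right ha1 (w1.trans d1M)).symm
    have w4 := c4.dvd_of_dvd_mul_left (c3.dvd_of_dvd_mul_left w3)
    exact_mod_cast w4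
  have hfin : ((d1 * d2 : ℕ) : ℤ) ∣ 2 * (a1 * b2 - a2 * b1) := by
    rw [← Nat.gcd_mul_lcm d1 d2]
    push_cast
    refine mul_dvd_mul (by exact_mod_cast hgcd2) ?_
    have : ((Nat.lcm d1 d2 : ℕ) : ℤ) ∣ a1 * b2 - a2 * b1 := by
      rw [Int.natCast_dvd]
      exact Nat.lcm_dvd (Int.natCast_dvd.1 r1) (Int.natCast_dvd.1 r2)
    exact_mod_cast this
  have : M ∣ ((d1 * d2 : ℕ) : ℤ) := by
    rw [← Int.natAbs_dvd]; exact_mod_cast hg
  exact this.trans hfin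

/-- The logarithmic factor. -/
noncomputable def LL (X0 : ℤ) : ℕ := ⌊Real.log (2 * X0) / Real.log (3 / 2)⌋₊ + 5

theorem prim_card (s m X0 : ℤ) (hs : Squarefree s) (hm : 1 ≤ m) (S : Finset (ℤ × ℤ))
    (h0 : ∀ p ∈ S, 0 ≤ p.1) (hX : ∀ p ∈ S, p.1 ≤ X0) (h1 : ∀ p ∈ S, 1 ≤ p.2)
    (hc : ∀ p ∈ S, IsCoprime p.1 p.2)
    (he : ∀ p ∈ S, p.1 ^ 2 = s * p.2 ^ 2 + m ^ 2) :
    S.card ≤ LL X0 * ((m ^ 2).natAbs.divisors.card) ^ 2 := by
  classical
  rcases S.eq_empty_or_nonempty with rfl | ⟨r, hr⟩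
  · simp
  have hm2 : 0 < m ^ 2 := by positivity
  set f : ℤ × ℤ → ℕ × ℕ := fun p => (Int.gcd (p.1 * r.2 - r.1 * p.2) (m ^ 2),
    Int.gcd (p.1 * r.2 + r.1 * p.2) (m ^ 2)) with hf
  have himg : S.image f ⊆ (m ^ 2).natAbs.divisors ×ˢ (m ^ 2).natAbs.divisors := by
    intro k hk
    obtain ⟨p, -, rfl⟩ := Finset.mem_image.1 hk
    have hne : (m ^ 2).natAbs ≠ 0 := by
      rw [Int.natAbs_ne_zero]; exact hm2.ne'
    refine Finset.mem_product.2 ⟨?_, ?_⟩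
    · exact Nat.mem_divisors.2 ⟨Int.natAbs_dvd_natAbs.2 (Int.gcd_dvd_right _ _), hne⟩
    · exact Nat.mem_divisors.2 ⟨Int.natAbs_dvd_natAbs.2 (Int.gcd_dvd_right _ _), hne⟩
  have hfib : ∀ a ∈ S.image f, (S.filter (fun x => f x = a)).card ≤ LL X0 := by
    intro a _
    have hd : ∀ p ∈ S.filter (fun x => f x = a), ∀ q ∈ S.filter (fun x => f x = a),
        m ^ 2 ∣ 2 * (p.1 * q.2 - q.1 * p.2) := by
      intro p hp q hq
      obtain ⟨hp1, hp2⟩ := Finset.mem_filter.1 hp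
      obtain ⟨hq1, hq2⟩ := Finset.mem_filter.1 hq
      have e : f p = f q := hp2.trans hq2.symm
      simp only [hf, Prod.mk.injEq] at e
      exact class_dvd s m r.1 r.2 p.1 p.2 q.1 q.2 hs hm (hc r hr) (hc p hp1) (he r hr) (he p hp1)
        e.1 e.2
    have hs0 : s ≠ 0 := hs.ne_zero
    rcases lt_or_gt_of_ne hs0 with hneg | hpos
    · have := fib_neg s (m ^ 2) (by omega) hm2 (S.filter (fun x => f x = a))
        (fun p hp => h0 p (Finset.mem_filter.1 hp).1) (fun p hp => h1 p (Finset.mem_filter.1 hp).1)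
        (fun p hp => he p (Finset.mem_filter.1 hp).1) hd
      unfold LL; omega
    · have := fib_pos s (m ^ 2) X0 (by omega) hm2 (S.filter (fun x => f x = a))
        (fun p hp => h0 p (Finset.mem_filter.1 hp).1) (fun p hp => hX p (Finset.mem_filter.1 hp).1)
        (fun p hp => h1 p (Finset.mem_filter.1 hp).1)
        (fun p hp => he p (Finset.mem_filter.1 hp).1) hd
      unfold LL; omega
  calc S.card ≤ LL X0 * (S.image f).card := Finset.card_le_mul_card_image S (LL X0) hfib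
    _ ≤ LL X0 * ((m ^ 2).natAbs.divisors ×ˢ (m ^ 2).natAbs.divisors).card :=
        Nat.mul_le_mul_left _ (Finset.card_le_card himg)
    _ = _ := by rw [Finset.card_product]; ring

theorem all_card (s m X0 : ℤ) (hs : Squarefree s) (hm : 1 ≤ m) (S : Finset (ℤ × ℤ))
    (h0 : ∀ p ∈ S, 0 ≤ p.1) (hX : ∀ p ∈ S, p.1 ≤ X0) (h1 : ∀ p ∈ S, 1 ≤ p.2)
    (he : ∀ p ∈ S, p.1 ^ 2 = s * p.2 ^ 2 + m ^ 2) :
    S.card ≤ LL X0 * ((m ^ 2).natAbs.divisors.card) ^ 2 * (m.natAbs.divisors.card) := by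
  classical
  have hm2 : 0 < m ^ 2 := by positivity
  have hne2 : (m ^ 2).natAbs ≠ 0 := by rw [Int.natAbs_ne_zero]; exact hm2.ne'
  have hne : m.natAbs ≠ 0 := by omega
  set f : ℤ × ℤ → ℕ := fun p => Int.gcd p.1 p.2 with hf
  have hgm : ∀ p ∈ S, ((f p : ℕ) : ℤ) ∣ m := by
    intro p hp
    have e1 : ((f p : ℕ) : ℤ) ∣ p.1 := Int.gcd_dvd_left _ _
    have e2 : ((f p : ℕ) : ℤ) ∣ p.2 := Int.gcd_dvd_right _ _
    have e3 : ((f p : ℕ) : ℤ) ^ 2 ∣ m ^ 2 := by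
      have : m ^ 2 = p.1 ^ 2 - s * p.2 ^ 2 := by linear_combination -(he p hp)
      rw [this]
      exact dvd_sub (pow_dvd_pow_of_dvd e1 2) (Dvd.dvd.mul_left (pow_dvd_pow_of_dvd e2 2) _)
    exact (Int.pow_dvd_pow_iff (by norm_num)).1 e3
  have himg : S.image f ⊆ m.natAbs.divisors := by
    intro k hk
    obtain ⟨p, hp, rfl⟩ := Finset.mem_image.1 hk
    exact Nat.mem_divisors.2 ⟨Int.natCast_dvd.1 (hgm p hp), hne⟩
  have hfib : ∀ a ∈ S.image f, (S.filter (fun x => f x = a)).card ≤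
      LL X0 * ((m ^ 2).natAbs.divisors.card) ^ 2 := by
    intro g hg
    obtain ⟨p0, hp0, hp0g⟩ := Finset.mem_image.1 hg
    have hgm' : (g : ℤ) ∣ m := by rw [← hp0g]; exact hgm p0 hp0
    obtain ⟨m', hm'⟩ := hgm'
    have hg0 : 0 < g := by
      rcases Nat.eq_zero_or_pos g with h | h
      · subst h; simp at hm'; omega
      · exact h
    have hgZ : (0 : ℤ) < g := by exact_mod_cast hg0
    have hm'1 : 1 ≤ m' := by
      by_contra hcon
      have : m' ≤ 0 := by omega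
      nlinarith
    set T := S.filter (fun x => f x = g) with hT
    have hdiv : ∀ p ∈ T, (g : ℤ) * (p.1 / g) = p.1 ∧ (g : ℤ) * (p.2 / g) = p.2 := by
      intro p hp
      obtain ⟨hp1, hp2⟩ := Finset.mem_filter.1 hp
      have e1 : (g : ℤ) ∣ p.1 := by rw [← hp2]; exact Int.gcd_dvd_left _ _
      have e2 : (g : ℤ) ∣ p.2 := by rw [← hp2]; exact Int.gcd_dvd_right _ _
      exact ⟨Int.mul_ediv_cancel' e1, Int.mul_ediv_cancel' e2⟩
    have hinj : Set.InjOn (fun p : ℤ × ℤ => (p.1 / (g : ℤ), p.2 / (g : ℤ))) (T : Set (ℤ × ℤ)) := by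
      intro p hp q hq hpq
      simp only [Prod.mk.injEq] at hpq
      have e1 := hdiv p hp
      have e2 := hdiv q hq
      refine Prod.ext ?_ ?_
      · rw [← e1.1, ← e2.1, hpq.1]
      · rw [← e1.2, ← e2.2, hpq.2]
    have hcard : T.card = (T.image (fun p : ℤ × ℤ => (p.1 / (g : ℤ), p.2 / (g : ℤ)))).card :=
      (Finset.card_image_of_injOn hinj).symm
    rw [hcard]
    refine (prim_card s m' X0 hs hm'1 _ ?_ ?_ ?_ ?_ ?_).trans ?_
    · intro q hq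
      obtain ⟨p, hp, rfl⟩ := Finset.mem_image.1 hq
      exact Int.ediv_nonneg (h0 p (Finset.mem_filter.1 hp).1) hgZ.le
    · intro q hq
      obtain ⟨p, hp, rfl⟩ := Finset.mem_image.1 hq
      have w1 := h0 p (Finset.mem_filter.1 hp).1
      exact (Int.ediv_le_self _ w1).trans (hX p (Finset.mem_filter.1 hp).1)
    · intro q hq
      obtain ⟨p, hp, rfl⟩ := Finset.mem_image.1 hq
      have w1 := h1 p (Finset.mem_filter.1 hp).1
      have w2 := (hdiv p hp).2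
      change 1 ≤ p.2 / (g : ℤ)
      by_contra hcon
      have : p.2 / (g : ℤ) ≤ 0 := by omega
      nlinarith
    · intro q hq
      obtain ⟨p, hp, rfl⟩ := Finset.mem_image.1 hq
      obtain ⟨hp1, hp2⟩ := Finset.mem_filter.1 hp
      change IsCoprime (p.1 / (g : ℤ)) (p.2 / (g : ℤ))
      rw [← hp2]
      rw [Int.isCoprime_iff_gcd_eq_one]
      exact Int.gcd_ediv_gcd_ediv_gcd (by rw [← hf] at *; change 0 < f p; omega)
    · intro q hq
      obtain ⟨p, hp, rfl⟩ := Finset.mem_image.1 hq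
      have w1 := he p (Finset.mem_filter.1 hp).1
      obtain ⟨w2, w3⟩ := hdiv p hp
      change (p.1 / (g : ℤ)) ^ 2 = s * (p.2 / (g : ℤ)) ^ 2 + m' ^ 2
      have w4 : (g : ℤ) ^ 2 * ((p.1 / (g : ℤ)) ^ 2) =
          (g : ℤ) ^ 2 * (s * (p.2 / (g : ℤ)) ^ 2 + m' ^ 2) := by
        calc (g : ℤ) ^ 2 * ((p.1 / (g : ℤ)) ^ 2) = ((g : ℤ) * (p.1 / g)) ^ 2 := by ring
          _ = p.1 ^ 2 := by rw [w2]
          _ = s * p.2 ^ 2 + m ^ 2 := w1
          _ = s * ((g : ℤ) * (p.2 / g)) ^ 2 + ((g : ℤ) * m') ^ 2 := by rw [w3, ← hm']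
          _ = _ := by ring
      exact mul_left_cancel₀ (by positivity) w4
    · refine Nat.mul_le_mul_left _ (Nat.pow_le_pow_left (Finset.card_le_card ?_) 2)
      refine Nat.divisors_subset_of_dvd hne2 ?_
      refine Int.natAbs_dvd_natAbs.2 ?_
      rw [hm', mul_pow]
      exact Dvd.intro_left _ rfl
  calc S.card ≤ (LL X0 * ((m ^ 2).natAbs.divisors.card) ^ 2) * (S.image f).card :=
        Finset.card_le_mul_card_image S _ hfib
    _ ≤ _ := Nat.mul_le_mul_left _ (Finset.card_le_card himg)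

end Pool.Agent.helper85.PG
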