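import Pool.Agent.helper85.PG.L2

/-!
# Counting integers `c` with `(c + d)(c + d') y` a square
-/

namespace Pool.Agent.helper85.PG

open Finset

/-- Every non-zero integer is a square times a squarefree integer. -/
theorem exists_sqfree (y : ℤ) (hy : y ≠ 0) : ∃ s t : ℤ, Squarefree s ∧ t ≠ 0 ∧ y = t ^ 2 * s := by
  obtain ⟨a, b, hab, ha⟩ := Nat.sq_mul_squarefree y.natAbs
  have hb0 : b ≠ 0 := by
    rintro rfl
    have : y.natAbs = 0 := by rw [← hab]; simp
    exact hy (Int.natAbs_eq_zero.1 this)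
  refine ⟨y.sign * a, b, ?_, by exact_mod_cast hb0, ?_⟩
  · rw [← Int.squarefree_natAbs, Int.natAbs_mul, Int.natAbs_sign_of_ne_zero hy, one_mul]
    simpa using ha
  · have h1 : (y.natAbs : ℤ) = (b : ℤ) ^ 2 * a := by exact_mod_cast hab.symm
    calc y = y.sign * (y.natAbs : ℤ) := (Int.sign_mul_natAbs y).symm
      _ = _ := by rw [h1]; ring

/-- If `z t ^ 2 s` is a square with `s` squarefree, then `z` is `s` times a square. -/
theorem eq_mul_sq (z s t : ℤ) (hs : Squarefree s) (ht : t ≠ 0) (h : IsSquare (z * (t ^ 2 * s))) :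
    ∃ w, z = s * w ^ 2 := by
  obtain ⟨r, hr⟩ := h
  have h1 : t ^ 2 ∣ r ^ 2 := ⟨z * s, by linear_combination -hr⟩
  obtain ⟨v, hv⟩ := (Int.pow_dvd_pow_iff (by norm_num)).1 h1
  have h2 : z * s = v ^ 2 := by
    have h3 : t ^ 2 * (z * s) = t ^ 2 * v ^ 2 := by
      rw [hv] at hr; linear_combination hr
    exact mul_left_cancel₀ (by positivity) h3
  have h3 : s ∣ v ^ 2 := ⟨z, by rw [← h2]; ring⟩
  obtain ⟨w, hw⟩ := (hs.dvd_pow_iff_dvd (by norm_num)).1 h3
  refine ⟨w, ?_⟩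
  have h4 : s * z = s * (s * w ^ 2) := by
    rw [hw] at h2; linear_combination h2
  exact mul_left_cancel₀ hs.ne_zero h4

theorem sq_count_half (y d d' X0 σ : ℤ) (hy : y ≠ 0) (hdd : d ≠ d') (hσ : σ ^ 2 = 1)
    (T : Finset ℤ) (hT0 : ∀ c ∈ T, 0 ≤ σ * (2 * c + d + d'))
    (hTX : ∀ c ∈ T, σ * (2 * c + d + d') ≤ X0)
    (hn : ∀ c ∈ T, c + d ≠ 0 ∧ c + d' ≠ 0 ∧ IsSquare ((c + d) * (c + d') * y)) :
    T.card ≤ LL X0 * (((d - d') ^ 2).natAbs.divisors.card) ^ 2 *
      ((d - d').natAbs.divisors.card) := by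
  classical
  obtain ⟨s, t, hs, ht, hst⟩ := exists_sqfree y hy
  have hw : ∀ c ∈ T, ∃ W : ℤ, 1 ≤ W ∧ (σ * (2 * c + d + d')) ^ 2 = s * W ^ 2 + |d - d'| ^ 2 := by
    intro c hc
    obtain ⟨n1, n2, n3⟩ := hn c hc
    rw [hst] at n3
    obtain ⟨w, hw⟩ := eq_mul_sq _ s t hs ht n3
    have hw0 : w ≠ 0 := by
      rintro rfl
      have : (c + d) * (c + d') = 0 := by rw [hw]; ring
      rcases mul_eq_zero.1 this with h | h
      · exact n1 h
      · exact n2 h
    refine ⟨2 * |w|, by have := abs_pos.2 hw0; omega, ?_⟩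
    rw [mul_pow, hσ, mul_pow, sq_abs, sq_abs]
    linear_combination 4 * hw
  choose! W hW1 hW2 using hw
  have hinj : Set.InjOn (fun c => (σ * (2 * c + d + d'), W c)) (T : Set ℤ) := by
    intro a _ b _ hab
    simp only [Prod.mk.injEq] at hab
    have h1 : σ * (σ * (2 * a + d + d')) = σ * (σ * (2 * b + d + d')) := by rw [hab.1]
    have h2 : σ ^ 2 * (2 * a + d + d') = σ ^ 2 * (2 * b + d + d') := by linear_combination h1
    rw [hσ] at h2
    omega
  rw [← Finset.card_image_of_injOn hinj]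
  have hm : 1 ≤ |d - d'| := Int.one_le_abs (sub_ne_zero.2 hdd)
  have := all_card s |d - d'| X0 hs hm (T.image (fun c => (σ * (2 * c + d + d'), W c)))
    (by
      intro q hq
      obtain ⟨p, hp, rfl⟩ := Finset.mem_image.1 hq
      exact hT0 p hp)
    (by
      intro q hq
      obtain ⟨p, hp, rfl⟩ := Finset.mem_image.1 hq
      exact hTX p hp)
    (by
      intro q hq
      obtain ⟨p, hp, rfl⟩ := Finset.mem_image.1 hq
      exact hW1 p hp)
    (by
      intro q hq
      obtain ⟨p, hp, rfl⟩ := Finset.mem_image.1 hq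
      exact hW2 p hp)
  rwa [sq_abs, Int.natAbs_abs] at this

/-- The bound for the number of `c` with `(c + d)(c + d') y` a square. -/
noncomputable def BB (H : ℤ) (D : ℕ) : ℕ := 2 * (LL (4 * H) * D ^ 3)

theorem sq_count (y d d' H : ℤ) (D : ℕ) (hy : y ≠ 0) (hdd : d ≠ d')
    (hd : |d| ≤ H) (hd' : |d'| ≤ H) (T : Finset ℤ) (hT : ∀ c ∈ T, |c| ≤ H)
    (hn : ∀ c ∈ T, c + d ≠ 0 ∧ c + d' ≠ 0 ∧ IsSquare ((c + d) * (c + d') * y))
    (hD : ∀ n : ℕ, n ≠ 0 → (n : ℤ) ≤ 4 * H ^ 2 → n.divisors.card ≤ D) :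
    T.card ≤ BB H D := by
  classical
  have hH : 0 ≤ H := (abs_nonneg d).trans hd
  have hH1 : 1 ≤ H := by
    by_contra hcon
    have h0 : H = 0 := by omega
    subst h0
    have h1 : d = 0 := abs_nonpos_iff.1 hd
    have h2 : d' = 0 := abs_nonpos_iff.1 hd'
    exact hdd (h1.trans h2.symm)
  obtain ⟨a1, a2⟩ := abs_le.1 hd
  obtain ⟨b1, b2⟩ := abs_le.1 hd'
  have hne : d - d' ≠ 0 := sub_ne_zero.2 hdd
  have hsq : (d - d') ^ 2 ≤ 4 * H ^ 2 := by
    have : |d - d'| ≤ 2 * H := by rw [abs_le]; constructor <;> linarith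
    calc (d - d') ^ 2 = |d - d'| ^ 2 := (sq_abs _).symm
      _ ≤ (2 * H) ^ 2 := pow_le_pow_left₀ (abs_nonneg _) this 2
      _ = _ := by ring
  have hD1 : ((d - d') ^ 2).natAbs.divisors.card ≤ D := by
    refine hD _ (by rw [Int.natAbs_ne_zero]; positivity) ?_
    rw [Int.natCast_natAbs, abs_of_nonneg (by positivity)]
    exact hsq
  have hD2 : (d - d').natAbs.divisors.card ≤ D := by
    refine hD _ (by rw [Int.natAbs_ne_zero]; exact hne) ?_
    rw [Int.natCast_natAbs]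
    have h1 : |d - d'| ≤ |d - d'| ^ 2 := by
      have : 1 ≤ |d - d'| := Int.one_le_abs hne
      nlinarith
    rw [sq_abs] at h1
    linarith
  have hprod : (((d - d') ^ 2).natAbs.divisors.card) ^ 2 * ((d - d').natAbs.divisors.card) ≤
      D ^ 3 := by
    calc _ ≤ D ^ 2 * D := Nat.mul_le_mul (Nat.pow_le_pow_left hD1 2) hD2
      _ = D ^ 3 := by ring
  have hbound : LL (4 * H) * (((d - d') ^ 2).natAbs.divisors.card) ^ 2 *
      ((d - d').natAbs.divisors.card) ≤ LL (4 * H) * D ^ 3 := by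
    rw [mul_assoc]; exact Nat.mul_le_mul_left _ hprod
  have h1 := sq_count_half y d d' (4 * H) 1 hy hdd (by norm_num)
    (T.filter (fun c => 0 ≤ 2 * c + d + d'))
    (fun c hc => by have := (Finset.mem_filter.1 hc).2; linarith)
    (fun c hc => by
      have := (abs_le.1 (hT c (Finset.mem_filter.1 hc).1)).2
      linarith)
    (fun c hc => hn c (Finset.mem_filter.1 hc).1)
  have h2 := sq_count_half y d d' (4 * H) (-1) hy hdd (by norm_num)
    (T.filter (fun c => ¬ 0 ≤ 2 * c + d + d'))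
    (fun c hc => by have := (Finset.mem_filter.1 hc).2; linarith)
    (fun c hc => by
      have := (abs_le.1 (hT c (Finset.mem_filter.1 hc).1)).1
      linarith)
    (fun c hc => hn c (Finset.mem_filter.1 hc).1)
  have h3 := Finset.card_filter_add_card_filter_not (s := T) (fun c => 0 ≤ 2 * c + d + d')
  unfold BB
  omega

end Pool.Agent.helper85.PG
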