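import Pool.Agent.helper85.PG.J

/-!
# Moment lemma: few primes can have a large sum of Legendre symbols over a fixed family
-/

namespace Pool.Agent.helper85.PG

open Finset

theorem hh_one_right (y : ℤ) : hh y 1 = 1 := by
  unfold hh; simp

theorem hh_prod {κ : Type*} (s : Finset κ) (y : ℤ) (f : κ → ℕ) :
    hh y (∏ j ∈ s, f j) = ∏ j ∈ s, hh y (f j) := by
  classical
  induction s using Finset.induction_on with
  | empty => simp [hh_one_right]
  | insert a s ha ih => rw [Finset.prod_insert ha, Finset.prod_insert ha, hh_mul_right, ih]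

section
variable {ι : Type*} (I : Finset ι) (x : ι → ℤ)

/-- The sum of the symbols over the family. -/
def TT (m : ℕ) : ℤ := ∑ i ∈ I, hh (x i) m

open Classical in
/-- The number of pairs whose product is a square. -/
noncomputable def Quad : ℕ := ((I ×ˢ I).filter (fun ij => IsSquare (x ij.1 * x ij.2))).card

theorem sum_TT_sq (N Z : ℕ) (hx : ∀ i ∈ I, |x i| ≤ N) :
    ∑ m ∈ range Z, (TT I x m) ^ 2 ≤ (Z : ℤ) * (Quad I x : ℤ) +
      4 * (N : ℤ) ^ 2 * (I.card : ℤ) ^ 2 := by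
  classical
  have h1 : ∑ m ∈ range Z, (TT I x m) ^ 2 =
      ∑ ij ∈ I ×ˢ I, ∑ m ∈ range Z, hh (x ij.1 * x ij.2) m := by
    rw [Finset.sum_comm]
    refine Finset.sum_congr rfl fun m _ => ?_
    rw [sq, TT, Finset.sum_mul_sum, ← Finset.sum_product']
    refine Finset.sum_congr rfl fun ij _ => ?_
    rw [hh_mul]
  rw [h1]
  have h2 : ∀ ij ∈ I ×ˢ I, ∑ m ∈ range Z, hh (x ij.1 * x ij.2) m ≤
      (if IsSquare (x ij.1 * x ij.2) then (Z : ℤ) else 0) + 4 * (N : ℤ) ^ 2 := by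
    intro ij hij
    obtain ⟨hi, hj⟩ := Finset.mem_product.1 hij
    split_ifs with h
    · calc ∑ m ∈ range Z, hh (x ij.1 * x ij.2) m ≤ ∑ m ∈ range Z, 1 :=
            Finset.sum_le_sum fun m _ => hh_le_one _ m
        _ = (Z : ℤ) := by simp
        _ ≤ _ := by
          have : (0 : ℤ) ≤ 4 * (N : ℤ) ^ 2 := by positivity
          linarith
    · have h3 := (abs_le.1 (abs_sum_le _ h Z)).2
      have h4 : |x ij.1 * x ij.2| ≤ (N : ℤ) ^ 2 := by
        rw [sq, abs_mul]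
        exact mul_le_mul (hx _ hi) (hx _ hj) (abs_nonneg _) (by positivity)
      linarith
  refine (Finset.sum_le_sum h2).trans ?_
  rw [Finset.sum_add_distrib, Finset.sum_const, Finset.card_product, Quad]
  rw [← Finset.sum_filter, Finset.sum_const]
  simp only [nsmul_eq_mul]
  push_cast
  ring_nf
  rfl

/-- The power mean step and the multiplicativity of the symbol. -/
theorem sum_pow_le (P : Finset ℕ) (k : ℕ) (hk : Even k) (hk0 : 0 < k) :
    (∑ p ∈ P, TT I x p) ^ k ≤ (I.card : ℤ) ^ (k - 1) *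
      ∑ f ∈ Fintype.piFinset (fun _ : Fin k => P), TT I x (∏ j, f j) := by
  classical
  have h1 : ∑ p ∈ P, TT I x p = ∑ i ∈ I, ∑ p ∈ P, hh (x i) p := by
    unfold TT; rw [Finset.sum_comm]
  have h2 : ∑ f ∈ Fintype.piFinset (fun _ : Fin k => P), TT I x (∏ j, f j) =
      ∑ i ∈ I, (∑ p ∈ P, hh (x i) p) ^ k := by
    unfold TT
    rw [Finset.sum_comm]
    refine Finset.sum_congr rfl fun i _ => ?_
    rw [Finset.sum_pow']
    refine Finset.sum_congr rfl fun f _ => ?_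
    rw [hh_prod]
  rw [h1, h2]
  obtain ⟨n, rfl⟩ : ∃ n, k = n + 1 := ⟨k - 1, by omega⟩
  calc (∑ i ∈ I, ∑ p ∈ P, hh (x i) p) ^ (n + 1)
      ≤ |(∑ i ∈ I, ∑ p ∈ P, hh (x i) p)| ^ (n + 1) := by
        rw [hk.pow_abs]
    _ ≤ (∑ i ∈ I, |∑ p ∈ P, hh (x i) p|) ^ (n + 1) := by
        refine pow_le_pow_left₀ (abs_nonneg _) (Finset.abs_sum_le_sum_abs _ _) _
    _ ≤ (I.card : ℤ) ^ n * ∑ i ∈ I, |∑ p ∈ P, hh (x i) p| ^ (n + 1) :=
        pow_sum_le_card_mul_sum_pow (fun i _ => abs_nonneg _) n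
    _ = (I.card : ℤ) ^ (n + 1 - 1) * ∑ i ∈ I, (∑ p ∈ P, hh (x i) p) ^ (n + 1) := by
        congr 1
        refine Finset.sum_congr rfl fun i _ => ?_
        rw [hk.pow_abs]

end

theorem rho_le (P : Finset ℕ) (hP : ∀ p ∈ P, p.Prime) (k : ℕ) (f : Fin k → ℕ)
    (hf : f ∈ Fintype.piFinset (fun _ : Fin k => P)) :
    ((Fintype.piFinset (fun _ : Fin k => P)).filter
      (fun g => ∏ j, g j = ∏ j, f j)).card ≤ k ^ k := by
  classical
  have h1 : (Fintype.piFinset (fun _ : Fin k => P)).filter (fun g => ∏ j, g j = ∏ j, f j) ⊆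
      (Finset.univ : Finset (Fin k → Fin k)).image (fun σ => f ∘ σ) := by
    intro g hg
    obtain ⟨hg1, hg2⟩ := Finset.mem_filter.1 hg
    have h2 : ∀ j, ∃ i, g j = f i := by
      intro j
      have h3 : g j ∣ ∏ i, f i := hg2 ▸ Finset.dvd_prod_of_mem g (Finset.mem_univ j)
      have hgp := hP _ (Fintype.mem_piFinset.1 hg1 j)
      obtain ⟨i, -, hi⟩ := (hgp.prime.dvd_finsetProd_iff f).1 h3
      exact ⟨i, (Nat.prime_dvd_prime_iff_eq hgp (hP _ (Fintype.mem_piFinset.1 hf i))).1 hi⟩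
    choose σ hσ using h2
    exact Finset.mem_image.2 ⟨σ, Finset.mem_univ _, funext fun j => (hσ j).symm⟩
  calc _ ≤ _ := Finset.card_le_card h1
    _ ≤ _ := Finset.card_image_le
    _ = k ^ k := by simp

/-- The number of representations as a product of `k` elements of `P`. -/
def rho (P : Finset ℕ) (k m : ℕ) : ℕ :=
  ((Fintype.piFinset (fun _ : Fin k => P)).filter (fun g => ∏ j, g j = m)).card

theorem prod_mem_range (P : Finset ℕ) (Q k : ℕ) (hPQ : ∀ p ∈ P, p ≤ Q) (f : Fin k → ℕ)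
    (hf : f ∈ Fintype.piFinset (fun _ : Fin k => P)) : ∏ j, f j ∈ range (Q ^ k + 1) := by
  rw [Finset.mem_range, Nat.lt_succ_iff]
  calc ∏ j, f j ≤ ∏ _j : Fin k, Q :=
        Finset.prod_le_prod' fun j _ => hPQ _ (Fintype.mem_piFinset.1 hf j)
    _ = Q ^ k := by simp

theorem sum_fiber (P : Finset ℕ) (Q k : ℕ) (hPQ : ∀ p ∈ P, p ≤ Q) (F : ℕ → ℤ) :
    ∑ f ∈ Fintype.piFinset (fun _ : Fin k => P), F (∏ j, f j) =
      ∑ m ∈ range (Q ^ k + 1), (rho P k m : ℤ) * F m := by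
  classical
  rw [← Finset.sum_fiberwise_of_maps_to (g := fun f : Fin k → ℕ => ∏ j, f j)
    (fun f hf => prod_mem_range P Q k hPQ f hf)]
  refine Finset.sum_congr rfl fun m _ => ?_
  rw [rho, ← nsmul_eq_mul, ← Finset.sum_const]
  refine Finset.sum_congr rfl fun f hf => ?_
  rw [(Finset.mem_filter.1 hf).2]

theorem sum_rho_sq (P : Finset ℕ) (hP : ∀ p ∈ P, p.Prime) (Q k : ℕ) (hPQ : ∀ p ∈ P, p ≤ Q) :
    ∑ m ∈ range (Q ^ k + 1), (rho P k m : ℤ) ^ 2 ≤ (P.card : ℤ) ^ k * (k : ℤ) ^ k := by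
  classical
  have h1 := sum_fiber P Q k hPQ (fun m => (rho P k m : ℤ))
  simp_rw [sq]
  rw [← h1]
  calc ∑ f ∈ Fintype.piFinset (fun _ : Fin k => P), (rho P k (∏ j, f j) : ℤ)
      ≤ ∑ _f ∈ Fintype.piFinset (fun _ : Fin k => P), ((k : ℤ) ^ k) := by
        refine Finset.sum_le_sum fun f hf => ?_
        exact_mod_cast rho_le P hP k f hf
    _ = (P.card : ℤ) ^ k * (k : ℤ) ^ k := by
        rw [Finset.sum_const, Fintype.card_piFinset]
        simp

section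
variable {ι : Type*} (I : Finset ι) (x : ι → ℤ)

/-- The moment lemma. -/
theorem moment (P : Finset ℕ) (Q N k : ℕ) (hk : Even k) (hk0 : 0 < k)
    (hP : ∀ p ∈ P, p.Prime) (hPQ : ∀ p ∈ P, p ≤ Q) (hx : ∀ i ∈ I, |x i| ≤ N) :
    (∑ p ∈ P, TT I x p) ^ (2 * k) ≤ (I.card : ℤ) ^ (2 * (k - 1)) *
      (((P.card : ℤ) ^ k * (k : ℤ) ^ k) * (((Q : ℤ) ^ k + 1) * (Quad I x : ℤ) +
        4 * (N : ℤ) ^ 2 * (I.card : ℤ) ^ 2)) := by
  classical
  have h1 := sum_pow_le I x P k hk hk0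
  rw [sum_fiber P Q k hPQ (TT I x)] at h1
  have h0 : 0 ≤ (∑ p ∈ P, TT I x p) ^ k := hk.pow_nonneg _
  have h2 : (∑ m ∈ range (Q ^ k + 1), (rho P k m : ℤ) * TT I x m) ^ 2 ≤
      (∑ m ∈ range (Q ^ k + 1), (rho P k m : ℤ) ^ 2) *
        ∑ m ∈ range (Q ^ k + 1), (TT I x m) ^ 2 := Finset.sum_mul_sq_le_sq_mul_sq _ _ _
  have h3 := sum_rho_sq P hP Q k hPQ
  have h4 := sum_TT_sq I x N (Q ^ k + 1) hx
  have h5 : 0 ≤ ∑ m ∈ range (Q ^ k + 1), (TT I x m) ^ 2 :=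
    Finset.sum_nonneg fun m _ => sq_nonneg _
  have h6 : (∑ m ∈ range (Q ^ k + 1), (rho P k m : ℤ) * TT I x m) ^ 2 ≤
      ((P.card : ℤ) ^ k * (k : ℤ) ^ k) * (((Q : ℤ) ^ k + 1) * (Quad I x : ℤ) +
        4 * (N : ℤ) ^ 2 * (I.card : ℤ) ^ 2) := by
    refine h2.trans ?_
    push_cast at h4
    exact mul_le_mul h3 h4 h5 (by positivity)
  calc (∑ p ∈ P, TT I x p) ^ (2 * k) = ((∑ p ∈ P, TT I x p) ^ k) ^ 2 := by
        rw [← pow_mul, mul_comm]
    _ ≤ ((I.card : ℤ) ^ (k - 1) *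
        ∑ m ∈ range (Q ^ k + 1), (rho P k m : ℤ) * TT I x m) ^ 2 :=
        pow_le_pow_left₀ h0 h1 2
    _ = (I.card : ℤ) ^ (2 * (k - 1)) *
        (∑ m ∈ range (Q ^ k + 1), (rho P k m : ℤ) * TT I x m) ^ 2 := by
        rw [mul_pow, ← pow_mul, mul_comm (k - 1) 2]
    _ ≤ _ := mul_le_mul_of_nonneg_left h6 (by positivity)

end

end Pool.Agent.helper85.PG
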