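import Pool.Agent.helper85.PG.M
import Pool.Agent.helper85.PG.L3

/-!
# The family of fourfold products
-/

namespace Pool.Agent.helper85.PG

open Finset

/-- The fourfold product. -/
def xx (j : (ℤ × ℤ) × (ℤ × ℤ)) : ℤ :=
  ((j.1.1 + j.2.1) * (j.1.1 + j.2.2)) * ((j.1.2 + j.2.1) * (j.1.2 + j.2.2))

/-- The index set. -/
def I0 (A B : Finset ℤ) : Finset ((ℤ × ℤ) × (ℤ × ℤ)) := (A ×ˢ A) ×ˢ (B ×ˢ B)

/-- The index set without the zero products. -/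
def II (A B : Finset ℤ) : Finset ((ℤ × ℤ) × (ℤ × ℤ)) := (I0 A B).filter (fun j => xx j ≠ 0)

theorem card_I0 (A B : Finset ℤ) : (I0 A B).card = A.card ^ 2 * B.card ^ 2 := by
  rw [I0, Finset.card_product, Finset.card_product, Finset.card_product]; ring

theorem card_II_le (A B : Finset ℤ) : (II A B).card ≤ A.card ^ 2 * B.card ^ 2 := by
  rw [← card_I0]; exact Finset.card_filter_le _ _

theorem mem_II {A B : Finset ℤ} {j : (ℤ × ℤ) × (ℤ × ℤ)} (h : j ∈ II A B) :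
    (j.1.1 ∈ A ∧ j.1.2 ∈ A) ∧ (j.2.1 ∈ B ∧ j.2.2 ∈ B) ∧ xx j ≠ 0 := by
  obtain ⟨h1, h2⟩ := Finset.mem_filter.1 h
  obtain ⟨h3, h4⟩ := Finset.mem_product.1 h1
  exact ⟨Finset.mem_product.1 h3, Finset.mem_product.1 h4, h2⟩

theorem abs_xx_le (A B : Finset ℤ) (H : ℕ) (hA : ∀ a ∈ A, |a| ≤ H) (hB : ∀ b ∈ B, |b| ≤ H) :
    ∀ j ∈ II A B, |xx j| ≤ ((16 * H ^ 4 : ℕ) : ℤ) := by
  intro j hj
  obtain ⟨⟨h1, h2⟩, ⟨h3, h4⟩, -⟩ := mem_II hj
  have key : ∀ a ∈ A, ∀ b ∈ B, |a + b| ≤ 2 * (H : ℤ) := by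
    intro a ha b hb
    have := abs_add_le a b
    have := hA a ha
    have := hB b hb
    linarith
  have k1 := key _ h1 _ h3
  have k2 := key _ h1 _ h4
  have k3 := key _ h2 _ h3
  have k4 := key _ h2 _ h4
  rw [xx, abs_mul, abs_mul, abs_mul]
  push_cast
  have hH : (0 : ℤ) ≤ 2 * (H : ℤ) := by positivity
  calc |j.1.1 + j.2.1| * |j.1.1 + j.2.2| * (|j.1.2 + j.2.1| * |j.1.2 + j.2.2|)
      ≤ (2 * (H : ℤ)) * (2 * (H : ℤ)) * ((2 * (H : ℤ)) * (2 * (H : ℤ))) := by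
        refine mul_le_mul (mul_le_mul k1 k2 (abs_nonneg _) hH)
          (mul_le_mul k3 k4 (abs_nonneg _) hH) (by positivity) (by positivity)
    _ = 16 * (H : ℤ) ^ 4 := by ring

theorem fibre_card (A B : Finset ℤ) (H : ℤ) (D : ℕ) (hA : ∀ a ∈ A, |a| ≤ H)
    (hB : ∀ b ∈ B, |b| ≤ H)
    (hD : ∀ n : ℕ, n ≠ 0 → (n : ℤ) ≤ 4 * H ^ 2 → n.divisors.card ≤ D) (z : ℤ) (hz : z ≠ 0) :
    ((II A B).filter (fun j => IsSquare (z * xx j) ∧ j.2.1 ≠ j.2.2)).card ≤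
      BB H D * (A.card * B.card ^ 2) := by
  classical
  set S := (II A B).filter (fun j => IsSquare (z * xx j) ∧ j.2.1 ≠ j.2.2) with hS
  set f : (ℤ × ℤ) × (ℤ × ℤ) → ℤ × (ℤ × ℤ) := fun j => (j.1.2, j.2) with hf
  have himg : S.image f ⊆ A ×ˢ (B ×ˢ B) := by
    intro k hk
    obtain ⟨j, hj, rfl⟩ := Finset.mem_image.1 hk
    obtain ⟨⟨h1, h2⟩, ⟨h3, h4⟩, -⟩ := mem_II (Finset.mem_filter.1 hj).1
    exact Finset.mem_product.2 ⟨h2, Finset.mem_product.2 ⟨h3, h4⟩⟩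
  have hfib : ∀ k ∈ S.image f, (S.filter (fun j => f j = k)).card ≤ BB H D := by
    intro k hk
    obtain ⟨j0, hj0, rfl⟩ := Finset.mem_image.1 hk
    obtain ⟨hj1, hj2, hj3⟩ := Finset.mem_filter.1 hj0
    obtain ⟨⟨h1, h2⟩, ⟨h3, h4⟩, h5⟩ := mem_II hj1
    have hy : z * ((j0.1.2 + j0.2.1) * (j0.1.2 + j0.2.2)) ≠ 0 := by
      refine mul_ne_zero hz ?_
      intro h
      apply h5
      rw [xx, h, mul_zero]
    have hinj : Set.InjOn (fun j : (ℤ × ℤ) × (ℤ × ℤ) => j.1.1)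
        (S.filter (fun j => f j = f j0) : Set ((ℤ × ℤ) × (ℤ × ℤ))) := by
      intro a ha b hb hab
      have ha' := (Finset.mem_filter.1 (Finset.mem_coe.1 ha)).2
      have hb' := (Finset.mem_filter.1 (Finset.mem_coe.1 hb)).2
      have e : f a = f b := ha'.trans hb'.symm
      simp only [hf, Prod.mk.injEq] at e
      exact Prod.ext (Prod.ext hab e.1) e.2
    rw [← Finset.card_image_of_injOn hinj]
    refine sq_count (z * ((j0.1.2 + j0.2.1) * (j0.1.2 + j0.2.2))) j0.2.1 j0.2.2 H D hy hj3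
      (hB _ h3) (hB _ h4) _ ?_ ?_ hD
    · intro c hc
      obtain ⟨j, hj, rfl⟩ := Finset.mem_image.1 hc
      have := mem_II (Finset.mem_filter.1 (Finset.mem_filter.1 hj).1).1
      exact hA _ this.1.1
    · intro c hc
      obtain ⟨j, hj, rfl⟩ := Finset.mem_image.1 hc
      obtain ⟨hj4, hj5⟩ := Finset.mem_filter.1 hj
      obtain ⟨hj6, hj7, hj8⟩ := Finset.mem_filter.1 hj4
      obtain ⟨-, -, h7⟩ := mem_II hj6
      simp only [hf, Prod.mk.injEq] at hj5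
      obtain ⟨e1, e2⟩ := hj5
      rw [← e1, ← e2]
      refine ⟨?_, ?_, ?_⟩
      · intro h; apply h7; rw [xx, h]; ring
      · intro h; apply h7; rw [xx, h]; ring
      · have : (j.1.1 + j.2.1) * (j.1.1 + j.2.2) *
            (z * ((j.1.2 + j.2.1) * (j.1.2 + j.2.2))) = z * xx j := by rw [xx]; ring
        rw [this]; exact hj7
  calc S.card ≤ BB H D * (S.image f).card := Finset.card_le_mul_card_image S _ hfib
    _ ≤ BB H D * (A ×ˢ (B ×ˢ B)).card := Nat.mul_le_mul_left _ (Finset.card_le_card himg)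
    _ = _ := by rw [Finset.card_product, Finset.card_product]; ring

theorem quad_le (A B : Finset ℤ) (H : ℤ) (D : ℕ) (hA : ∀ a ∈ A, |a| ≤ H)
    (hB : ∀ b ∈ B, |b| ≤ H)
    (hD : ∀ n : ℕ, n ≠ 0 → (n : ℤ) ≤ 4 * H ^ 2 → n.divisors.card ≤ D) :
    Quad (II A B) xx ≤ (A.card ^ 2 * B.card ^ 2) *
      (BB H D * (A.card * B.card ^ 2) + A.card ^ 2 * B.card) := by
  classical
  have h1 : Quad (II A B) xx =
      ∑ i ∈ II A B, ((II A B).filter (fun j => IsSquare (xx i * xx j))).card := by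
    rw [Quad, Finset.card_filter, Finset.sum_product]
    refine Finset.sum_congr rfl fun i _ => ?_
    rw [Finset.card_filter]
  have h2 : ∀ i ∈ II A B, ((II A B).filter (fun j => IsSquare (xx i * xx j))).card ≤
      BB H D * (A.card * B.card ^ 2) + A.card ^ 2 * B.card := by
    intro i hi
    have hi0 := (mem_II hi).2.2
    have h3 := fibre_card A B H D hA hB hD (xx i) hi0
    have h4 : ((II A B).filter (fun j => j.2.1 = j.2.2)).card ≤ A.card ^ 2 * B.card := by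
      calc ((II A B).filter (fun j => j.2.1 = j.2.2)).card ≤ ((A ×ˢ A) ×ˢ B).card := by
            refine Finset.card_le_card_of_injOn
              (fun j : (ℤ × ℤ) × (ℤ × ℤ) => (j.1, j.2.1)) ?_ ?_
            · intro j hj
              obtain ⟨hj1, -⟩ := Finset.mem_filter.1 (Finset.mem_coe.1 hj)
              obtain ⟨⟨h1, h2⟩, ⟨h3, h4⟩, -⟩ := mem_II hj1
              exact Finset.mem_coe.2 (Finset.mem_product.2 ⟨Finset.mem_product.2 ⟨h1, h2⟩, h3⟩)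
            · intro a ha b hb hab
              have ha' := (Finset.mem_filter.1 (Finset.mem_coe.1 ha)).2
              have hb' := (Finset.mem_filter.1 (Finset.mem_coe.1 hb)).2
              simp only [Prod.mk.injEq] at hab
              refine Prod.ext hab.1 (Prod.ext hab.2 ?_)
              rw [← ha', ← hb', hab.2]
        _ = _ := by rw [Finset.card_product, Finset.card_product]; ring
    have h5 : (II A B).filter (fun j => IsSquare (xx i * xx j)) ⊆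
        (II A B).filter (fun j => IsSquare (xx i * xx j) ∧ j.2.1 ≠ j.2.2) ∪
          (II A B).filter (fun j => j.2.1 = j.2.2) := by
      intro j hj
      obtain ⟨hj1, hj2⟩ := Finset.mem_filter.1 hj
      rw [Finset.mem_union, Finset.mem_filter, Finset.mem_filter]
      by_cases h : j.2.1 = j.2.2
      · exact Or.inr ⟨hj1, h⟩
      · exact Or.inl ⟨hj1, hj2, h⟩
    exact (Finset.card_le_card h5).trans ((Finset.card_union_le _ _).trans (add_le_add h3 h4))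
  rw [h1]
  calc _ ≤ ∑ _i ∈ II A B, (BB H D * (A.card * B.card ^ 2) + A.card ^ 2 * B.card) :=
        Finset.sum_le_sum h2
    _ = (II A B).card * (BB H D * (A.card * B.card ^ 2) + A.card ^ 2 * B.card) := by
        rw [Finset.sum_const, smul_eq_mul]
    _ ≤ _ := Nat.mul_le_mul_right _ (card_II_le A B)

/-- The fourfold sum of symbols equals the sum over the non-zero products. -/
theorem sum_I0_eq (A B : Finset ℤ) (p : ℕ) (hp : 1 < p) :
    ∑ j ∈ I0 A B, hh (xx j) p = TT (II A B) xx p := by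
  classical
  rw [TT, II, Finset.sum_filter]
  refine Finset.sum_congr rfl fun j _ => ?_
  split_ifs with h
  · rfl
  · push Not at h
    rw [h, hh]
    split_ifs
    · exact jacobiSym.zero_left hp
    · rfl

/-- Double Cauchy-Schwarz. -/
theorem cs4 (A B : Finset ℤ) (α β : ℤ → ℂ) (hα : ∀ a ∈ A, ‖α a‖ ≤ 1) (hβ : ∀ b ∈ B, ‖β b‖ ≤ 1)
    (c : ℤ → ℤ → ℝ) :
    ‖∑ a ∈ A, ∑ b ∈ B, α a * β b * (c a b : ℂ)‖ ^ 4 ≤ (A.card : ℝ) ^ 2 * (B.card : ℝ) ^ 2 *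
      ∑ b ∈ B, ∑ b' ∈ B, (∑ a ∈ A, c a b * c a b') ^ 2 := by
  classical
  have h1 : ‖∑ a ∈ A, ∑ b ∈ B, α a * β b * (c a b : ℂ)‖ ≤
      ∑ a ∈ A, ‖∑ b ∈ B, β b * (c a b : ℂ)‖ := by
    refine (norm_sum_le _ _).trans (Finset.sum_le_sum fun a ha => ?_)
    have : ∑ b ∈ B, α a * β b * (c a b : ℂ) = α a * ∑ b ∈ B, β b * (c a b : ℂ) := by
      rw [Finset.mul_sum]; exact Finset.sum_congr rfl fun b _ => by ring
    rw [this, norm_mul]
    calc ‖α a‖ * ‖∑ b ∈ B, β b * (c a b : ℂ)‖ ≤ 1 * ‖∑ b ∈ B, β b * (c a b : ℂ)‖ :=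
          mul_le_mul_of_nonneg_right (hα a ha) (norm_nonneg _)
      _ = _ := one_mul _
  have h2 : ‖∑ a ∈ A, ∑ b ∈ B, α a * β b * (c a b : ℂ)‖ ^ 2 ≤
      A.card * ∑ a ∈ A, ‖∑ b ∈ B, β b * (c a b : ℂ)‖ ^ 2 := by
    refine (pow_le_pow_left₀ (norm_nonneg _) h1 2).trans ?_
    exact sq_sum_le_card_mul_sum_sq
  have h3 : ∑ a ∈ A, ‖∑ b ∈ B, β b * (c a b : ℂ)‖ ^ 2 ≤
      ∑ b ∈ B, ∑ b' ∈ B, |∑ a ∈ A, c a b * c a b'| := by
    have e1 : ((∑ a ∈ A, ‖∑ b ∈ B, β b * (c a b : ℂ)‖ ^ 2 : ℝ) : ℂ) =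
        ∑ b ∈ B, ∑ b' ∈ B, β b * (starRingEnd ℂ) (β b') *
          ((∑ a ∈ A, c a b * c a b' : ℝ) : ℂ) := by
      push_cast
      have e2 : ∀ a ∈ A, ((‖∑ b ∈ B, β b * (c a b : ℂ)‖ : ℂ)) ^ 2 =
          ∑ b ∈ B, ∑ b' ∈ B, β b * (starRingEnd ℂ) (β b') * ((c a b : ℂ) * (c a b' : ℂ)) := by
        intro a _
        rw [← Complex.mul_conj', map_sum, Finset.sum_mul_sum]
        refine Finset.sum_congr rfl fun b _ => Finset.sum_congr rfl fun b' _ => ?_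
        rw [map_mul, Complex.conj_ofReal]; ring
      rw [Finset.sum_congr rfl e2, Finset.sum_comm]
      refine Finset.sum_congr rfl fun b _ => ?_
      rw [Finset.sum_comm]
      refine Finset.sum_congr rfl fun b' _ => ?_
      rw [Finset.mul_sum]
    have e3 : (∑ a ∈ A, ‖∑ b ∈ B, β b * (c a b : ℂ)‖ ^ 2 : ℝ) =
        ‖((∑ a ∈ A, ‖∑ b ∈ B, β b * (c a b : ℂ)‖ ^ 2 : ℝ) : ℂ)‖ := by
      rw [Complex.norm_real, Real.norm_of_nonneg (Finset.sum_nonneg fun _ _ => by positivity)]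
    rw [e3, e1]
    refine (norm_sum_le _ _).trans (Finset.sum_le_sum fun b hb => ?_)
    refine (norm_sum_le _ _).trans (Finset.sum_le_sum fun b' hb' => ?_)
    rw [norm_mul, norm_mul, RCLike.norm_conj, Complex.norm_real, Real.norm_eq_abs]
    calc ‖β b‖ * ‖β b'‖ * |∑ a ∈ A, c a b * c a b'| ≤ 1 * 1 * |∑ a ∈ A, c a b * c a b'| := by
          refine mul_le_mul_of_nonneg_right ?_ (abs_nonneg _)
          exact mul_le_mul (hβ b hb) (hβ b' hb') (norm_nonneg _) zero_le_one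
      _ = _ := by ring
  have h4 : (∑ b ∈ B, ∑ b' ∈ B, |∑ a ∈ A, c a b * c a b'|) ^ 2 ≤
      (B.card : ℝ) ^ 2 * ∑ b ∈ B, ∑ b' ∈ B, (∑ a ∈ A, c a b * c a b') ^ 2 := by
    rw [← Finset.sum_product', ← Finset.sum_product']
    refine (sq_sum_le_card_mul_sum_sq).trans ?_
    rw [Finset.card_product]
    simp only [sq_abs]
    push_cast
    rw [sq (B.card : ℝ)]
  have h5 : 0 ≤ ∑ b ∈ B, ∑ b' ∈ B, |∑ a ∈ A, c a b * c a b'| :=
    Finset.sum_nonneg fun _ _ => Finset.sum_nonneg fun _ _ => abs_nonneg _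
  calc ‖∑ a ∈ A, ∑ b ∈ B, α a * β b * (c a b : ℂ)‖ ^ 4 =
        (‖∑ a ∈ A, ∑ b ∈ B, α a * β b * (c a b : ℂ)‖ ^ 2) ^ 2 := by ring
    _ ≤ (A.card * ∑ b ∈ B, ∑ b' ∈ B, |∑ a ∈ A, c a b * c a b'|) ^ 2 := by
        refine pow_le_pow_left₀ (by positivity) (h2.trans ?_) 2
        exact mul_le_mul_of_nonneg_left h3 (by positivity)
    _ = (A.card : ℝ) ^ 2 * (∑ b ∈ B, ∑ b' ∈ B, |∑ a ∈ A, c a b * c a b'|) ^ 2 := by ring
    _ ≤ (A.card : ℝ) ^ 2 * ((B.card : ℝ) ^ 2 *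
          ∑ b ∈ B, ∑ b' ∈ B, (∑ a ∈ A, c a b * c a b') ^ 2) :=
        mul_le_mul_of_nonneg_left h4 (by positivity)
    _ = _ := by ring

/-- The fourfold sum as a sum over the index set. -/
theorem sum_four (A B : Finset ℤ) (p : ℕ) :
    ∑ b ∈ B, ∑ b' ∈ B, (∑ a ∈ A, (hh (a + b) p : ℝ) * (hh (a + b') p : ℝ)) ^ 2 =
      ((∑ j ∈ I0 A B, hh (xx j) p : ℤ) : ℝ) := by
  rw [I0, Finset.sum_product_right, Finset.sum_product]
  push_cast
  refine Finset.sum_congr rfl fun b _ => Finset.sum_congr rfl fun b' _ => ?_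
  rw [sq, Finset.sum_mul_sum, Finset.sum_product]
  refine Finset.sum_congr rfl fun a _ => Finset.sum_congr rfl fun a' _ => ?_
  rw [xx, hh_mul, hh_mul, hh_mul]
  push_cast
  ring

theorem cs_hh (A B : Finset ℤ) (α β : ℤ → ℂ) (hα : ∀ a ∈ A, ‖α a‖ ≤ 1)
    (hβ : ∀ b ∈ B, ‖β b‖ ≤ 1) (p : ℕ) (hp : 1 < p) :
    ‖∑ a ∈ A, ∑ b ∈ B, α a * β b * (hh (a + b) p : ℂ)‖ ^ 4 ≤
      (A.card : ℝ) ^ 2 * (B.card : ℝ) ^ 2 * (TT (II A B) xx p : ℝ) := by
  have h := cs4 A B α β hα hβ (fun a b => (hh (a + b) p : ℝ))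
  rw [sum_four, sum_I0_eq A B p hp] at h
  simpa using h

end Pool.Agent.helper85.PG
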